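import Mathlib

/-! The Lieb-Thirring inequality for the relativistic Schroedinger operator. -/

open MeasureTheory
open scoped ENNReal FourierTransform

noncomputable section

namespace Pool.Agent.P.MP_9f4f5e_mp.RL

/-- Euclidean space of dimension d -/
abbrev E (d : ℕ) : Type := EuclideanSpace ℝ (Fin d)

/-- square integrable functions -/
abbrev L2 (d : ℕ) : Type := Lp ℂ 2 (volume : Measure (E d))

/-- a square integrable function as a function -/
def fn {d : ℕ} (u : L2 d) : E d → ℂ := u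

/-- the L2 Fourier transform -/
def ft {d : ℕ} (u : L2 d) : L2 d := 𝓕 u

/-- the relativistic kinetic energy symbol with mass m -/
def sym {d : ℕ} (m : ℝ) (ξ : E d) : ℝ := √((2 * Real.pi * ‖ξ‖) ^ 2 + m ^ 2) - m

/-- potential energy in the positive part of V -/
def pot {d : ℕ} (V : E d → ℝ) (u : L2 d) : ℝ≥0∞ :=
  ∫⁻ x, ENNReal.ofReal (V x) * ‖fn u x‖ₑ ^ 2

/-- relativistic kinetic energy -/
def kin {d : ℕ} (m : ℝ) (u : L2 d) : ℝ≥0∞ :=
  ∫⁻ ξ, ENNReal.ofReal (sym m ξ) * ‖fn (ft u) ξ‖ₑ ^ 2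

/-- the phase space integral -/
def phase {d : ℕ} (m γ : ℝ) (V : E d → ℝ) : ℝ≥0∞ :=
  ∫⁻ x, ∫⁻ ξ : E d, ENNReal.ofReal (V x - sym m ξ) ^ γ

/-- the Lieb-Thirring inequality with exponent γ and C times the phase space integral -/
def LiebThirring (d : ℕ) (m γ C : ℝ) : Prop :=
  ∀ (N : ℕ) (u : Fin N → L2 d), Orthonormal ℂ u → ∀ V : E d → ℝ, Measurable V →
    ∑ j, (pot V (u j) - kin m (u j)) ^ γ ≤ ENNReal.ofReal C * phase m γ V

end Pool.Agent.P.MP_9f4f5e_mp.RL
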