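import Pool.Agent.P.MP_9f4f5e_mp.RL.Defs

set_option linter.unusedSectionVars false
set_option linter.unusedVariables false

open MeasureTheory Matrix
open scoped ENNReal ComplexOrder ComplexConjugate FourierTransform RealInnerProductSpace
open Pool.Agent.P.MP_9f4f5e_mp.LT (tp pp dg qf ec fej Spec)

noncomputable section

namespace Pool.Agent.P.MP_9f4f5e_mp.RL

variable {d : ℕ} {ι κ : Type} [Fintype ι] [DecidableEq ι] [Fintype κ]

theorem p1_nonneg {M : Matrix ι ι ℂ} (hM : M.IsHermitian) (i : ι) : 0 ≤ p1 M i :=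
  LT.pp_diag_nonneg hM i

theorem p2_nonneg {M : Matrix ι ι ℂ} (hM : M.IsHermitian) (i : ι) : 0 ≤ p2 M i := by
  obtain ⟨U, l, h⟩ := LT.exists_spec hM
  rw [p2, h.pp_eq, LT.a5_conj_mul h, LT.Spec.conj_apply, Complex.ofReal_re]
  exact Finset.sum_nonneg fun j _ => mul_nonneg (sq_nonneg _) (mul_self_nonneg _)

theorem sum_p1 {M : Matrix ι ι ℂ} (hM : M.IsHermitian) : ∑ i, p1 M i = tp 1 M := by
  rw [← LT.tp_pp hM, LT.tp_of_posSemidef (LT.pp_posSemidef hM), pow_one, Matrix.trace,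
    Complex.re_sum]
  rfl

theorem sum_p2 {M : Matrix ι ι ℂ} (hM : M.IsHermitian) : ∑ i, p2 M i = tp 2 M := by
  rw [← LT.tp_pp hM, LT.tp_of_posSemidef (LT.pp_posSemidef hM), sq, Matrix.trace,
    Complex.re_sum]
  rfl

theorem a1_cube (V E : Matrix ι ι ℂ) : ((V - E) ^ 3).trace =
    (V ^ 3).trace - 3 * (V * V * E).trace + 3 * (V * (E * E)).trace - (E * E * E).trace := by
  have c1 : (V * E * V).trace = (V * V * E).trace := by rw [trace_mul_cycle]
  have c2 : (E * V * V).trace = (V * V * E).trace := by rw [trace_mul_cycle, c1]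
  have c3 : (V * E * E).trace = (V * (E * E)).trace := by rw [Matrix.mul_assoc]
  have c4 : (E * E * V).trace = (V * (E * E)).trace := by rw [trace_mul_cycle, c3]
  have c5 : (E * V * E).trace = (V * (E * E)).trace := by rw [trace_mul_cycle, c4]
  rw [show (V - E) ^ 3 = V ^ 3 - (V * V * E + V * E * V + E * V * V) +
    (V * E * E + E * V * E + E * E * V) - E * E * E by noncomm_ring]
  simp only [trace_sub, trace_add, c1, c2, c3, c4, c5]
  ring

theorem a1_psd {V : Matrix ι ι ℂ} (hV : V.PosSemidef) (g : ι → ℝ) {e : ℝ}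
    (hg : ∀ i, |g i| ≤ e) :
    tp 3 (V - dg g) ≤ tp 3 V - 3 * ∑ i, ((V * V) i i).re * g i + 3 * ∑ i, (V i i).re * g i ^ 2
      + 2 * Fintype.card ι * e ^ 3 := by
  obtain ⟨U, l, h⟩ := LT.exists_spec (hV.isHermitian.sub (LT.dg_isHermitian g))
  have he : ∀ i : ι, 0 ≤ e := fun i => (abs_nonneg _).trans (hg i)
  have l0 : ∀ i, 0 ≤ l i - -e := (h.shift (-e)).nonneg_of_posSemidef (by
    rw [sub_sub, LT.dg_add, sub_eq_add_neg, ← zero_sub,
      show (0 : Matrix ι ι ℂ) = dg fun _ => 0 by simp [dg], LT.dg_sub]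
    refine hV.add (LT.dg_posSemidef fun i => ?_)
    linarith [(abs_le.1 (hg i)).2])
  have s : ∑ i, l i ^ 3 = tp 3 V - 3 * ∑ i, ((V * V) i i).re * g i
      + 3 * ∑ i, (V i i).re * g i ^ 2 - ∑ i, g i ^ 3 := by
    have h3 : ∀ z : ℂ, (3 * z).re = 3 * z.re := fun z => by simp
    rw [LT.tp_of_posSemidef hV, ← Complex.ofReal_re (∑ i, l i ^ 3), ← h.trace_conj, ← h.pow_eq,
      a1_cube, LT.dg_mul, LT.dg_mul, LT.trace_dg, Complex.sub_re, Complex.add_re, Complex.sub_re,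
      h3, h3, LT.a5_trace_dg, LT.a5_trace_dg, Complex.ofReal_re]
    simp only [pow_succ, pow_zero, one_mul]
  have b : ∑ i, max (l i) 0 ^ 3 ≤ ∑ i, (l i ^ 3 + e ^ 3) := Finset.sum_le_sum fun i _ => by
    obtain h | h := le_total (l i) 0
    · have := pow_le_pow_left₀ (neg_nonneg.2 h) (show -l i ≤ e by linarith [l0 i]) 3
      rw [max_eq_right h]
      nlinarith
    · rw [max_eq_left h]
      linarith [pow_nonneg (he i) 3]
  have c : ∑ i, -g i ^ 3 ≤ ∑ _i : ι, e ^ 3 := Finset.sum_le_sum fun i _ => by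
    have h1 := pow_le_pow_left₀ (abs_nonneg _) (hg i) 3
    have h2 := neg_le_abs (g i ^ 3)
    rw [abs_pow] at h2
    linarith
  rw [Finset.sum_add_distrib, s, Finset.sum_const, Finset.card_univ, nsmul_eq_mul] at b
  rw [Finset.sum_neg_distrib, Finset.sum_const, Finset.card_univ, nsmul_eq_mul] at c
  rw [h.tp_eq]
  linarith

theorem tp3_up {M : Matrix ι ι ℂ} (hM : M.IsHermitian) (g : ι → ℝ) {e : ℝ}
    (hg : ∀ i, |g i| ≤ e) :
    tp 3 (M - dg g) ≤ tp 3 M - 3 * ∑ i, p2 M i * g i + 3 * ∑ i, p1 M i * g i ^ 2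
      + 2 * Fintype.card ι * e ^ 3 := by
  have hP := LT.pp_posSemidef hM
  have h1 := a1_psd hP g hg
  rw [LT.tp_pp hM] at h1
  refine le_trans (LT.tp_mono (hM.sub (LT.dg_isHermitian g))
    (hP.isHermitian.sub (LT.dg_isHermitian g)) ?_ (by norm_num)) h1
  rw [sub_sub_sub_cancel_right]
  exact LT.pp_sub_posSemidef hM

end Pool.Agent.P.MP_9f4f5e_mp.RL
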