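import Pool.Agent.P.MP_9f4f5e_mp.LT.A3
import Pool.Agent.P.MP_9f4f5e_mp.LT.A5
import Pool.Agent.P.MP_9f4f5e_mp.RL.Stmt

set_option linter.unusedSectionVars false
set_option linter.unusedVariables false

open MeasureTheory Matrix
open scoped ENNReal ComplexOrder ComplexConjugate FourierTransform RealInnerProductSpace
open Pool.Agent.P.MP_9f4f5e_mp.LT (tp pp dg qf ec fej Spec)

noncomputable section

namespace Pool.Agent.P.MP_9f4f5e_mp.RL

variable {d : ℕ} {ι κ : Type} [Fintype ι] [DecidableEq ι] [Fintype κ]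

/-- diagonal of the positive part -/
def p1 (M : Matrix ι ι ℂ) (i : ι) : ℝ := (pp M i i).re

/-- diagonal of the square of the positive part -/
def p2 (M : Matrix ι ι ℂ) (i : ι) : ℝ := ((pp M * pp M) i i).re

/-- the matrix is at most K -/
def Bd (V : Matrix ι ι ℂ) (K : ℝ) : Prop := ((dg fun _ => K) - V).PosSemidef

/-- relativistic energy -/
def om (p : E d) (m : ℝ) : ℝ := √(‖p‖ ^ 2 + m ^ 2)

/-- unit vectors -/
def ee (k : Fin d) : E d := EuclideanSpace.single k 1

/-- increment of the energy in a momentum direction -/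
def gt (p : E d) (m ε : ℝ) (k : Fin d) : ℝ := om (p - ε • ee k) m - om p m

/-- increment of the energy in the mass -/
def gm (p : E d) (m ε : ℝ) : ℝ := om p (m + ε) - om p m

/-- the fibre matrix -/
def MM (V : Matrix ι ι ℂ) (a : ι → E d) (t : E d) (m z : ℝ) : Matrix ι ι ℂ :=
  V - dg fun i => om (a i - t) m - z

/-- its cubic Riesz mean -/
def TT (V : Matrix ι ι ℂ) (a : ι → E d) (t : E d) (m z : ℝ) : ℝ := tp 3 (MM V a t m z)

/-- the first order term -/
def QQ (V : Matrix ι ι ℂ) (a : ι → E d) (t : E d) (m z : ℝ) : ℝ :=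
  ∑ i, p2 (MM V a t m z) i / om (a i - t) m

/-- second differences in the momentum -/
def S2 (V : Matrix ι ι ℂ) (a : ι → E d) (t : E d) (m z ε : ℝ) : ℝ :=
  ∑ k, (TT V a (t + ε • ee k) m z + TT V a (t + (-ε) • ee k) m z - 2 * TT V a t m z)

/-- the discrete wave operator -/
def E1 (V : Matrix ι ι ℂ) (a : ι → E d) (t : E d) (m z ε : ℝ) : ℝ :=
  S2 V a t m z ε + (TT V a t (m + ε) z + TT V a t (m - ε) z - 2 * TT V a t m z)
    - (TT V a t m (z + ε) + TT V a t m (z - ε) - 2 * TT V a t m z)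

/-- the weight -/
def wt (d : ℕ) (m : ℝ) : ℝ := m ^ (-((d : ℝ) / 2))

/-- the potential constant -/
def cc (d : ℕ) : ℝ := (d : ℝ) / 2 * ((d : ℝ) / 2 + 1)

/-- the weighted discrete operator -/
def DD (V : Matrix ι ι ℂ) (a : ι → E d) (t : E d) (m z ε : ℝ) : ℝ :=
  wt d (m + ε) * TT V a t (m + ε) z + wt d (m - ε) * TT V a t (m - ε) z
    - wt d m * (TT V a t m (z + ε) + TT V a t m (z - ε)) + wt d m * S2 V a t m z ε
    - cc d * ε ^ 2 / m ^ 2 * (wt d m * TT V a t m z)

/-- the integral over the momentum -/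
def UU (V : Matrix ι ι ℂ) (a : ι → E d) (m z : ℝ) : ℝ := ∫ t, TT V a t m z

/-- the weighted excess over the classical value -/
def WW (V : Matrix ι ι ℂ) (a : ι → E d) (m z : ℝ) : ℝ :=
  wt d m * (UU V a m z - UU V (fun _ => (0 : E d)) m z)

/-- integral over a momentum cell -/
def uu (Q : Set (E d)) (f : E d → ℂ) (p : E d) : ℂ := ∫ s in Q, f (p + s)

/-- Fourier transform of the indicator of the cell -/
def ww (Q : Set (E d)) (z : E d) : ℂ := ∫ s in Q, ec (-⟪s, z⟫)

/-- the momentum cube of side h -/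
def cube (d : ℕ) (h : ℝ) : Set (E d) := {s | ∀ k, s k ∈ Set.Ico 0 h}

/-- the position cell of side 1/h -/
def cell (d : ℕ) (h : ℝ) : Set (E d) := {x | ∀ k, |x k| < 1 / (2 * h)}

/-- lattice points in a cube -/
def lat (h : ℝ) {n : ℕ} (i : Fin d → Fin n) : E d := WithLp.toLp 2 fun k => h * ((i k : ℕ) : ℝ)

/-- all lattice points -/
def zl (h : ℝ) (i : Fin d → ℤ) : E d := WithLp.toLp 2 fun k => h * (i k : ℝ)

/-- product Fejer kernel -/
def ker (n : ℕ) (h : ℝ) (y : E d) : ℝ := h ^ d * ∏ k, fej n (h * y k)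

/-- kinetic energy as a real number -/
def tk (m : ℝ) (u : L2 d) : ℝ := ∫ ξ, sym m ξ * ‖fn (ft u) ξ‖ ^ 2

/-- the cubic phase space integral, momentum outside -/
def ph3 (m : ℝ) (V : E d → ℝ) : ℝ≥0∞ := ∫⁻ ξ : E d, ∫⁻ x, ENNReal.ofReal (V x - sym m ξ) ^ 3

end Pool.Agent.P.MP_9f4f5e_mp.RL
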