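import Pool.Agent.P.MP_9f4f5e_mp.LT.A4
import Pool.Agent.P.MP_9f4f5e_mp.RL.Defs

set_option linter.unusedSectionVars false
set_option linter.unusedVariables false

open MeasureTheory Matrix
open scoped ENNReal ComplexOrder ComplexConjugate FourierTransform RealInnerProductSpace
open Pool.Agent.P.MP_9f4f5e_mp.LT (tp pp dg qf ec fej Spec)

noncomputable section

namespace Pool.Agent.P.MP_9f4f5e_mp.RL

variable {d : ℕ} {ι κ : Type} [Fintype ι] [DecidableEq ι] [Fintype κ]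

theorem a2x_cube {c : ℝ} (hc : 0 ≤ c) (l : ℝ) : 3 * c ^ 2 * l - 2 * c ^ 3 ≤ max l 0 ^ 3 := by
  have h0 := le_max_right l 0
  have h1 := mul_le_mul_of_nonneg_left (le_max_left l 0) (sq_nonneg c)
  have h : max l 0 ^ 3 - (3 * c ^ 2 * max l 0 - 2 * c ^ 3) =
      (max l 0 - c) ^ 2 * (max l 0 + 2 * c) := by ring
  have h2 : 0 ≤ (max l 0 - c) ^ 2 * (max l 0 + 2 * c) := by positivity
  linarith

theorem peierls3 {N : Matrix ι ι ℂ} (hN : N.IsHermitian) (v : κ → ι → ℂ) {h : ℝ}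
    (hv : ∀ c : ι → ℂ, ∑ k, ‖∑ i, conj (c i) * v k i‖ ^ 2 ≤ h * ∑ i, ‖c i‖ ^ 2)
    (c : κ → ℝ) (hc : ∀ k, 0 ≤ c k) :
    ∑ k, (3 * c k ^ 2 * qf N (v k) - 2 * c k ^ 3 * ∑ i, ‖v k i‖ ^ 2) ≤ h * tp 3 N := by
  obtain ⟨U, l, hs⟩ := LT.exists_spec hN
  have hw : ∀ j, ∑ k, ‖(Uᴴ *ᵥ v k) j‖ ^ 2 ≤ h := by
    intro j
    have h1 := hv fun i => U i j
    rw [hs.col_sum, mul_one] at h1
    refine le_of_eq_of_le (Finset.sum_congr rfl fun k _ => ?_) h1
    simp only [Matrix.mulVec, dotProduct, Matrix.conjTranspose_apply, Complex.star_def]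
  have hq : ∀ k, qf N (v k) = ∑ j, l j * ‖(Uᴴ *ᵥ v k) j‖ ^ 2 := fun k => by
    rw [← LT.Spec.qf_conj, ← hs.eq]
  calc _ ≤ ∑ k, ∑ j, max (l j) 0 ^ 3 * ‖(Uᴴ *ᵥ v k) j‖ ^ 2 := by
        refine Finset.sum_le_sum fun k _ => ?_
        rw [hq, ← hs.parseval, Finset.mul_sum, Finset.mul_sum, ← Finset.sum_sub_distrib]
        refine Finset.sum_le_sum fun j _ => ?_
        have h1 := mul_le_mul_of_nonneg_right (a2x_cube (hc k) (l j)) (sq_nonneg ‖(Uᴴ *ᵥ v k) j‖)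
        linarith
    _ = ∑ j, max (l j) 0 ^ 3 * ∑ k, ‖(Uᴴ *ᵥ v k) j‖ ^ 2 := by
        rw [Finset.sum_comm]
        simp only [Finset.mul_sum]
    _ ≤ ∑ j, max (l j) 0 ^ 3 * h :=
        Finset.sum_le_sum fun j _ =>
          mul_le_mul_of_nonneg_left (hw j) (pow_nonneg (le_max_right _ _) _)
    _ = _ := by rw [hs.tp_eq, ← Finset.sum_mul, mul_comm]

theorem tp3_low {M : Matrix ι ι ℂ} (hM : M.IsHermitian) (g : ι → ℝ) :
    tp 3 M - 3 * ∑ i, p2 M i * g i ≤ tp 3 (M - dg g) := by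
  obtain ⟨U, l, hs⟩ := LT.exists_spec hM
  have h1 := peierls3 (hM.sub (LT.dg_isHermitian g)) (fun k i => U i k) (h := 1) (fun c => by
    rw [one_mul, ← hs.parseval c]
    refine le_of_eq (Finset.sum_congr rfl fun k _ => ?_)
    rw [← Complex.norm_conj]
    simp only [Matrix.mulVec, dotProduct, Matrix.conjTranspose_apply, Complex.star_def, map_sum,
      map_mul, Complex.conj_conj, mul_comm]) (fun k => max (l k) 0) fun k => le_max_right _ _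
  rw [one_mul] at h1
  refine le_of_eq_of_le ?_ h1
  have hq : ∀ k, qf (M - dg g) (fun i => U i k) = l k - ∑ i, g i * ‖U i k‖ ^ 2 := fun k => by
    rw [LT.qf_sub, LT.qf_dg, LT.a4_qf_col, hs.diag, LT.dg_apply, if_pos rfl, Complex.ofReal_re]
  have hp : ∀ i, p2 M i = ∑ k, ‖U i k‖ ^ 2 * (max (l k) 0 * max (l k) 0) := fun i => by
    rw [p2, hs.pp_eq, LT.a5_conj_mul hs, LT.Spec.conj_apply, Complex.ofReal_re]
  simp only [hq, hp, hs.col_sum, hs.tp_eq, Finset.sum_mul]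
  rw [Finset.sum_comm, Finset.mul_sum, ← Finset.sum_sub_distrib]
  refine Finset.sum_congr rfl fun k _ => ?_
  have h2 : ∑ i, ‖U i k‖ ^ 2 * (max (l k) 0 * max (l k) 0) * g i =
      max (l k) 0 ^ 2 * ∑ i, g i * ‖U i k‖ ^ 2 := by
    rw [Finset.mul_sum]
    exact Finset.sum_congr rfl fun i _ => by ring
  rw [h2]
  rcases le_total (l k) 0 with h | h
  · rw [max_eq_right h]
    ring
  · rw [max_eq_left h]
    ring

theorem a2x_sc (x s : ℝ) : max x 0 ^ 3 - 3 * s * max x 0 ^ 2 + 3 * s ^ 2 * max x 0 ^ 1 - |s| ^ 3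
    ≤ max (x - s) 0 ^ 3 := by
  have h0 : 0 ≤ max (x - s) 0 ^ 3 := pow_nonneg (le_max_right _ _) 3
  have h1 : 0 ≤ |s| ^ 3 := pow_nonneg (abs_nonneg s) 3
  rcases le_total x 0 with h | h
  · rw [max_eq_right h]
    nlinarith
  · rw [max_eq_left h]
    have h2 : (x - s) ^ 3 ≤ max (x - s) 0 ^ 3 :=
      (Odd.pow_le_pow (by decide)).2 (le_max_left _ _)
    have h3 : s ^ 3 ≤ |s| ^ 3 := (Odd.pow_le_pow (by decide)).2 (le_abs_self s)
    nlinarith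

theorem tp3_sc {M : Matrix ι ι ℂ} (hM : M.IsHermitian) (s : ℝ) :
    tp 3 M - 3 * s * tp 2 M + 3 * s ^ 2 * tp 1 M - Fintype.card ι * |s| ^ 3
      ≤ tp 3 (M - dg fun _ => s) := by
  obtain ⟨U, l, hs⟩ := LT.exists_spec hM
  rw [(hs.shift s).tp_eq, hs.tp_eq, hs.tp_eq, hs.tp_eq]
  refine le_of_eq_of_le ?_ (Finset.sum_le_sum fun i _ => a2x_sc (l i) s)
  rw [Finset.sum_sub_distrib, Finset.sum_add_distrib, Finset.sum_sub_distrib, ← Finset.mul_sum,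
    ← Finset.mul_sum, Finset.sum_const, Finset.card_univ, nsmul_eq_mul]

theorem tp_le_of_bd {M : Matrix ι ι ℂ} (hM : M.IsHermitian) {K : ℝ} (h : Bd M K) (hK : 0 ≤ K)
    {k : ℕ} (hk : k ≠ 0) : tp k M ≤ Fintype.card ι * K ^ k := by
  have hs : Spec (dg fun _ : ι => K) 1 fun _ => K := ⟨by simp, by simp, by simp⟩
  refine (LT.tp_mono hM (LT.dg_isHermitian _) h hk).trans (le_of_eq ?_)
  rw [hs.tp_eq, max_eq_left hK, Finset.sum_const, Finset.card_univ, nsmul_eq_mul]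

theorem Bd.mono {M : Matrix ι ι ℂ} {K L : ℝ} (h : Bd M K) (hKL : K ≤ L) : Bd M L := by
  have h1 := Matrix.PosSemidef.add h (LT.dg_posSemidef (d := fun _ : ι => L - K)
    fun _ => sub_nonneg.2 hKL)
  have h2 : (dg fun _ : ι => K) - M + (dg fun _ : ι => L - K) = (dg fun _ : ι => L) - M := by
    rw [← LT.dg_sub]
    abel
  rwa [h2] at h1

theorem tp_smul {M : Matrix ι ι ℂ} (hM : M.IsHermitian) {c : ℝ} (hc : 0 < c) (k : ℕ) :
    tp k ((c : ℂ) • M) = c ^ k * tp k M := by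
  obtain ⟨U, l, hs⟩ := LT.exists_spec hM
  have h1 : (dg fun i => c * l i) = (c : ℂ) • dg l := by
    ext i j
    rw [Matrix.smul_apply, LT.dg_apply, LT.dg_apply]
    split_ifs <;> simp
  have h2 : Spec ((c : ℂ) • M) U fun i => c * l i :=
    ⟨hs.mul_ct, hs.ct_mul, by rw [h1, Matrix.mul_smul, Matrix.smul_mul, ← hs.eq]⟩
  rw [h2.tp_eq, hs.tp_eq, Finset.mul_sum]
  refine Finset.sum_congr rfl fun i _ => ?_
  rw [← mul_pow, mul_max_of_nonneg _ _ hc.le, mul_zero]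

end Pool.Agent.P.MP_9f4f5e_mp.RL
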