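import Pool.Agent.P.MP_9f4f5e_mp.LT.G1
import Pool.Agent.P.MP_9f4f5e_mp.RL.Defs

set_option linter.unusedSectionVars false
set_option linter.unusedVariables false

open MeasureTheory Matrix
open scoped ENNReal ComplexOrder ComplexConjugate FourierTransform RealInnerProductSpace
open Pool.Agent.P.MP_9f4f5e_mp.LT (tp pp dg qf ec fej Spec)

noncomputable section

namespace Pool.Agent.P.MP_9f4f5e_mp.RL

variable {d : ℕ} {ι κ : Type} [Fintype ι] [DecidableEq ι] [Fintype κ]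

theorem a3_pow (v : ℝ) {L : ℝ} (hL : 0 ≤ L) : 3 * L ^ 2 * v - 2 * L ^ 3 ≤ max v 0 ^ 3 := by
  have h1 : max v 0 ^ 3 - (3 * L ^ 2 * max v 0 - 2 * L ^ 3) =
      (max v 0 - L) ^ 2 * (max v 0 + 2 * L) := by ring
  have h2 : 0 ≤ (max v 0 - L) ^ 2 * (max v 0 + 2 * L) :=
    mul_nonneg (sq_nonneg _) (add_nonneg (le_max_right _ _) (by linarith))
  have h3 := mul_le_mul_of_nonneg_left (le_max_left v 0) (sq_nonneg L)
  linarith

theorem a3_max (v : ℝ) : max v 0 ^ 2 * v = max v 0 ^ 3 := by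
  rcases le_total v 0 with h | h
  · rw [max_eq_right h]; ring
  · rw [max_eq_left h]; ring

theorem berezin3 {X : Type} [MeasurableSpace X] (μ : Measure X) [IsFiniteMeasure μ]
    {e : X → ι → ℂ} (he : ∀ i, Measurable fun x => e x i) (he1 : ∀ x i, ‖e x i‖ ≤ 1)
    (hfr : ∀ c : ι → ℂ, ∫ x, ‖∑ i, conj (c i) * e x i‖ ^ 2 ∂μ ≤ ∑ i, ‖c i‖ ^ 2)
    {V : X → ℝ} (hV : Measurable V) {M : ℝ} (h0 : ∀ x, 0 ≤ V x) (hM : ∀ x, V x ≤ M) :
    (Matrix.of fun i j => ∫ x, (V x : ℂ) * (e x i * conj (e x j)) ∂μ).IsHermitian ∧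
      ∀ k : ℝ, 0 ≤ k →
        tp 3 ((Matrix.of fun i j => ∫ x, (V x : ℂ) * (e x i * conj (e x j)) ∂μ) - dg fun _ => k)
          ≤ Fintype.card ι * ∫ x, max (V x - k) 0 ^ 3 ∂μ := by
  have hH : (Matrix.of fun i j => ∫ x, (V x : ℂ) * (e x i * conj (e x j)) ∂μ).IsHermitian := by
    ext i j
    rw [Matrix.conjTranspose_apply, Matrix.of_apply, Matrix.of_apply, Complex.star_def,
      ← integral_conj]
    congr 1
    funext x
    simp only [map_mul, Complex.conj_conj, Complex.conj_ofReal]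
    ring
  refine ⟨hH, fun k hk0 => ?_⟩
  obtain ⟨U, l, hs⟩ := LT.exists_spec hH
  set w : ι → X → ℝ := fun j x => ‖∑ i, conj (U i j) * e x i‖ ^ 2 with hw
  have w0 : ∀ j x, 0 ≤ w j x := fun j x => sq_nonneg _
  have wm : ∀ j, Measurable (w j) := fun j =>
    (Finset.measurable_sum _ fun i _ => (he i).const_mul _).norm.pow_const 2
  have wsum : ∀ x, ∑ j, w j x ≤ Fintype.card ι := by
    intro x
    have h1 := hs.parseval (e x)
    have h2 : ∑ j, w j x = ∑ i, ‖(Uᴴ *ᵥ e x) i‖ ^ 2 := by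
      refine Finset.sum_congr rfl fun j _ => ?_
      simp only [hw, Matrix.mulVec, dotProduct, Matrix.conjTranspose_apply, Complex.star_def]
    rw [h2, h1]
    calc ∑ i, ‖e x i‖ ^ 2 ≤ ∑ _i : ι, (1 : ℝ) :=
          Finset.sum_le_sum fun i _ => pow_le_one₀ (norm_nonneg _) (he1 x i)
      _ = Fintype.card ι := by simp
  have wle : ∀ j x, w j x ≤ Fintype.card ι := fun j x =>
    (Finset.single_le_sum (f := fun j => w j x) (fun j _ => w0 j x) (Finset.mem_univ j)).trans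
      (wsum x)
  have hl : ∀ j, l j = ∫ x, V x * w j x ∂μ := by
    intro j
    have h1 := LT.g1_qf μ he he1 hV h0 hM (fun i => U i j)
    have h2 : (fun i => U i j) = U *ᵥ Pi.single j 1 := by
      funext i
      simp
    rw [← h1, h2, hs.eq, LT.Spec.qf_conj, Matrix.mulVec_mulVec, hs.ct_mul, Matrix.one_mulVec,
      Finset.sum_eq_single j]
    · simp
    · intro i _ hi
      simp [hi]
    · simp
  have hw1 : ∀ j, ∫ x, w j x ∂μ ≤ 1 := fun j => (hfr fun i => U i j).trans (hs.col_sum j).le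
  have iw : ∀ j, Integrable (w j) μ := fun j => LT.g1_int μ (wm j) _ (w0 j) (wle j)
  have iVw : ∀ j, Integrable (fun x => V x * w j x) μ := fun j =>
    LT.g1_int μ (hV.mul (wm j)) (M * Fintype.card ι) (fun x => mul_nonneg (h0 x) (w0 j x))
      fun x => mul_le_mul (hM x) (wle j x) (w0 j x) ((h0 x).trans (hM x))
  have pm : Measurable fun x => max (V x - k) 0 ^ 3 :=
    ((hV.sub_const k).max measurable_const).pow_const 3
  have p0 : ∀ x, 0 ≤ max (V x - k) 0 ^ 3 := fun x => pow_nonneg (le_max_right _ _) 3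
  have pM : ∀ x, max (V x - k) 0 ^ 3 ≤ M ^ 3 := fun x =>
    pow_le_pow_left₀ (le_max_right _ _)
      (max_le (by linarith [hM x]) ((h0 x).trans (hM x))) 3
  have ip : Integrable (fun x => max (V x - k) 0 ^ 3) μ := LT.g1_int μ pm (M ^ 3) p0 pM
  have ipw : ∀ j, Integrable (fun x => max (V x - k) 0 ^ 3 * w j x) μ := fun j =>
    LT.g1_int μ (pm.mul (wm j)) (M ^ 3 * Fintype.card ι) (fun x => mul_nonneg (p0 x) (w0 j x))
      fun x => mul_le_mul (pM x) (wle j x) (w0 j x) ((p0 x).trans (pM x))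
  have hk : ∀ j, max (l j - k) 0 ^ 3 ≤ ∫ x, max (V x - k) 0 ^ 3 * w j x ∂μ := by
    intro j
    have hL : 0 ≤ max (l j - k) 0 := le_max_right _ _
    have h4 := a3_max (l j - k)
    generalize max (l j - k) 0 = L at hL h4 ⊢
    have h1 : ∫ x, (3 * L ^ 2 * (V x * w j x) - (3 * L ^ 2 * k + 2 * L ^ 3) * w j x) ∂μ
        ≤ ∫ x, max (V x - k) 0 ^ 3 * w j x ∂μ := by
      refine integral_mono (((iVw j).const_mul _).sub ((iw j).const_mul _)) (ipw j) fun x => ?_
      have h2 := mul_le_mul_of_nonneg_right (a3_pow (V x - k) hL) (w0 j x)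
      simp only
      linarith
    rw [integral_sub ((iVw j).const_mul _) ((iw j).const_mul _), integral_const_mul,
      integral_const_mul, ← hl j] at h1
    have h3 := mul_le_mul_of_nonneg_left (hw1 j)
      (by positivity : 0 ≤ 3 * L ^ 2 * k + 2 * L ^ 3)
    linarith
  rw [(hs.shift k).tp_eq]
  calc ∑ j, max (l j - k) 0 ^ 3 ≤ ∑ j, ∫ x, max (V x - k) 0 ^ 3 * w j x ∂μ :=
        Finset.sum_le_sum fun j _ => hk j
    _ = ∫ x, ∑ j, max (V x - k) 0 ^ 3 * w j x ∂μ :=
        (integral_finsetSum _ fun j _ => ipw j).symm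
    _ ≤ ∫ x, Fintype.card ι * max (V x - k) 0 ^ 3 ∂μ := by
        refine integral_mono (integrable_finsetSum _ fun j _ => ipw j) (ip.const_mul _)
          fun x => ?_
        simp only
        rw [← Finset.mul_sum, mul_comm]
        exact mul_le_mul_of_nonneg_right (wsum x) (p0 x)
    _ = _ := integral_const_mul _ _

end Pool.Agent.P.MP_9f4f5e_mp.RL
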