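import Pool.Agent.P.MP_9f4f5e_mp.RL.Defs

set_option linter.unusedSectionVars false
set_option linter.unusedVariables false

open MeasureTheory Matrix
open scoped ENNReal ComplexOrder ComplexConjugate FourierTransform RealInnerProductSpace
open Pool.Agent.P.MP_9f4f5e_mp.LT (tp pp dg qf ec fej Spec)

noncomputable section

namespace Pool.Agent.P.MP_9f4f5e_mp.RL

variable {d : ℕ} {ι κ : Type} [Fintype ι] [DecidableEq ι] [Fintype κ]

theorem g1_le (x y m : ℝ) : √(x ^ 2 + m ^ 2) ≤ √(y ^ 2 + m ^ 2) + |x - y| := by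
  have h1 : |y| ≤ √(y ^ 2 + m ^ 2) := Real.abs_le_sqrt (by nlinarith [sq_nonneg m])
  have h2 : √(y ^ 2 + m ^ 2) ^ 2 = y ^ 2 + m ^ 2 := Real.sq_sqrt (by positivity)
  have h3 : y * (x - y) ≤ √(y ^ 2 + m ^ 2) * |x - y| :=
    (le_abs_self _).trans ((abs_mul _ _).le.trans
      (mul_le_mul_of_nonneg_right h1 (abs_nonneg _)))
  apply Real.sqrt_le_iff.2
  refine ⟨by positivity, ?_⟩
  nlinarith [sq_abs (x - y)]

theorem g1_lip (x y m : ℝ) : |√(x ^ 2 + m ^ 2) - √(y ^ 2 + m ^ 2)| ≤ |x - y| := by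
  have h1 := g1_le x y m
  have h2 := g1_le y x m
  rw [abs_sub_comm y x] at h2
  exact abs_le.2 ⟨by linarith, by linarith⟩

theorem le_om (p : E d) (m : ℝ) : m ≤ om p m := by
  exact Real.le_sqrt_of_sq_le (by nlinarith [sq_nonneg ‖p‖])

theorem norm_le_om (p : E d) (m : ℝ) : ‖p‖ ≤ om p m := by
  exact Real.le_sqrt_of_sq_le (by nlinarith [sq_nonneg m])

theorem om_sq (p : E d) (m : ℝ) : om p m ^ 2 = ‖p‖ ^ 2 + m ^ 2 := by
  exact Real.sq_sqrt (by positivity)

theorem continuous_om : Continuous fun q : E d × ℝ => om q.1 q.2 := by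
  unfold om
  fun_prop

theorem om_neg (p : E d) (m : ℝ) : om (-p) m = om p m := by
  simp only [om, norm_neg]

theorem om_zero (p : E d) : om p 0 = ‖p‖ := by
  simp [om]

theorem om_sub_le (p : E d) {m : ℝ} (hm : 0 ≤ m) : om p m - m ≤ ‖p‖ := by
  have h : om p m ≤ ‖p‖ + m := by
    apply Real.sqrt_le_iff.2
    refine ⟨by positivity, ?_⟩
    nlinarith [mul_nonneg (norm_nonneg p) hm]
  linarith

theorem om_lip (p q : E d) (m : ℝ) : |om (p + q) m - om p m| ≤ ‖q‖ := by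
  refine (g1_lip ‖p + q‖ ‖p‖ m).trans ?_
  simpa using abs_norm_sub_norm_le (p + q) p

theorem om_lip_m (p : E d) (m e : ℝ) : |om p (m + e) - om p m| ≤ |e| := by
  have h := g1_lip (m + e) m ‖p‖
  rw [add_sub_cancel_left, add_comm ((m + e) ^ 2), add_comm (m ^ 2)] at h
  exact h

theorem om_close (a t : E d) {m : ℝ} (hm : 0 < m) :
    |om (a - t) m - om (0 - t) m| ≤ ‖a‖ * (‖a‖ + 2 * ‖t‖) / (2 * m) := by
  have h1 := le_om (a - t) m
  have h2 := le_om (0 - t) m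
  have h3 := om_sq (a - t) m
  have h4 := om_sq (0 - t) m
  rw [zero_sub, norm_neg] at h4
  rw [zero_sub] at h2 ⊢
  have h5 : |‖a - t‖ - ‖t‖| ≤ ‖a‖ := by
    have := abs_norm_sub_norm_le (a - t) (-t)
    simpa using this
  have h6 : ‖a - t‖ ≤ ‖a‖ + ‖t‖ := norm_sub_le a t
  have n1 := norm_nonneg (a - t)
  have n2 := norm_nonneg t
  generalize om (a - t) m = x at *
  generalize om (-t) m = y at *
  generalize ‖a - t‖ = u at *
  rw [le_div_iff₀ (by positivity)]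
  have e : |x - y| * (x + y) = |u - ‖t‖| * (u + ‖t‖) := by
    rw [← abs_of_nonneg (show 0 ≤ x + y by linarith), ← abs_mul,
      ← abs_of_nonneg (show 0 ≤ u + ‖t‖ by linarith), ← abs_mul]
    congr 1
    linear_combination h3 - h4
  calc |x - y| * (2 * m) ≤ |x - y| * (x + y) :=
        mul_le_mul_of_nonneg_left (by linarith) (abs_nonneg _)
    _ = |u - ‖t‖| * (u + ‖t‖) := e
    _ ≤ ‖a‖ * (‖a‖ + 2 * ‖t‖) :=
        mul_le_mul h5 (by linarith) (by linarith) (norm_nonneg _)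

theorem sym_eq (m : ℝ) (ξ : E d) :
    sym m ξ = 2 * Real.pi * (om ξ (m / (2 * Real.pi)) - m / (2 * Real.pi)) := by
  have hp : 0 < 2 * Real.pi := by positivity
  have e : (2 * Real.pi * ‖ξ‖) ^ 2 + m ^ 2 =
      (2 * Real.pi) ^ 2 * (‖ξ‖ ^ 2 + (m / (2 * Real.pi)) ^ 2) := by
    field_simp
  unfold sym om
  rw [e, Real.sqrt_mul (sq_nonneg _), Real.sqrt_sq hp.le, mul_sub, mul_div_cancel₀ _ hp.ne']

theorem sym_nonneg (m : ℝ) (ξ : E d) : 0 ≤ sym m ξ := by
  rw [sym_eq]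
  exact mul_nonneg (by positivity) (sub_nonneg.2 (le_om _ _))

theorem continuous_sym (m : ℝ) : Continuous fun ξ : E d => sym m ξ := by
  unfold sym
  fun_prop

theorem sym_neg (m : ℝ) (ξ : E d) : sym m (-ξ) = sym m ξ := by
  simp only [sym, norm_neg]

theorem sym_lip (m : ℝ) (p s : E d) : sym m p ≤ sym m (p + s) + 2 * Real.pi * ‖s‖ := by
  rw [sym_eq, sym_eq, ← mul_add]
  have h := (abs_le.1 (om_lip p s (m / (2 * Real.pi)))).1
  exact mul_le_mul_of_nonneg_left (by linarith) (by positivity)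

theorem sym_ge (m : ℝ) (p : E d) : 2 * Real.pi * ‖p‖ - m ≤ sym m p := by
  have h : 2 * Real.pi * ‖p‖ ≤ √((2 * Real.pi * ‖p‖) ^ 2 + m ^ 2) :=
    Real.le_sqrt_of_sq_le (by nlinarith [sq_nonneg m])
  unfold sym
  linarith

theorem sym_le {m : ℝ} (hm : 0 ≤ m) (p : E d) : sym m p ≤ 2 * Real.pi * ‖p‖ := by
  rw [sym_eq]
  exact mul_le_mul_of_nonneg_left (om_sub_le p (by positivity)) (by positivity)

theorem MM_herm {V : Matrix ι ι ℂ} (hV : V.IsHermitian) (a : ι → E d) (t : E d) (m z : ℝ) :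
    (MM V a t m z).IsHermitian := by
  exact hV.sub (LT.dg_isHermitian _)

theorem MM_t (V : Matrix ι ι ℂ) (a : ι → E d) (t : E d) (m z ε : ℝ) (k : Fin d) :
    MM V a (t + ε • ee k) m z = MM V a t m z - dg fun i => gt (a i - t) m ε k := by
  unfold MM gt
  rw [sub_sub V, LT.dg_add]
  congr 2
  funext i
  rw [sub_add_eq_sub_sub]
  ring

theorem MM_m (V : Matrix ι ι ℂ) (a : ι → E d) (t : E d) (m z ε : ℝ) :
    MM V a t (m + ε) z = MM V a t m z - dg fun i => gm (a i - t) m ε := by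
  unfold MM gm
  rw [sub_sub V, LT.dg_add]
  congr 2
  funext i
  ring

theorem MM_z (V : Matrix ι ι ℂ) (a : ι → E d) (t : E d) (m z ε : ℝ) :
    MM V a t m (z + ε) = MM V a t m z - dg fun _ => -ε := by
  unfold MM
  rw [sub_sub V, LT.dg_add]
  congr 2
  funext i
  ring

theorem MM_bd {V : Matrix ι ι ℂ} {K : ℝ} (hK : Bd V K) (a : ι → E d) (t : E d) (m z : ℝ) :
    Bd (MM V a t m z) (K + z - m) := by
  have e : (dg fun _ => K + z - m) - MM V a t m z =
      ((dg fun _ => K) - V) + dg fun i => om (a i - t) m - m := by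
    unfold MM
    rw [sub_sub_eq_add_sub, sub_add_eq_add_sub, LT.dg_add, LT.dg_add]
    congr 2
    funext i
    ring
  unfold Bd
  rw [e]
  exact Matrix.PosSemidef.add hK (LT.dg_posSemidef fun i => sub_nonneg.2 (le_om _ _))

end Pool.Agent.P.MP_9f4f5e_mp.RL
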