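import Pool.Agent.P.MP_9f4f5e_mp.RL.G1

set_option linter.unusedSectionVars false
set_option linter.unusedVariables false

open MeasureTheory Matrix
open scoped ENNReal ComplexOrder ComplexConjugate FourierTransform RealInnerProductSpace
open Pool.Agent.P.MP_9f4f5e_mp.LT (tp pp dg qf ec fej Spec)

noncomputable section

namespace Pool.Agent.P.MP_9f4f5e_mp.RL

variable {d : ℕ} {ι κ : Type} [Fintype ι] [DecidableEq ι] [Fintype κ]

theorem g2_lin {O x g e : ℝ} (hO : 0 < O) (h : g ^ 2 + 2 * O * g = 2 * e * x + e ^ 2) :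
    g - e * x / O = (e ^ 2 - g ^ 2) / (2 * O) := by
  field_simp
  linarith

theorem g2_one {O x g e : ℝ} (hO : 0 < O) (hg : |g| ≤ |e|)
    (h : g ^ 2 + 2 * O * g = 2 * e * x + e ^ 2) :
    0 ≤ g - e * x / O ∧ g - e * x / O ≤ e ^ 2 / (2 * O) := by
  rw [g2_lin hO h]
  have h1 : g ^ 2 ≤ e ^ 2 := sq_le_sq.mpr hg
  refine ⟨div_nonneg (by linarith) (by linarith), ?_⟩
  exact div_le_div_of_nonneg_right (by nlinarith [sq_nonneg g]) (by linarith)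

theorem g2_two {O x g e : ℝ} (hO : 0 < O) (hx : |x| ≤ O) (hg : |g| ≤ |e|)
    (h : g ^ 2 + 2 * O * g = 2 * e * x + e ^ 2) :
    |g ^ 2 - e ^ 2 * x ^ 2 / O ^ 2| ≤ |e| ^ 3 / O := by
  obtain ⟨h0, h1⟩ := g2_one hO hg h
  have e1 : g ^ 2 - e ^ 2 * x ^ 2 / O ^ 2 = (g - e * x / O) * (g + e * x / O) := by
    field_simp
    ring
  have e2 : |e * x / O| ≤ |e| := by
    rw [abs_div, abs_mul, abs_of_pos hO, div_le_iff₀ hO]
    exact mul_le_mul_of_nonneg_left hx (abs_nonneg e)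
  have e3 : |g + e * x / O| ≤ 2 * |e| := (abs_add_le _ _).trans (by linarith)
  rw [e1, abs_mul, abs_of_nonneg h0]
  calc (g - e * x / O) * |g + e * x / O| ≤ e ^ 2 / (2 * O) * (2 * |e|) :=
        mul_le_mul h1 e3 (abs_nonneg _) (by positivity)
    _ = |e| ^ 3 / O := by
        rw [← sq_abs e]
        field_simp

theorem g2_norm_ee (k : Fin d) : ‖(ee k : E d)‖ = 1 := by
  simp [ee]

theorem gt_abs (p : E d) (m ε : ℝ) (k : Fin d) : |gt p m ε k| ≤ |ε| := by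
  have h := om_lip p (-(ε • ee k)) m
  rw [norm_neg, norm_smul, g2_norm_ee, mul_one, Real.norm_eq_abs, ← sub_eq_add_neg] at h
  exact h

theorem gm_abs (p : E d) (m ε : ℝ) : |gm p m ε| ≤ |ε| := om_lip_m p m ε

theorem g2_gt_eq (p : E d) (m ε : ℝ) (k : Fin d) :
    gt p m ε k ^ 2 + 2 * om p m * gt p m ε k = 2 * ε * (-p k) + ε ^ 2 := by
  have h1 := om_sq (p - ε • ee k) m
  have h2 := om_sq p m
  have h3 : ‖p - ε • ee k‖ ^ 2 = ‖p‖ ^ 2 - 2 * (ε * p k) + ε ^ 2 := by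
    rw [norm_sub_sq_real, norm_smul, g2_norm_ee, mul_one, Real.norm_eq_abs, sq_abs,
      inner_smul_right]
    simp [ee, EuclideanSpace.inner_single_right]
  unfold gt
  nlinarith

theorem g2_gm_eq (p : E d) (m ε : ℝ) :
    gm p m ε ^ 2 + 2 * om p m * gm p m ε = 2 * ε * m + ε ^ 2 := by
  have h1 := om_sq p (m + ε)
  have h2 := om_sq p m
  unfold gm
  nlinarith

theorem g2_coord (p : E d) (m : ℝ) (k : Fin d) : |(-p k)| ≤ om p m := by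
  rw [abs_neg]
  exact (by simpa using PiLp.norm_apply_le p k : |p k| ≤ ‖p‖).trans (norm_le_om p m)

theorem g2_sum (p : E d) (m : ℝ) : ∑ k, (-p k) ^ 2 + m ^ 2 = om p m ^ 2 := by
  rw [om_sq, EuclideanSpace.real_norm_sq_eq]
  simp

theorem g2_pair {O x g g' e m : ℝ} (hm : 0 < m) (hO : m ≤ O) (he : 0 ≤ e) (hx : |x| ≤ O)
    (hg : |g| ≤ |e|) (hg' : |g'| ≤ |(-e)|) (h : g ^ 2 + 2 * O * g = 2 * e * x + e ^ 2)
    (h' : g' ^ 2 + 2 * O * g' = 2 * (-e) * x + (-e) ^ 2) :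
    |g ^ 2 + g' ^ 2 - 2 * e ^ 2 * x ^ 2 / O ^ 2| ≤ 2 * e ^ 3 / m := by
  have hO0 : 0 < O := hm.trans_le hO
  have a1 := g2_two hO0 hx hg h
  have a2 := g2_two hO0 hx hg' h'
  rw [abs_neg, neg_sq] at a2
  rw [abs_of_nonneg he] at a1 a2
  have a3 : e ^ 3 / O ≤ e ^ 3 / m := div_le_div_of_nonneg_left (by positivity) hm hO
  have e1 : g ^ 2 + g' ^ 2 - 2 * e ^ 2 * x ^ 2 / O ^ 2
      = (g ^ 2 - e ^ 2 * x ^ 2 / O ^ 2) + (g' ^ 2 - e ^ 2 * x ^ 2 / O ^ 2) := by ring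
  have e2 : 2 * e ^ 3 / m = e ^ 3 / m + e ^ 3 / m := by ring
  rw [e1, e2]
  exact (abs_add_le _ _).trans (by linarith)

theorem incr_sq (p : E d) {m ε : ℝ} (hm : 0 < m) (hε : 0 ≤ ε) :
    |∑ k, (gt p m ε k ^ 2 + gt p m (-ε) k ^ 2) + (gm p m ε ^ 2 + gm p m (-ε) ^ 2) - 2 * ε ^ 2|
      ≤ 2 * (d + 1) * ε ^ 3 / m := by
  have hO := le_om p m
  have hO0 : 0 < om p m := hm.trans_le hO
  have a1 : ∀ k, |gt p m ε k ^ 2 + gt p m (-ε) k ^ 2 - 2 * ε ^ 2 * (-p k) ^ 2 / om p m ^ 2|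
      ≤ 2 * ε ^ 3 / m := fun k =>
    g2_pair hm hO hε (g2_coord p m k) (gt_abs p m ε k) (gt_abs p m (-ε) k) (g2_gt_eq p m ε k)
      (g2_gt_eq p m (-ε) k)
  have a2 : |gm p m ε ^ 2 + gm p m (-ε) ^ 2 - 2 * ε ^ 2 * m ^ 2 / om p m ^ 2| ≤ 2 * ε ^ 3 / m :=
    g2_pair hm hO hε (by rwa [abs_of_pos hm]) (gm_abs p m ε) (gm_abs p m (-ε)) (g2_gm_eq p m ε)
      (g2_gm_eq p m (-ε))
  have e0 : ∑ k, 2 * ε ^ 2 * (-p k) ^ 2 / om p m ^ 2 + 2 * ε ^ 2 * m ^ 2 / om p m ^ 2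
      = 2 * ε ^ 2 := by
    rw [← Finset.sum_div, ← Finset.mul_sum, ← add_div, ← mul_add, g2_sum]
    field_simp
  have e1 : ∑ k, (gt p m ε k ^ 2 + gt p m (-ε) k ^ 2) + (gm p m ε ^ 2 + gm p m (-ε) ^ 2) - 2 * ε ^ 2
      = ∑ k, (gt p m ε k ^ 2 + gt p m (-ε) k ^ 2 - 2 * ε ^ 2 * (-p k) ^ 2 / om p m ^ 2)
        + (gm p m ε ^ 2 + gm p m (-ε) ^ 2 - 2 * ε ^ 2 * m ^ 2 / om p m ^ 2) := by
    rw [Finset.sum_sub_distrib]
    linarith
  have a3 := (Finset.abs_sum_le_sum_abs _ Finset.univ).trans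
    (Finset.sum_le_sum fun k (_ : k ∈ Finset.univ) => a1 k)
  rw [Finset.sum_const, Finset.card_univ, Fintype.card_fin, nsmul_eq_mul] at a3
  have e2 : 2 * ((d : ℝ) + 1) * ε ^ 3 / m = d * (2 * ε ^ 3 / m) + 2 * ε ^ 3 / m := by ring
  rw [e1, e2]
  exact (abs_add_le _ _).trans (add_le_add a3 a2)

theorem g2_add {O x g g' e : ℝ} (hO : 0 < O) (h : g ^ 2 + 2 * O * g = 2 * e * x + e ^ 2)
    (h' : g' ^ 2 + 2 * O * g' = 2 * (-e) * x + (-e) ^ 2) :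
    g + g' = (2 * e ^ 2 - (g ^ 2 + g' ^ 2)) / (2 * O) := by
  field_simp
  linarith

theorem incr_sum (p : E d) {m ε : ℝ} (hm : 0 < m) (hε : 0 ≤ ε) :
    |∑ k, (gt p m ε k + gt p m (-ε) k) + (gm p m ε + gm p m (-ε)) - d * ε ^ 2 / om p m|
      ≤ (d + 1) * ε ^ 3 / m ^ 2 := by
  have hO := le_om p m
  have hO0 : 0 < om p m := hm.trans_le hO
  have a := incr_sq p hm hε
  have b1 : ∀ k, gt p m ε k + gt p m (-ε) k
      = (2 * ε ^ 2 - (gt p m ε k ^ 2 + gt p m (-ε) k ^ 2)) / (2 * om p m) := fun k =>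
    g2_add hO0 (g2_gt_eq p m ε k) (g2_gt_eq p m (-ε) k)
  have b2 := g2_add hO0 (g2_gm_eq p m ε) (g2_gm_eq p m (-ε))
  have e1 : ∑ k, (gt p m ε k + gt p m (-ε) k) + (gm p m ε + gm p m (-ε)) - d * ε ^ 2 / om p m
      = -(∑ k, (gt p m ε k ^ 2 + gt p m (-ε) k ^ 2) + (gm p m ε ^ 2 + gm p m (-ε) ^ 2)
        - 2 * ε ^ 2) / (2 * om p m) := by
    rw [b2, Finset.sum_congr rfl fun k _ => b1 k, ← Finset.sum_div, Finset.sum_sub_distrib,
      Finset.sum_const, Finset.card_univ, Fintype.card_fin, nsmul_eq_mul]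
    field_simp
    ring
  rw [e1, abs_div, abs_neg, abs_of_pos (by positivity : 0 < 2 * om p m)]
  calc _ ≤ 2 * (d + 1) * ε ^ 3 / m / (2 * m) :=
        div_le_div₀ (by positivity) a (by positivity) (by linarith)
    _ = (d + 1) * ε ^ 3 / m ^ 2 := by field_simp

theorem incr_m (p : E d) {m ε : ℝ} (hm : 0 < m) (hε : 0 ≤ ε) :
    |gm p m ε - gm p m (-ε) - 2 * ε * m / om p m| ≤ ε ^ 2 / m := by
  have hO := le_om p m
  have hO0 : 0 < om p m := hm.trans_le hO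
  obtain ⟨a1, a2⟩ := g2_one hO0 (gm_abs p m ε) (g2_gm_eq p m ε)
  obtain ⟨b1, b2⟩ := g2_one hO0 (gm_abs p m (-ε)) (g2_gm_eq p m (-ε))
  rw [neg_sq] at b2
  have c : ε ^ 2 / (2 * om p m) ≤ ε ^ 2 / m :=
    div_le_div_of_nonneg_left (by positivity) hm (by linarith)
  have e1 : gm p m ε - gm p m (-ε) - 2 * ε * m / om p m
      = (gm p m ε - ε * m / om p m) - (gm p m (-ε) - -ε * m / om p m) := by ring
  rw [e1, abs_le]
  constructor <;> linarith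

end Pool.Agent.P.MP_9f4f5e_mp.RL
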