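import Pool.Agent.P.MP_9f4f5e_mp.RL.P2

set_option linter.unusedSectionVars false
set_option linter.unusedVariables false

open MeasureTheory Matrix
open scoped ENNReal ComplexOrder ComplexConjugate FourierTransform RealInnerProductSpace
open Pool.Agent.P.MP_9f4f5e_mp.LT (tp pp dg qf ec fej Spec)

noncomputable section

namespace Pool.Agent.P.MP_9f4f5e_mp.RL

variable {d : ℕ} {ι κ : Type} [Fintype ι] [DecidableEq ι] [Fintype κ]

theorem exists_bd {V : Matrix ι ι ℂ} (hV : V.IsHermitian) : ∃ K : ℝ, 0 ≤ K ∧ Bd V K := by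
  exact ⟨∑ i, ∑ j, ‖V i j‖, by positivity, LT.le_entry_sum hV⟩

theorem exists_rad (a : ι → E d) : ∃ ρ : ℝ, 0 ≤ ρ ∧ ∀ i, ‖a i‖ ≤ ρ := by
  exact ⟨∑ i, ‖a i‖, by positivity, fun i =>
    Finset.single_le_sum (f := fun j => ‖a j‖) (fun j _ => norm_nonneg _) (Finset.mem_univ i)⟩

theorem TT_nonneg {V : Matrix ι ι ℂ} (hV : V.IsHermitian) (a : ι → E d) (t : E d) (m z : ℝ) :
    0 ≤ TT V a t m z := by
  exact LT.tp_nonneg (MM_herm hV a t m z) 3

theorem TT_zero {V : Matrix ι ι ℂ} {K : ℝ} (hK : Bd V K) {a : ι → E d} {t : E d} {m z : ℝ}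
    (h : ∀ i, K + z ≤ om (a i - t) m) : TT V a t m z = 0 := by
  refine LT.tp_eq_zero ?_ (by norm_num)
  have h1 : -MM V a t m z = (dg fun i => (om (a i - t) m - z) - K) + ((dg fun _ => K) - V) := by
    rw [← LT.dg_sub, MM]
    abel
  rw [h1]
  exact (LT.dg_posSemidef fun i => by linarith [h i]).add hK

theorem TT_supp {V : Matrix ι ι ℂ} {K : ℝ} (hK : Bd V K) {a : ι → E d} {ρ : ℝ}
    (ha : ∀ i, ‖a i‖ ≤ ρ) {t : E d} {m z : ℝ} (h : ρ + K + z ≤ ‖t‖) : TT V a t m z = 0 := by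
  refine TT_zero hK fun i => ?_
  have h1 := norm_le_om (a i - t) m
  have h2 : ‖t‖ - ‖a i‖ ≤ ‖a i - t‖ := by
    rw [norm_sub_rev]
    exact norm_sub_norm_le t (a i)
  linarith [ha i]

theorem continuous_TT {V : Matrix ι ι ℂ} (hV : V.IsHermitian) (a : ι → E d) (m z : ℝ) :
    Continuous fun t => TT V a t m z := by
  refine LT.continuous_tp_sub_dg hV (d := fun (t : E d) i => om (a i - t) m - z) (fun i => ?_)
    (by norm_num)
  exact (continuous_om.comp
    ((continuous_const.sub continuous_id).prodMk continuous_const)).sub continuous_const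

theorem integrable_TT {V : Matrix ι ι ℂ} (hV : V.IsHermitian) (a : ι → E d) (m z : ℝ) :
    Integrable fun t => TT V a t m z := by
  obtain ⟨K, -, hK⟩ := exists_bd hV
  obtain ⟨ρ, -, ha⟩ := exists_rad a
  refine (continuous_TT hV a m z).integrable_of_hasCompactSupport ?_
  refine HasCompactSupport.intro (isCompact_closedBall (0 : E d) (ρ + K + z)) fun t ht => ?_
  refine TT_supp hK ha ?_
  rw [mem_closedBall_zero_iff, not_le] at ht
  exact ht.le

theorem UU_zero {V : Matrix ι ι ℂ} {K : ℝ} (hK : Bd V K) (a : ι → E d) {m z : ℝ}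
    (h : K ≤ m - z) : UU V a m z = 0 := by
  have h1 : ∀ t, TT V a t m z = 0 := fun t => TT_zero hK fun i => by
    linarith [le_om (a i - t) m]
  simp [UU, h1]

theorem integral_le_ball {f : E d → ℝ} (hf : Integrable f) {R c : ℝ} (hc : 0 ≤ c)
    (h1 : ∀ t, ‖t‖ < R → f t ≤ c) (h2 : ∀ t, R ≤ ‖t‖ → f t ≤ 0) :
    ∫ t, f t ≤ c * (volume : Measure (E d)).real (Metric.ball 0 R) := by
  have h3 : Integrable ((Metric.ball (0 : E d) R).indicator fun _ => c) :=
    (integrable_indicator_iff Metric.isOpen_ball.measurableSet).2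
      (integrableOn_const measure_ball_lt_top.ne)
  refine (integral_mono hf h3 fun t => ?_).trans_eq ?_
  · by_cases ht : t ∈ Metric.ball (0 : E d) R
    · rw [Set.indicator_of_mem ht]
      exact h1 t (mem_ball_zero_iff.1 ht)
    · rw [Set.indicator_of_notMem ht]
      exact h2 t (not_lt.1 fun e => ht (mem_ball_zero_iff.2 e))
  · rw [integral_indicator_const _ Metric.isOpen_ball.measurableSet, smul_eq_mul, mul_comm]

theorem UU_small {V : Matrix ι ι ℂ} (hV : V.IsHermitian) (a : ι → E d) {η : ℝ} (hη : 0 < η) :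
    ∃ δ : ℝ, 0 < δ ∧ UU V a 0 δ ≤ UU V a 0 0 + η := by
  obtain ⟨K, -, hK⟩ := exists_bd hV
  obtain ⟨ρ, -, ha⟩ := exists_rad a
  obtain ⟨C, hC, hL⟩ := est_lip (d := d) hV hK 0
  obtain ⟨v, hv⟩ : ∃ v, v = (volume : Measure (E d)).real (Metric.ball 0 (ρ + K + 1)) := ⟨_, rfl⟩
  have v0 : 0 ≤ v := hv ▸ measureReal_nonneg
  have p0 : 0 < C * v + 1 := by positivity
  obtain ⟨δ, d0, d1, d2⟩ : ∃ δ : ℝ, 0 < δ ∧ δ ≤ 1 ∧ δ * (C * v + 1) ≤ η :=
    ⟨min 1 (η / (C * v + 1)), lt_min one_pos (div_pos hη p0), min_le_left _ _,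
      (le_div_iff₀ p0).1 (min_le_right _ _)⟩
  refine ⟨δ, d0, ?_⟩
  have h1 := integral_le_ball ((integrable_TT hV a 0 δ).sub (integrable_TT hV a 0 0))
    (R := ρ + K + 1) (c := C * δ) (by positivity) (fun t _ => ?_) (fun t ht => ?_)
  · simp only [Pi.sub_apply] at h1
    rw [integral_sub (integrable_TT hV a 0 δ) (integrable_TT hV a 0 0), ← hv] at h1
    unfold UU
    nlinarith
  · have h2 := (hL a t 0 0 δ le_rfl le_rfl d0.le d1).2.2.1
    rw [zero_add] at h2
    exact (le_abs_self _).trans h2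
  · have h2 : TT V a t 0 δ = 0 := TT_supp hK ha (by linarith)
    have h3 := TT_nonneg hV a t 0 0
    simp only [Pi.sub_apply]
    linarith

end Pool.Agent.P.MP_9f4f5e_mp.RL
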