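import Pool.Agent.P.MP_9f4f5e_mp.RL.P4
import Pool.Agent.P.MP_9f4f5e_mp.RL.I1

set_option linter.unusedSectionVars false
set_option linter.unusedVariables false

open MeasureTheory Matrix
open scoped ENNReal ComplexOrder ComplexConjugate FourierTransform RealInnerProductSpace
open Pool.Agent.P.MP_9f4f5e_mp.LT (tp pp dg qf ec fej Spec)

noncomputable section

namespace Pool.Agent.P.MP_9f4f5e_mp.RL

variable {d : ℕ} {ι κ : Type} [Fintype ι] [DecidableEq ι] [Fintype κ]

theorem i2_S2 {V : Matrix ι ι ℂ} (hV : V.IsHermitian) (a : ι → E d) (m z ε : ℝ) :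
    Integrable (fun t => S2 V a t m z ε) ∧ ∫ t, S2 V a t m z ε = 0 := by
  have h0 := integrable_TT hV a m z
  have h1 : ∀ v : E d, Integrable fun t => TT V a (t + v) m z := fun v => h0.comp_add_right v
  have h2 : ∀ v : E d, ∫ t, TT V a (t + v) m z = ∫ t, TT V a t m z := fun v =>
    integral_add_right_eq_self (fun t => TT V a t m z) v
  have h3 : ∀ k : Fin d, Integrable fun t =>
      TT V a (t + ε • ee k) m z + TT V a (t + (-ε) • ee k) m z - 2 * TT V a t m z := fun k =>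
    ((h1 _).add (h1 _)).sub (h0.const_mul 2)
  unfold S2
  refine ⟨integrable_finsetSum _ fun k _ => h3 k, ?_⟩
  rw [integral_finsetSum _ fun k _ => h3 k]
  refine Finset.sum_eq_zero fun k _ => ?_
  have h4 : Integrable fun t => TT V a (t + ε • ee k) m z + TT V a (t + (-ε) • ee k) m z :=
    (h1 _).add (h1 _)
  rw [integral_sub h4 (h0.const_mul 2), integral_add (h1 _) (h1 _), h2, h2, integral_const_mul]
  ring

theorem i2_supp {V : Matrix ι ι ℂ} {K : ℝ} (hK : Bd V K) {a : ι → E d} {ρ : ℝ}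
    (ha : ∀ i, ‖a i‖ ≤ ρ) {t : E d} {m z Z ε : ℝ} (hz : z ≤ Z) (h0 : 0 ≤ ε) (h1 : ε ≤ 1)
    (h : ρ + K + Z + 2 ≤ ‖t‖) : DD V a t m z ε = 0 := by
  have h2 : ∀ (k : Fin d) (e : ℝ), |e| ≤ 1 → TT V a (t + e • ee k) m z = 0 := by
    intro k e he
    refine TT_supp hK ha ?_
    have h3 : ‖e • (ee k : E d)‖ ≤ 1 := by
      rw [norm_smul, ee, EuclideanSpace.norm_single, Real.norm_eq_abs]
      simpa using he
    have h4 : ‖t‖ ≤ ‖t + e • ee k‖ + ‖e • (ee k : E d)‖ := by
      simpa using norm_sub_le (t + e • ee k) (e • (ee k : E d))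
    linarith
  have h5 : ∀ m' z' : ℝ, z' ≤ Z + 1 → TT V a t m' z' = 0 := fun m' z' hz' =>
    TT_supp hK ha (by linarith)
  have h6 : S2 V a t m z ε = 0 := by
    unfold S2
    refine Finset.sum_eq_zero fun k _ => ?_
    rw [h2 k ε (by rwa [abs_of_nonneg h0]), h2 k (-ε) (by rwa [abs_neg, abs_of_nonneg h0]),
      h5 m z (by linarith)]
    ring
  unfold DD
  rw [h6, h5 _ z (by linarith), h5 _ z (by linarith), h5 _ z (by linarith),
    h5 _ (z + ε) (by linarith), h5 _ (z - ε) (by linarith)]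
  ring

theorem integral_DD {V : Matrix ι ι ℂ} (hV : V.IsHermitian) (a : ι → E d) (m z ε : ℝ) :
    Integrable (fun t => DD V a t m z ε) ∧
      ∫ t, DD V a t m z ε = wt d (m + ε) * UU V a (m + ε) z + wt d (m - ε) * UU V a (m - ε) z
        - wt d m * (UU V a m (z + ε) + UU V a m (z - ε))
        - cc d * ε ^ 2 / m ^ 2 * (wt d m * UU V a m z) := by
  obtain ⟨s1, s2⟩ := i2_S2 hV a m z ε
  have i1 := (integrable_TT hV a (m + ε) z).const_mul (wt d (m + ε))
  have i2 := (integrable_TT hV a (m - ε) z).const_mul (wt d (m - ε))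
  have i3 := integrable_TT hV a m (z + ε)
  have i4 := integrable_TT hV a m (z - ε)
  have i5 : Integrable fun t => wt d m * (TT V a t m (z + ε) + TT V a t m (z - ε)) :=
    (i3.add i4).const_mul _
  have i6 := s1.const_mul (wt d m)
  have i7 := ((integrable_TT hV a m z).const_mul (wt d m)).const_mul (cc d * ε ^ 2 / m ^ 2)
  have j1 : Integrable fun t => wt d (m + ε) * TT V a t (m + ε) z +
      wt d (m - ε) * TT V a t (m - ε) z := i1.add i2
  have j2 : Integrable fun t => wt d (m + ε) * TT V a t (m + ε) z +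
      wt d (m - ε) * TT V a t (m - ε) z - wt d m * (TT V a t m (z + ε) + TT V a t m (z - ε)) :=
    j1.sub i5
  have j3 : Integrable fun t => wt d (m + ε) * TT V a t (m + ε) z +
      wt d (m - ε) * TT V a t (m - ε) z - wt d m * (TT V a t m (z + ε) + TT V a t m (z - ε))
      + wt d m * S2 V a t m z ε := j2.add i6
  unfold DD UU
  refine ⟨j3.sub i7, ?_⟩
  rw [integral_sub j3 i7, integral_add j2 i6, integral_sub j1 i5, integral_add i1 i2]
  simp only [integral_const_mul]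
  rw [integral_add i3 i4, s2]
  ring

theorem WW_mixed {V : Matrix ι ι ℂ} (hV : V.IsHermitian) (a : ι → E d) {m1 : ℝ} (hm1 : 0 < m1)
    (Z : ℝ) : ∃ C ε0 : ℝ, 0 < ε0 ∧ ∀ m z ε : ℝ, m1 ≤ m → |z| ≤ Z → 0 < ε → ε ≤ ε0 →
      WW V a (m + ε) z + WW V a (m - ε) z - WW V a m (z + ε) - WW V a m (z - ε)
        ≤ cc d * ε ^ 2 / m ^ 2 * WW V a m z + C * ε ^ 3 := by
  obtain ⟨K, -, hK⟩ := exists_bd hV
  obtain ⟨ρ, hρ, ha⟩ := exists_rad a
  obtain ⟨C1, c1, h1⟩ := DD_up (d := d) hV hK hm1 Z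
  obtain ⟨C2, c2, h2⟩ := DD_low (d := d) hV hK hm1 Z
  refine ⟨(C1 + C2) * (volume : Measure (E d)).real (Metric.ball 0 (ρ + K + Z + 2)),
    min 1 (m1 / 2), lt_min one_pos (by linarith), fun m z ε hm hz h0 he => ?_⟩
  have hz' : z ≤ Z := (le_abs_self z).trans hz
  have e1 : ε ≤ 1 := he.trans (min_le_left _ _)
  have e2 : ε ≤ m1 / 2 := he.trans (min_le_right _ _)
  obtain ⟨a1, a2⟩ := integral_DD hV a m z ε
  obtain ⟨b1, b2⟩ := integral_DD hV (fun _ => (0 : E d)) m z ε
  have u1 := integral_le_ball a1 (R := ρ + K + Z + 2) (c := C1 * ε ^ 3) (by positivity)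
    (fun t _ => h1 a t m z ε hm hz' h0.le e1 e2)
    (fun t ht => (i2_supp hK ha hz' h0.le e1 ht).le)
  have b3 : Integrable fun t => -DD V (fun _ => (0 : E d)) t m z ε := b1.neg
  have u2 := integral_le_ball b3 (R := ρ + K + Z + 2) (c := C2 * ε ^ 3) (by positivity)
    (fun t _ => neg_le.1 (h2 t m z ε hm hz' h0.le e1 e2))
    (fun t ht => by
      rw [i2_supp hK (fun _ => by simpa using hρ) hz' h0.le e1 ht]
      simp)
  rw [integral_neg, b2] at u2
  rw [a2] at u1
  unfold WW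
  linarith

end Pool.Agent.P.MP_9f4f5e_mp.RL
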