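import Pool.Agent.P.MP_9f4f5e_mp.RL.P3
import Pool.Agent.P.MP_9f4f5e_mp.RL.I1

set_option linter.unusedSectionVars false
set_option linter.unusedVariables false

open MeasureTheory Matrix
open scoped ENNReal ComplexOrder ComplexConjugate FourierTransform RealInnerProductSpace
open Pool.Agent.P.MP_9f4f5e_mp.LT (tp pp dg qf ec fej Spec)

noncomputable section

namespace Pool.Agent.P.MP_9f4f5e_mp.RL

variable {d : ℕ} {ι κ : Type} [Fintype ι] [DecidableEq ι] [Fintype κ]

theorem i3x_pert {M : Matrix ι ι ℂ} (hM : M.IsHermitian) {L : ℝ} (hL : Bd M L) (hL0 : 0 ≤ L)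
    (g : ι → ℝ) {e e0 : ℝ} (he : 0 ≤ e) (he0 : e ≤ e0) (hg : ∀ i, |g i| ≤ e) :
    tp 3 (M - dg g) - tp 3 M ≤ e * (3 * (Fintype.card ι * L ^ 2)
      + 3 * e0 * (Fintype.card ι * L) + 2 * Fintype.card ι * e0 ^ 2) := by
  have h1 := tp3_up hM g hg
  have b1 := tp_le_of_bd hM hL hL0 one_ne_zero
  have b2 := tp_le_of_bd hM hL hL0 two_ne_zero
  rw [pow_one] at b1
  have h2 : ∑ i, p2 M i * (-e) ≤ ∑ i, p2 M i * g i := Finset.sum_le_sum fun i _ =>
    mul_le_mul_of_nonneg_left (neg_le_of_abs_le (hg i)) (p2_nonneg hM i)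
  have h3 : ∑ i, p1 M i * g i ^ 2 ≤ ∑ i, p1 M i * e ^ 2 := Finset.sum_le_sum fun i _ =>
    mul_le_mul_of_nonneg_left (sq_le_sq' (neg_le_of_abs_le (hg i)) (le_of_abs_le (hg i)))
      (p1_nonneg hM i)
  rw [← Finset.sum_mul, sum_p2 hM] at h2
  rw [← Finset.sum_mul, sum_p1 hM] at h3
  have hN : (0 : ℝ) ≤ Fintype.card ι := Nat.cast_nonneg _
  generalize (Fintype.card ι : ℝ) = N at *
  have h4 := mul_le_mul_of_nonneg_right b2 he
  have h5 := mul_le_mul_of_nonneg_right b1 (sq_nonneg e)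
  have h6 : N * L * e ^ 2 ≤ N * L * (e * e0) :=
    mul_le_mul_of_nonneg_left (by nlinarith) (by positivity)
  have h7 : N * e ^ 3 ≤ N * (e * e0 ^ 2) := by
    refine mul_le_mul_of_nonneg_left ?_ hN
    have := mul_le_mul_of_nonneg_left (pow_le_pow_left₀ he he0 2) he
    linarith
  linarith

theorem WW_decay {V : Matrix ι ι ℂ} (hV : V.IsHermitian) (a : ι → E d) {m0 : ℝ} (hm0 : 0 < m0)
    (x0 : ℝ) : ∃ C : ℝ, 0 ≤ C ∧ ∀ m z : ℝ, m0 ≤ m → x0 ≤ m - z → WW V a m z ≤ C / √m := by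
  obtain ⟨K, hK0, hK⟩ := exists_bd hV
  obtain ⟨ρ, hρ0, hρ⟩ := exists_rad a
  obtain ⟨L, hL⟩ : ∃ L, L = max (K - x0) 0 := ⟨_, rfl⟩
  have hL0 : 0 ≤ L := hL ▸ le_max_right _ _
  have hL1 : K - x0 ≤ L := hL ▸ le_max_left _ _
  have hs0 : 0 < √m0 := Real.sqrt_pos.2 hm0
  obtain ⟨r, hr⟩ : ∃ r, r = √(L * (L / m0 + 2)) := ⟨_, rfl⟩
  have hr0 : 0 ≤ r := hr ▸ Real.sqrt_nonneg _
  have hr2 : r ^ 2 = L * (L / m0 + 2) := hr ▸ Real.sq_sqrt (by positivity)
  obtain ⟨R0, hR0⟩ : ∃ R0, R0 = ρ / √m0 + r := ⟨_, rfl⟩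
  have hR00 : 0 ≤ R0 := hR0 ▸ by positivity
  obtain ⟨D, hD⟩ : ∃ D, D = ρ * (ρ / √m0 + 2 * R0) / 2 := ⟨_, rfl⟩
  have hD0 : 0 ≤ D := hD ▸ by positivity
  obtain ⟨A, hA⟩ : ∃ A, A = 3 * (Fintype.card ι * L ^ 2)
      + 3 * (D / √m0) * (Fintype.card ι * L) + 2 * Fintype.card ι * (D / √m0) ^ 2 := ⟨_, rfl⟩
  have hA0 : 0 ≤ A := hA ▸ by positivity
  refine ⟨D * A * (volume : Measure (E d)).real (Metric.ball 0 R0),
    mul_nonneg (by positivity) measureReal_nonneg, fun m z hm hz => ?_⟩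
  have hm1 : 0 < m := hm0.trans_le hm
  have hs : 0 < √m := Real.sqrt_pos.2 hm1
  have hss : √m0 ≤ √m := Real.sqrt_le_sqrt hm
  have hs2 : √m * √m = m := Real.mul_self_sqrt hm1.le
  have hρ1 : ρ ≤ ρ / √m0 * √m := by
    rw [div_mul_eq_mul_div, le_div_iff₀ hs0]
    exact mul_le_mul_of_nonneg_left hss hρ0
  have key := integral_le_ball (R := √m * R0) (c := D / √m * A)
    ((integrable_TT hV a m z).sub (integrable_TT hV (fun _ => (0 : E d)) m z)) (by positivity)
    (fun t ht => by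
      have e : MM V a t m z = MM V (fun _ => (0 : E d)) t m z
          - dg fun i => om (a i - t) m - om (0 - t) m := by
        unfold MM
        rw [sub_sub, LT.dg_add]
        exact congrArg (fun f => V - dg f) (funext fun i => by ring)
      have hb : Bd (MM V (fun _ => (0 : E d)) t m z) L :=
        (MM_bd hK _ t m z).mono (by linarith)
      show tp 3 (MM V a t m z) - tp 3 (MM V (fun _ => (0 : E d)) t m z) ≤ _
      rw [e, hA]
      refine i3x_pert (MM_herm hV _ t m z) hb hL0 _ (by positivity)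
        (div_le_div_of_nonneg_left hD0 hs0 hss) fun i => (om_close _ _ hm1).trans ?_
      rw [div_le_div_iff₀ (by positivity) hs]
      have h1 : ‖a i‖ * (‖a i‖ + 2 * ‖t‖) ≤ ρ * (ρ / √m0 * √m + 2 * (√m * R0)) :=
        mul_le_mul (hρ i) (by linarith [hρ i]) (by positivity) hρ0
      have h2 := mul_le_mul_of_nonneg_right h1 hs.le
      refine h2.trans (le_of_eq ?_)
      rw [hD]
      linear_combination (ρ * (ρ / √m0 + 2 * R0)) * hs2)
    (fun t ht => by
      have h0 : TT V a t m z = 0 := TT_zero hK fun i => by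
        rcases le_total (K + z) m with h | h
        · exact h.trans (le_om _ _)
        refine abs_le_of_sq_le_sq' ?_ (hm1.le.trans (le_om _ _)) |>.2
        rw [om_sq]
        have h1 : ‖t‖ - ‖a i‖ ≤ ‖a i - t‖ := by
          rw [norm_sub_rev]
          exact norm_sub_norm_le _ _
        have h2 : r * √m ≤ ‖a i - t‖ := by
          rw [hR0] at ht
          linarith [hρ i]
        have h3 := pow_le_pow_left₀ (by positivity) h2 2
        have h4 : (r * √m) ^ 2 = L * (L / m0 * m + 2 * m) := by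
          rw [mul_pow, hr2, sq, hs2]
          ring
        have h5 : L ≤ L / m0 * m := by
          rw [div_mul_eq_mul_div, le_div_iff₀ hm0]
          exact mul_le_mul_of_nonneg_left hm hL0
        have h6 : (K + z - m) * (K + z - m + 2 * m) ≤ L * (L / m0 * m + 2 * m) :=
          mul_le_mul (by linarith) (by linarith) (by linarith) hL0
        nlinarith
      show TT V a t m z - TT V (fun _ => (0 : E d)) t m z ≤ 0
      linarith [TT_nonneg hV (fun _ => (0 : E d)) t m z])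
  have hv : (volume : Measure (E d)).real (Metric.ball 0 (√m * R0))
      = √m ^ d * (volume : Measure (E d)).real (Metric.ball 0 R0) := by
    rw [Measure.real, Measure.addHaar_ball_mul_of_pos _ _ hs, finrank_euclideanSpace_fin,
      ENNReal.toReal_mul, ENNReal.toReal_ofReal (by positivity), Measure.real]
  have e : ∫ t, ((fun t => TT V a t m z) - fun t => TT V (fun _ => (0 : E d)) t m z) t
      = UU V a m z - UU V (fun _ => (0 : E d)) m z :=
    integral_sub (integrable_TT hV a m z) (integrable_TT hV (fun _ => (0 : E d)) m z)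
  rw [e, hv] at key
  refine (mul_le_mul_of_nonneg_left key (wt_pos d hm1).le).trans (le_of_eq ?_)
  linear_combination (D / √m * A * (volume : Measure (E d)).real (Metric.ball 0 R0)) * wt_mul d hm1

end Pool.Agent.P.MP_9f4f5e_mp.RL
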