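import Pool.Agent.P.MP_9f4f5e_mp.RL.O1

set_option linter.unusedSectionVars false
set_option linter.unusedVariables false

open MeasureTheory Matrix
open scoped ENNReal ComplexOrder ComplexConjugate FourierTransform RealInnerProductSpace
open Pool.Agent.P.MP_9f4f5e_mp.LT (tp pp dg qf ec fej Spec)

noncomputable section

namespace Pool.Agent.P.MP_9f4f5e_mp.RL

variable {d : ℕ} {ι κ : Type} [Fintype ι] [DecidableEq ι] [Fintype κ]

theorem goursat (w : ℝ → ℝ → ℝ) {c K m0 z0 : ℝ} (hc : 0 ≤ c) (hm0 : 0 < m0)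
    (h1 : ∀ m z, K ≤ m - z → w m z = 0)
    (h2 : ∃ C : ℝ, 0 ≤ C ∧ ∀ m z, m0 ≤ m → m0 - z0 ≤ m - z → w m z ≤ C / √m)
    (h3 : ∀ Z : ℝ, ∃ C ε0 : ℝ, 0 < ε0 ∧ ∀ m z ε : ℝ, m0 ≤ m → |z| ≤ Z → 0 < ε → ε ≤ ε0 →
      w (m + ε) z + w (m - ε) z - w m (z + ε) - w m (z - ε)
        ≤ c * ε ^ 2 / m ^ 2 * w m z + C * ε ^ 3) : w m0 z0 ≤ 0 := by
  obtain ⟨C, hC, h2⟩ := h2
  set W : ℝ → ℝ → ℝ := fun x y => w (m0 + (x + y) / 2) (z0 + (y - x) / 2) with hW
  have a1 : ∀ x y, K - m0 + z0 ≤ x → 0 ≤ x → 0 ≤ y → W x y = 0 := by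
    intro x y hx _ _
    exact h1 _ _ (by linarith)
  have a0 : ∀ x y, 0 ≤ x → 0 ≤ y → W x y ≤ C / √(m0 + (x + y) / 2) := by
    intro x y hx hy
    exact h2 _ _ (by linarith) (by linarith)
  have a2 : ∀ η : ℝ, 0 < η → ∃ H : ℝ, ∀ x y, 0 ≤ x → 0 ≤ y → H ≤ y → W x y ≤ η := by
    intro η hη
    refine ⟨2 * (C / η) ^ 2, fun x y hx hy hH => (a0 x y hx hy).trans ?_⟩
    have hm : 0 < m0 + (x + y) / 2 := by linarith
    have hs : 0 < √(m0 + (x + y) / 2) := Real.sqrt_pos.2 hm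
    have h4 : C / η ≤ √(m0 + (x + y) / 2) := Real.le_sqrt_of_sq_le (by linarith)
    rw [div_le_iff₀ hs]
    rw [div_le_iff₀ hη] at h4
    linarith
  have a3 : ∀ H : ℝ, ∃ C s0 : ℝ, 0 < s0 ∧ ∀ x y s, 0 ≤ x → x ≤ H → 0 ≤ y → y ≤ H → 0 < s →
      s ≤ s0 → W (x + s) (y + s) + W x y - W (x + s) y - W x (y + s)
        ≤ c * (s / 2) ^ 2 / (m0 + (x + y + s) / 2) ^ 2 * W (x + s / 2) (y + s / 2) + C * s ^ 3 := by
    intro H
    obtain ⟨C', ε0, hε0, h⟩ := h3 (|z0| + H)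
    refine ⟨C' / 8, 2 * ε0, by linarith, fun x y s hx hxH hy hyH hs hs0 => ?_⟩
    have hz : |z0 + (y - x) / 2| ≤ |z0| + H := by
      refine (abs_add_le _ _).trans ?_
      have : |(y - x) / 2| ≤ H := abs_le.2 ⟨by linarith, by linarith⟩
      linarith
    have h5 := h (m0 + (x + y + s) / 2) (z0 + (y - x) / 2) (s / 2) (by linarith) hz
      (by linarith) (by linarith)
    have e1 : W (x + s) (y + s) = w (m0 + (x + y + s) / 2 + s / 2) (z0 + (y - x) / 2) := by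
      simp only [hW]; congr 1 <;> ring
    have e2 : W x y = w (m0 + (x + y + s) / 2 - s / 2) (z0 + (y - x) / 2) := by
      simp only [hW]; congr 1; ring
    have e3 : W (x + s) y = w (m0 + (x + y + s) / 2) (z0 + (y - x) / 2 - s / 2) := by
      simp only [hW]; congr 1 <;> ring
    have e4 : W x (y + s) = w (m0 + (x + y + s) / 2) (z0 + (y - x) / 2 + s / 2) := by
      simp only [hW]; congr 1 <;> ring
    have e5 : W (x + s / 2) (y + s / 2) = w (m0 + (x + y + s) / 2) (z0 + (y - x) / 2) := by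
      simp only [hW]; congr 1 <;> ring
    rw [e1, e2, e3, e4, e5]
    have e6 : C' / 8 * s ^ 3 = C' * (s / 2) ^ 3 := by ring
    rw [e6]
    linarith
  have hc1 : 0 < c + 1 := by linarith
  set δ : ℝ := m0 / (c + 1) with hδ
  have hδ0 : 0 < δ := div_pos hm0 hc1
  have hq : c * δ / (2 * m0) ≤ 1 / 2 := by
    rw [hδ, div_le_iff₀ (by linarith : 0 < 2 * m0)]
    have : c * (m0 / (c + 1)) ≤ m0 := by
      rw [← mul_div_assoc, div_le_iff₀ hc1]; nlinarith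
    linarith
  have hB0 : 0 ≤ C / √m0 := div_nonneg hC (Real.sqrt_nonneg _)
  have b0 : ∀ x y, 0 ≤ x → 0 ≤ y → W x y ≤ C / √m0 := by
    intro x y hx hy
    refine (a0 x y hx hy).trans ?_
    exact div_le_div_of_nonneg_left hC (Real.sqrt_pos.2 hm0) (Real.sqrt_le_sqrt (by linarith))
  have step : ∀ x1 : ℝ, (∀ x y, 0 ≤ x → x1 ≤ x → 0 ≤ y → W x y ≤ 0) →
      ∀ x y, 0 ≤ x → x1 - δ ≤ x → 0 ≤ y → W x y ≤ 0 := by
    intro x1 h0
    have it : ∀ n : ℕ, ∀ x y, 0 ≤ x → x1 - δ ≤ x → 0 ≤ y → W x y ≤ C / √m0 * (1 / 2) ^ n := by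
      intro n
      induction n with
      | zero => intro x y hx _ hy; simpa using b0 x y hx hy
      | succ n ih =>
        intro x y hx hx1 hy
        have hB : 0 ≤ C / √m0 * (1 / 2 : ℝ) ^ n := by positivity
        refine (strip W hc hm0 a1 a2 a3 hδ0.le hB ih h0 x y hx hx1 hy).trans ?_
        calc c * δ / (2 * m0) * (C / √m0 * (1 / 2) ^ n)
            ≤ 1 / 2 * (C / √m0 * (1 / 2) ^ n) := mul_le_mul_of_nonneg_right hq hB
          _ = C / √m0 * (1 / 2) ^ (n + 1) := by ring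
    intro x y hx hx1 hy
    have ht : Filter.Tendsto (fun n : ℕ => C / √m0 * (1 / 2 : ℝ) ^ n) Filter.atTop
        (nhds (C / √m0 * 0)) :=
      (tendsto_pow_atTop_nhds_zero_of_lt_one (by norm_num) (by norm_num)).const_mul _
    rw [mul_zero] at ht
    exact ge_of_tendsto' ht fun n => it n x y hx hx1 hy
  have all : ∀ k : ℕ, ∀ x y, 0 ≤ x → K - m0 + z0 - k * δ ≤ x → 0 ≤ y → W x y ≤ 0 := by
    intro k
    induction k with
    | zero =>
      intro x y hx hx1 hy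
      exact (a1 x y (by simpa using hx1) hx hy).le
    | succ k ih =>
      intro x y hx hx1 hy
      refine step _ ih x y hx ?_ hy
      push_cast at hx1
      linarith
  obtain ⟨k, hk⟩ := exists_nat_ge ((K - m0 + z0) / δ)
  rw [div_le_iff₀ hδ0] at hk
  have := all k 0 0 le_rfl (by linarith) le_rfl
  simpa [hW] using this

end Pool.Agent.P.MP_9f4f5e_mp.RL
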