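import Pool.Agent.P.MP_9f4f5e_mp.RL.I2
import Pool.Agent.P.MP_9f4f5e_mp.RL.I3
import Pool.Agent.P.MP_9f4f5e_mp.RL.O2

set_option linter.unusedSectionVars false
set_option linter.unusedVariables false

open MeasureTheory Matrix
open scoped ENNReal ComplexOrder ComplexConjugate FourierTransform RealInnerProductSpace
open Pool.Agent.P.MP_9f4f5e_mp.LT (tp pp dg qf ec fej Spec)

noncomputable section

namespace Pool.Agent.P.MP_9f4f5e_mp.RL

variable {d : ℕ} {ι κ : Type} [Fintype ι] [DecidableEq ι] [Fintype κ]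

theorem mi_mono {V : Matrix ι ι ℂ} (hV : V.IsHermitian) (a : ι → E d) {m z m' z' : ℝ}
    (h : ∀ p : E d, om p m' - z' ≤ om p m - z) : UU V a m z ≤ UU V a m' z' := by
  refine integral_mono (integrable_TT hV a m z) (integrable_TT hV a m' z') fun t => ?_
  refine LT.tp_mono (MM_herm hV a t m z) (MM_herm hV a t m' z') ?_ (by norm_num)
  have e : MM V a t m' z' - MM V a t m z =
      dg fun i => (om (a i - t) m - z) - (om (a i - t) m' - z') := by
    rw [← LT.dg_sub]
    unfold MM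
    abel
  rw [e]
  exact LT.dg_posSemidef fun i => sub_nonneg.2 (h _)

theorem mi_herm {W : Matrix ι ι ℂ} (hW : W.IsHermitian) (c : ℝ) : ((c : ℂ) • W).IsHermitian := by
  rw [Matrix.IsHermitian, Matrix.conjTranspose_smul, hW.eq]
  simp

theorem mi_eq {W : Matrix ι ι ℂ} (hW : W.IsHermitian) (a : ι → E d) (m : ℝ) (t : E d) :
    tp 3 (W - dg fun i => sym m (a i - t)) = (2 * Real.pi) ^ 3 *
      TT ((((2 * Real.pi)⁻¹ : ℝ) : ℂ) • W) a t (m / (2 * Real.pi)) (m / (2 * Real.pi)) := by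
  have hp : 0 < 2 * Real.pi := by positivity
  unfold TT
  rw [← tp_smul (MM_herm (mi_herm hW _) _ _ _ _) hp]
  congr 1
  unfold MM
  rw [smul_sub, smul_smul, ← Complex.ofReal_mul, mul_inv_cancel₀ hp.ne', Complex.ofReal_one,
    one_smul]
  congr 1
  ext i j
  rw [Matrix.smul_apply, LT.dg_apply, LT.dg_apply, sym_eq]
  split_ifs
  · rw [smul_eq_mul, ← Complex.ofReal_mul]
  · simp

theorem mi_eq0 (W : Matrix ι ι ℂ) (m : ℝ) (t : E d) :
    (W - dg fun _ => sym m t) = W - dg fun i : ι => sym m ((fun _ => (0 : E d)) i - t) := by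
  simp only [zero_sub, sym_neg]

theorem UU_le {V : Matrix ι ι ℂ} (hV : V.IsHermitian) (a : ι → E d) {m : ℝ} (hm : 0 < m)
    (z : ℝ) : UU V a m z ≤ UU V (fun _ => (0 : E d)) m z := by
  obtain ⟨K, -, hK⟩ := exists_bd hV
  have h := goursat (WW V a) (c := cc d) (K := K) (m0 := m) (z0 := z)
    (by unfold cc; positivity) hm
    (fun m z h => by unfold WW; rw [UU_zero hK _ h, UU_zero hK _ h]; simp)
    (WW_decay hV a hm (m - z)) (WW_mixed hV a hm)
  unfold WW at h
  have hw : 0 < wt d m := Real.rpow_pos_of_pos hm _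
  have := nonpos_of_mul_nonpos_right h hw
  linarith

theorem UU_le' {V : Matrix ι ι ℂ} (hV : V.IsHermitian) (a : ι → E d) {m : ℝ} (hm : 0 ≤ m) :
    UU V a m m ≤ UU V (fun _ => (0 : E d)) m m := by
  rcases hm.lt_or_eq with hm | rfl
  · exact UU_le hV a hm m
  · refine le_of_forall_pos_le_add fun η hη => ?_
    obtain ⟨δ, hδ, h⟩ := UU_small hV (fun _ => (0 : E d)) hη
    calc UU V a 0 0 ≤ UU V a δ δ :=
          mi_mono hV a fun p => by rw [om_zero, sub_zero]; exact om_sub_le p hδ.le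
      _ ≤ UU V (fun _ => (0 : E d)) δ δ := UU_le hV a hδ δ
      _ ≤ UU V (fun _ => (0 : E d)) 0 δ :=
          mi_mono hV _ fun p => by rw [om_zero]; exact sub_le_sub_right (norm_le_om p δ) δ
      _ ≤ _ := h

theorem integrable_sym {W : Matrix ι ι ℂ} (hW : W.IsHermitian) (a : ι → E d) (m : ℝ) :
    Integrable fun t => tp 3 (W - dg fun i => sym m (a i - t)) := by
  simp only [mi_eq hW a m]
  exact (integrable_TT (mi_herm hW _) a _ _).const_mul _

theorem integrable_sym0 {W : Matrix ι ι ℂ} (hW : W.IsHermitian) (m : ℝ) :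
    Integrable fun t : E d => tp 3 (W - dg fun _ => sym m t) := by
  have h := integrable_sym hW (fun _ => (0 : E d)) m
  simpa only [zero_sub, sym_neg] using h

theorem matrix_sym {W : Matrix ι ι ℂ} (hW : W.IsHermitian) (a : ι → E d) {m : ℝ} (hm : 0 ≤ m) :
    ∫ t, tp 3 (W - dg fun i => sym m (a i - t)) ≤ ∫ t : E d, tp 3 (W - dg fun _ => sym m t) := by
  have e : (fun t : E d => tp 3 (W - dg fun _ => sym m t)) = fun t => (2 * Real.pi) ^ 3 *
      TT ((((2 * Real.pi)⁻¹ : ℝ) : ℂ) • W) (fun _ => (0 : E d)) t (m / (2 * Real.pi))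
        (m / (2 * Real.pi)) := by
    funext t
    rw [mi_eq0, mi_eq hW]
  rw [e]
  simp only [mi_eq hW a m]
  rw [integral_const_mul, integral_const_mul]
  exact mul_le_mul_of_nonneg_left (UU_le' (mi_herm hW _) a (by positivity)) (by positivity)

end Pool.Agent.P.MP_9f4f5e_mp.RL
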