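import Pool.Agent.P.MP_9f4f5e_mp.LT.G3
import Pool.Agent.P.MP_9f4f5e_mp.RL.Defs

set_option linter.unusedSectionVars false
set_option linter.unusedVariables false

open MeasureTheory Matrix
open scoped ENNReal ComplexOrder ComplexConjugate FourierTransform RealInnerProductSpace
open Pool.Agent.P.MP_9f4f5e_mp.LT (tp pp dg qf ec fej Spec)

noncomputable section

namespace Pool.Agent.P.MP_9f4f5e_mp.RL

variable {d : ℕ} {ι κ : Type} [Fintype ι] [DecidableEq ι] [Fintype κ]

theorem r5_pre (S : Fin d → Set ℝ) :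
    (WithLp.toLp 2 : (Fin d → ℝ) → E d) ⁻¹' {x : E d | ∀ k, x k ∈ S k} = Set.univ.pi S := by
  ext x
  simp

theorem integral_box {𝕜 : Type} [RCLike 𝕜] (S : Fin d → Set ℝ) (hS : ∀ k, MeasurableSet (S k))
    (f : Fin d → ℝ → 𝕜) :
    ∫ x in {x : E d | ∀ k, x k ∈ S k}, ∏ k, f k (x k) = ∏ k, ∫ s in S k, f k s := by
  rw [← (PiLp.volume_preserving_toLp (Fin d)).setIntegral_preimage_emb
    (MeasurableEquiv.toLp 2 _).measurableEmbedding, r5_pre, volume_pi, Measure.restrict_pi_pi]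
  exact integral_fintype_prod_eq_prod f

theorem volume_box (S : Fin d → Set ℝ) (hS : ∀ k, MeasurableSet (S k)) :
    volume {x : E d | ∀ k, x k ∈ S k} = ∏ k, volume (S k) := by
  rw [← (PiLp.volume_preserving_toLp (Fin d)).measure_preimage_emb
    (MeasurableEquiv.toLp 2 _).measurableEmbedding, r5_pre, volume_pi_pi]

theorem measurableSet_box (S : Fin d → Set ℝ) (hS : ∀ k, MeasurableSet (S k)) :
    MeasurableSet {x : E d | ∀ k, x k ∈ S k} := by
  have e : {x : E d | ∀ k, x k ∈ S k} = ⋂ k, (fun s : E d => s k) ⁻¹' S k := by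
    ext s
    simp
  rw [e]
  exact MeasurableSet.iInter fun k => (hS k).preimage (by fun_prop)

theorem norm_le_of_coord {s : E d} {h : ℝ} (hs : ∀ k, |s k| ≤ h) : ‖s‖ ≤ d * h := by
  have h1 : ‖s‖ ^ 2 ≤ (∑ k, |s k|) ^ 2 := by
    rw [EuclideanSpace.real_norm_sq_eq]
    refine le_trans (le_of_eq ?_) (Finset.sum_sq_le_sq_sum_of_nonneg fun k _ => abs_nonneg (s k))
    simp only [sq_abs]
  have h2 : ∑ k, |s k| ≤ d * h := by
    refine (Finset.sum_le_sum fun k _ => hs k).trans (le_of_eq ?_)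
    simp
  exact (abs_le_of_sq_le_sq' h1 (Finset.sum_nonneg fun k _ => abs_nonneg _)).2.trans h2

theorem ec_sum (a : Fin d → ℝ) : ec (∑ k, a k) = ∏ k, ec (a k) := by
  induction (Finset.univ : Finset (Fin d)) using Finset.induction_on with
  | empty => simp [LT.ec_zero]
  | insert k s hk ih => rw [Finset.sum_insert hk, Finset.prod_insert hk, LT.ec_add, ih]

theorem measurableSet_cube (h : ℝ) : MeasurableSet (cube d h) :=
  measurableSet_box (fun _ => Set.Ico 0 h) fun _ => measurableSet_Ico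

theorem volume_cube {h : ℝ} (hh : 0 < h) : volume (cube d h) = ENNReal.ofReal (h ^ d) := by
  have := volume_box (d := d) (fun _ => Set.Ico 0 h) fun _ => measurableSet_Ico
  rw [cube, this, ENNReal.ofReal_pow hh.le]
  simp

theorem real_cube {h : ℝ} (hh : 0 < h) : (volume : Measure (E d)).real (cube d h) = h ^ d := by
  rw [Measure.real, volume_cube hh, ENNReal.toReal_ofReal (by positivity)]

theorem norm_le_of_mem_cube {h : ℝ} {s : E d} (hs : s ∈ cube d h) : ‖s‖ ≤ d * h :=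
  norm_le_of_coord fun k => by
    rw [abs_of_nonneg (hs k).1]
    exact (hs k).2.le

theorem lat_disjoint {h : ℝ} (hh : 0 < h) {n : ℕ} (i j : Fin d → Fin n) (hij : i ≠ j) :
    ∀ s ∈ cube d h, ∀ s' ∈ cube d h, lat h i + s ≠ lat h j + s' := by
  intro s hs s' hs' e
  refine hij (funext fun k => Fin.ext ?_)
  have e1 : h * ((i k : ℕ) : ℝ) + s k = h * ((j k : ℕ) : ℝ) + s' k :=
    congrArg (fun v : E d => v k) e
  obtain ⟨a1, a2⟩ := hs k
  obtain ⟨b1, b2⟩ := hs' k
  have c1 : ((i k : ℕ) : ℝ) < (j k : ℕ) + 1 := lt_of_mul_lt_mul_left (by linarith) hh.le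
  have c2 : ((j k : ℕ) : ℝ) < (i k : ℕ) + 1 := lt_of_mul_lt_mul_left (by linarith) hh.le
  have d1 : (i k : ℕ) < (j k : ℕ) + 1 := by exact_mod_cast c1
  have d2 : (j k : ℕ) < (i k : ℕ) + 1 := by exact_mod_cast c2
  omega

theorem r5_cell (h : ℝ) :
    cell d h = {x : E d | ∀ k, x k ∈ Set.Ioo (-(1 / (2 * h))) (1 / (2 * h))} := by
  simp only [cell, abs_lt, Set.mem_Ioo]

theorem measurableSet_cell (h : ℝ) : MeasurableSet (cell d h) := by
  rw [r5_cell]
  exact measurableSet_box _ fun _ => measurableSet_Ioo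

theorem volume_cell_ne_top (h : ℝ) : volume (cell d h) ≠ ∞ := by
  rw [r5_cell, volume_box _ fun _ => measurableSet_Ioo]
  exact ENNReal.prod_ne_top fun _ _ => measure_Ioo_lt_top.ne

theorem r5_prod (h : ℝ) {n : ℕ} (i j : Fin d → Fin n) (x : E d) :
    ec (-⟪lat h i, x⟫) * conj (ec (-⟪lat h j, x⟫)) =
      ∏ k, ec (h * (((j k : ℕ) : ℤ) - ((i k : ℕ) : ℤ) : ℤ) * x k) := by
  rw [← LT.ec_neg, ← LT.ec_add, ← ec_sum, neg_neg, neg_add_eq_sub, ← inner_sub_left,
    PiLp.inner_apply]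
  congr 1
  refine Finset.sum_congr rfl fun k _ => ?_
  simp only [lat, PiLp.sub_apply, RCLike.inner_apply, conj_trivial]
  push_cast
  ring

theorem cell_frame {h : ℝ} (hh : 0 < h) {n : ℕ} (c : (Fin d → Fin n) → ℂ) :
    h ^ d * ∫ x in cell d h, ‖∑ i, conj (c i) * ec (-⟪lat h i, x⟫)‖ ^ 2 ≤ ∑ i, ‖c i‖ ^ 2 := by
  have hi : ∀ i j : Fin d → Fin n, IntegrableOn (fun x : E d => conj (c i) * c j *
      ∏ k, ec (h * (((j k : ℕ) : ℤ) - ((i k : ℕ) : ℤ) : ℤ) * x k)) (cell d h) := fun i j =>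
    Measure.integrableOn_of_bounded (M := ‖c i‖ * ‖c j‖) (volume_cell_ne_top h)
      (Continuous.aestronglyMeasurable (by fun_prop))
      (ae_of_all _ fun x => by simp [LT.norm_ec])
  have e : ∀ x : E d, ((‖∑ i, conj (c i) * ec (-⟪lat h i, x⟫)‖ ^ 2 : ℝ) : ℂ) = ∑ i, ∑ j,
      conj (c i) * c j * ∏ k, ec (h * (((j k : ℕ) : ℤ) - ((i k : ℕ) : ℤ) : ℤ) * x k) := by
    intro x
    rw [Complex.ofReal_pow, ← Complex.mul_conj', map_sum, Finset.sum_mul_sum]
    refine Finset.sum_congr rfl fun i _ => Finset.sum_congr rfl fun j _ => ?_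
    rw [← r5_prod, map_mul, Complex.conj_conj]
    ring
  have e2 : ∀ i j : Fin d → Fin n, ∫ x in cell d h, conj (c i) * c j *
      ∏ k, ec (h * (((j k : ℕ) : ℤ) - ((i k : ℕ) : ℤ) : ℤ) * x k) =
        if i = j then ((‖c i‖ ^ 2 / h ^ d : ℝ) : ℂ) else 0 := by
    intro i j
    rw [integral_const_mul, r5_cell, integral_box _ (fun _ => measurableSet_Ioo)
      fun k s => ec (h * (((j k : ℕ) : ℤ) - ((i k : ℕ) : ℤ) : ℤ) * s)]
    simp only [LT.integral_ec_int hh]
    split_ifs with hij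
    · subst hij
      rw [Complex.conj_mul']
      simp [div_eq_mul_inv]
    · obtain ⟨k, hk⟩ := Function.ne_iff.1 hij
      rw [Finset.prod_eq_zero (Finset.mem_univ k) (if_neg fun q => hk (Fin.ext (by omega))),
        mul_zero]
  refine le_of_eq (Complex.ofReal_injective ?_)
  rw [Complex.ofReal_mul, ← integral_complex_ofReal]
  simp only [e]
  rw [integral_finsetSum _ fun i _ => integrable_finsetSum _ fun j _ => hi i j,
    Finset.sum_congr rfl fun i _ => integral_finsetSum _ fun j _ => hi i j]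
  simp only [e2, Finset.sum_ite_eq, Finset.mem_univ, if_true]
  rw [← Complex.ofReal_sum, ← Complex.ofReal_mul, ← Finset.sum_div,
    mul_div_cancel₀ _ (pow_pos hh d).ne']

theorem le_norm_ww {h : ℝ} (hh : 0 < h) (z : E d) :
    h ^ d * (1 - 2 * Real.pi * (d * h) * ‖z‖) ≤ ‖ww (cube d h) z‖ := by
  have lt : (volume : Measure (E d)) (cube d h) < ∞ := by
    rw [volume_cube hh]
    exact ENNReal.ofReal_lt_top
  have b := norm_setIntegral_le_of_norm_le_const (f := fun s : E d => ec (-⟪s, z⟫) - 1)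
    (C := 2 * Real.pi * (d * h) * ‖z‖) lt fun s hs => by
      refine (LT.g3_ec _).trans ?_
      have h1 : |⟪s, z⟫| ≤ d * h * ‖z‖ := (abs_real_inner_le_norm s z).trans
        (mul_le_mul_of_nonneg_right (norm_le_of_mem_cube hs) (norm_nonneg _))
      rw [abs_neg, mul_assoc (2 * Real.pi)]
      exact mul_le_mul_of_nonneg_left h1 Real.two_pi_pos.le
  have i1 : IntegrableOn (fun _ : E d => (1 : ℂ)) (cube d h) := integrableOn_const lt.ne
  have c : Continuous fun s : E d => ec (-⟪s, z⟫) := by fun_prop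
  have i2 : IntegrableOn (fun s : E d => ec (-⟪s, z⟫)) (cube d h) :=
    Measure.integrableOn_of_bounded lt.ne c.aestronglyMeasurable (M := 1)
      (Filter.Eventually.of_forall fun s => (LT.norm_ec _).le)
  rw [integral_sub i2 i1, setIntegral_const, real_cube hh] at b
  have t := norm_sub_norm_le ((h ^ d : ℝ) • (1 : ℂ)) (ww (cube d h) z)
  rw [norm_sub_rev, norm_smul, norm_one, Real.norm_of_nonneg (by positivity)] at t
  rw [← ww] at b
  linarith

end Pool.Agent.P.MP_9f4f5e_mp.RL
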