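import Pool.Agent.P.MP_9f4f5e_mp.RL.G1
import Pool.Agent.P.MP_9f4f5e_mp.RL.R5

set_option linter.unusedSectionVars false
set_option linter.unusedVariables false

open MeasureTheory Matrix
open scoped ENNReal ComplexOrder ComplexConjugate FourierTransform RealInnerProductSpace
open Pool.Agent.P.MP_9f4f5e_mp.LT (tp pp dg qf ec fej Spec)

noncomputable section

namespace Pool.Agent.P.MP_9f4f5e_mp.RL

variable {d : ℕ} {ι κ : Type} [Fintype ι] [DecidableEq ι] [Fintype κ]

/-- the momentum cell with corner at a lattice point -/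
def w3cell (h : ℝ) (k : Fin d → ℤ) : Set (E d) :=
  {ξ | ∀ i, ξ i ∈ Set.Ico (h * (k i : ℝ)) (h * (k i : ℝ) + h)}

theorem w3_meas (h : ℝ) (k : Fin d → ℤ) : MeasurableSet (w3cell h k) :=
  measurableSet_box (fun i => Set.Ico (h * (k i : ℝ)) (h * (k i : ℝ) + h))
    fun _ => measurableSet_Ico

theorem w3_vol {h : ℝ} (hh : 0 < h) (k : Fin d → ℤ) :
    volume (w3cell h k) = ENNReal.ofReal (h ^ d) := by
  have := volume_box (fun i => Set.Ico (h * (k i : ℝ)) (h * (k i : ℝ) + h))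
    fun _ => measurableSet_Ico
  unfold w3cell
  rw [this]
  simp only [Real.volume_Ico, add_sub_cancel_left, Finset.prod_const, Finset.card_univ,
    Fintype.card_fin]
  rw [ENNReal.ofReal_pow hh.le]

theorem w3_mem {h : ℝ} (hh : 0 < h) (ξ : E d) : ξ ∈ w3cell h fun i => ⌊ξ i / h⌋ := fun i => by
  have h1 := Int.floor_le (ξ i / h)
  have h2 := Int.lt_floor_add_one (ξ i / h)
  rw [le_div_iff₀ hh] at h1
  rw [div_lt_iff₀ hh] at h2
  exact ⟨by linarith, by linarith⟩

theorem w3_sym (m : ℝ) {h : ℝ} {k : Fin d → ℤ} {ξ : E d} (hξ : ξ ∈ w3cell h k) :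
    sym m (zl h k) ≤ sym m ξ + 2 * Real.pi * (d * h) := by
  have h1 := sym_lip m (zl h k) (ξ - zl h k)
  rw [add_sub_cancel] at h1
  have h2 : ‖ξ - zl h k‖ ≤ d * h := norm_le_of_coord fun i => by
    have h3 := hξ i
    have h4 : (ξ - zl h k) i = ξ i - h * (k i : ℝ) := rfl
    rw [h4, abs_le]
    exact ⟨by linarith [h3.1, h3.2], by linarith [h3.1, h3.2]⟩
  have := mul_le_mul_of_nonneg_left h2 (by positivity : (0 : ℝ) ≤ 2 * Real.pi)
  linarith

theorem riemann (m : ℝ) {γ : ℝ} (hγ : 0 < γ) {h : ℝ} (hh : 0 < h) (b : ℝ) :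
    ∃ F : Finset (Fin d → ℤ),
      ∫⁻ ξ : E d, ENNReal.ofReal (b - 2 * Real.pi * (d * h) - sym m ξ) ^ γ
        ≤ ENNReal.ofReal (h ^ d * ∑ k ∈ F, max (b - sym m (zl h k)) 0 ^ γ) := by
  have hπ := Real.pi_pos
  let R : ℤ := ⌈(b + m) / (2 * Real.pi) / h⌉
  let F : Finset (Fin d → ℤ) := Fintype.piFinset fun _ => Finset.Icc (-R) R
  let c : (Fin d → ℤ) → ℝ := fun k => max (b - sym m (zl h k)) 0 ^ γ
  have hc : ∀ k, 0 ≤ c k := fun k => Real.rpow_nonneg (le_max_right _ _) _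
  refine ⟨F, ?_⟩
  have key : ∀ ξ : E d, ENNReal.ofReal (b - 2 * Real.pi * (d * h) - sym m ξ) ^ γ
      ≤ ∑ k ∈ F, (w3cell h k).indicator (fun _ => ENNReal.ofReal (c k)) ξ := fun ξ => by
    rcases le_or_gt (b - 2 * Real.pi * (d * h) - sym m ξ) 0 with h0 | h0
    · rw [ENNReal.ofReal_of_nonpos h0, ENNReal.zero_rpow_of_pos hγ]
      exact zero_le
    have h1 : ‖ξ‖ ≤ (b + m) / (2 * Real.pi) := by
      rw [le_div_iff₀ (by positivity)]
      have h2 := sym_ge m ξ
      have h3 : 0 ≤ 2 * Real.pi * (d * h) := by positivity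
      linarith
    have hk : (fun i => ⌊ξ i / h⌋) ∈ F := by
      refine Fintype.mem_piFinset.2 fun i => Finset.mem_Icc.2 ?_
      have h2 : |ξ i| ≤ (b + m) / (2 * Real.pi) := (PiLp.norm_apply_le ξ i).trans h1
      have h3 : (b + m) / (2 * Real.pi) / h ≤ R := Int.le_ceil _
      rw [abs_le] at h2
      have h4 : ξ i / h ≤ (b + m) / (2 * Real.pi) / h := div_le_div_of_nonneg_right h2.2 hh.le
      have h5 : -((b + m) / (2 * Real.pi)) / h ≤ ξ i / h := div_le_div_of_nonneg_right h2.1 hh.le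
      rw [neg_div] at h5
      refine ⟨Int.le_floor.2 ?_, ?_⟩
      · push_cast
        linarith
      · have h6 := Int.floor_le (ξ i / h)
        exact Int.cast_le.1 (h6.trans (h4.trans h3))
    refine le_trans ?_ (Finset.single_le_sum
      (f := fun k => (w3cell h k).indicator (fun _ => ENNReal.ofReal (c k)) ξ)
      (fun _ _ => zero_le) hk)
    rw [Set.indicator_of_mem (w3_mem hh ξ),
      ← ENNReal.ofReal_rpow_of_nonneg (le_max_right _ _) hγ.le]
    refine ENNReal.rpow_le_rpow (ENNReal.ofReal_le_ofReal (le_max_of_le_left ?_)) hγ.le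
    have := w3_sym m (w3_mem hh ξ)
    linarith
  refine (lintegral_mono key).trans (le_of_eq ?_)
  rw [lintegral_finsetSum _ fun k _ => measurable_const.indicator (w3_meas h k), Finset.mul_sum,
    ENNReal.ofReal_sum_of_nonneg fun k _ => mul_nonneg (pow_nonneg hh.le d) (hc k)]
  refine Finset.sum_congr rfl fun k _ => ?_
  rw [lintegral_indicator_const (w3_meas h k), w3_vol hh, ENNReal.ofReal_mul (pow_nonneg hh.le d),
    mul_comm]

end Pool.Agent.P.MP_9f4f5e_mp.RL
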