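import Pool.Agent.P.MP_9f4f5e_mp.RL.W2
import Pool.Agent.P.MP_9f4f5e_mp.RL.W3

set_option linter.unusedSectionVars false
set_option linter.unusedVariables false

open MeasureTheory Matrix
open scoped ENNReal ComplexOrder ComplexConjugate FourierTransform RealInnerProductSpace
open Pool.Agent.P.MP_9f4f5e_mp.LT (tp pp dg qf ec fej Spec)

noncomputable section

namespace Pool.Agent.P.MP_9f4f5e_mp.RL

variable {d : ℕ} {ι κ : Type} [Fintype ι] [DecidableEq ι] [Fintype κ]

theorem phi_pos {m : ℝ} (hm : 0 ≤ m) {γ : ℝ} (hγ : 0 < γ) :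
    ∫⁻ ξ : E d, ENNReal.ofReal (1 - sym m ξ) ^ γ ≠ 0 := by
  have hπ := Real.pi_pos
  have hr : (0 : ℝ) < 1 / (4 * Real.pi) := by positivity
  have h1 : ENNReal.ofReal (1 / 2) ^ γ * volume (Metric.ball (0 : E d) (1 / (4 * Real.pi)))
      ≤ ∫⁻ ξ : E d, ENNReal.ofReal (1 - sym m ξ) ^ γ := by
    rw [← lintegral_indicator_const measurableSet_ball]
    refine lintegral_mono fun ξ => ?_
    by_cases hξ : ξ ∈ Metric.ball (0 : E d) (1 / (4 * Real.pi))
    · rw [Set.indicator_of_mem hξ]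
      refine ENNReal.rpow_le_rpow (ENNReal.ofReal_le_ofReal ?_) hγ.le
      have h2 := sym_le hm ξ
      rw [mem_ball_zero_iff, lt_div_iff₀ (by positivity)] at hξ
      nlinarith
    · rw [Set.indicator_of_notMem hξ]
      exact zero_le
  refine (lt_of_lt_of_le ?_ h1).ne'
  refine ENNReal.mul_pos ?_ (Metric.measure_ball_pos volume _ hr).ne'
  exact (ENNReal.rpow_pos (ENNReal.ofReal_pos.2 (by norm_num)) ENNReal.ofReal_ne_top).ne'

theorem w4_step {m γ C : ℝ} (hγ : 0 < γ) (H : LiebThirring d m γ C) {h : ℝ} (hh : 0 < h) :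
    ∫⁻ ξ : E d, ENNReal.ofReal (1 - (1 + 4 * Real.pi * d) * h - sym m ξ) ^ γ
      ≤ ENNReal.ofReal C * ∫⁻ ξ : E d, ENNReal.ofReal (1 - sym m ξ) ^ γ := by
  obtain ⟨F, hF⟩ := riemann (d := d) m hγ hh (1 - h - 2 * Real.pi * (d * h))
  have h2 := lower_sum hγ H hh hh F
  have e1 : 1 - h - 2 * Real.pi * (d * h) - 2 * Real.pi * (d * h)
      = 1 - (1 + 4 * Real.pi * d) * h := by ring
  have e2 : ∀ k : Fin d → ℤ, 1 - h - 2 * Real.pi * (d * h) - sym m (zl h k)
      = 1 - h - sym m (zl h k) - 2 * Real.pi * (d * h) := fun k => by ring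
  rw [e1] at hF
  simp only [e2] at hF
  exact hF.trans h2

theorem lt_lower {m γ C : ℝ} (hm : 0 ≤ m) (hγ : 0 < γ) (H : LiebThirring d m γ C) : 1 ≤ C := by
  set Φ := ∫⁻ ξ : E d, ENNReal.ofReal (1 - sym m ξ) ^ γ with hΦ
  let K : ℝ := 1 + 4 * Real.pi * d
  let f : ℕ → E d → ℝ≥0∞ := fun n ξ =>
    ENNReal.ofReal (1 - K * (1 / ((n : ℝ) + 1)) - sym m ξ) ^ γ
  have hf : ∀ n, Measurable (f n) := fun n =>
    (ENNReal.continuous_rpow_const.comp (ENNReal.continuous_ofReal.comp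
      (continuous_const.sub (continuous_sym m)))).measurable
  have ht : ∀ ξ : E d, Filter.Tendsto (fun n => f n ξ) Filter.atTop
      (nhds (ENNReal.ofReal (1 - sym m ξ) ^ γ)) := fun ξ => by
    have h0 : Filter.Tendsto (fun n : ℕ => 1 - K * (1 / ((n : ℝ) + 1)) - sym m ξ) Filter.atTop
        (nhds (1 - K * 0 - sym m ξ)) :=
      (tendsto_const_nhds.sub (tendsto_one_div_add_atTop_nhds_zero_nat.const_mul K)).sub
        tendsto_const_nhds
    rw [mul_zero, sub_zero] at h0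
    exact ((ENNReal.continuous_rpow_const.comp ENNReal.continuous_ofReal).tendsto _).comp h0
  have h1 : Φ ≤ ENNReal.ofReal C * Φ := by
    have h2 := lintegral_liminf_le (μ := (volume : Measure (E d))) (u := Filter.atTop) hf
    simp only [fun ξ => (ht ξ).liminf_eq] at h2
    refine h2.trans (Filter.liminf_le_of_frequently_le' (Filter.Frequently.of_forall fun n => ?_))
    exact w4_step hγ H (by positivity)
  have h3 : 1 ≤ ENNReal.ofReal C := by
    rwa [← ENNReal.mul_le_mul_iff_left (phi_pos hm hγ) (phi_fin m hγ), one_mul]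
  exact ENNReal.one_le_ofReal.1 h3

end Pool.Agent.P.MP_9f4f5e_mp.RL
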