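import Pool.Agent.P.MP_9f4f5e_mp.RL.R11
import Pool.Agent.P.MP_9f4f5e_mp.RL.W4

set_option linter.unusedSectionVars false
set_option linter.unusedVariables false

open MeasureTheory Matrix
open scoped ENNReal ComplexOrder ComplexConjugate FourierTransform RealInnerProductSpace
open Pool.Agent.P.MP_9f4f5e_mp.LT (tp pp dg qf ec fej Spec)

noncomputable section

namespace Pool.Agent.P.MP_9f4f5e_mp.RL

variable {d : ℕ} {ι κ : Type} [Fintype ι] [DecidableEq ι] [Fintype κ]

theorem sharp (d : ℕ) {m γ : ℝ} (hm : 0 ≤ m) (hγ : 3 ≤ γ) :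
    IsLeast {C : ℝ | LiebThirring d m γ C} 1 :=
  ⟨lt_upper hm hγ, fun _ hC => lt_lower hm (by linarith) hC⟩

end Pool.Agent.P.MP_9f4f5e_mp.RL
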