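import Pool.Agent.P.MP_9f4f5e_mp.RL.Defs

set_option linter.unusedSectionVars false
set_option linter.unusedVariables false

open MeasureTheory Matrix
open scoped ENNReal ComplexOrder ComplexConjugate FourierTransform RealInnerProductSpace
open Pool.Agent.P.MP_9f4f5e_mp.LT (tp pp dg qf ec fej Spec)

noncomputable section

namespace Pool.Agent.P.MP_9f4f5e_mp.RL

variable {d : ℕ} {ι κ : Type} [Fintype ι] [DecidableEq ι] [Fintype κ]

theorem grid_sum (W b : ℕ → ℕ → ℝ) (I J : ℕ)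
    (h : ∀ i j, i < I → j < J → W (i + 1) (j + 1) + W i j - W (i + 1) j - W i (j + 1) ≤ b i j) :
    W 0 0 ≤ W I 0 + W 0 J - W I J + ∑ i ∈ Finset.range I, ∑ j ∈ Finset.range J, b i j := by
  induction I with
  | zero => simp
  | succ I ih =>
    have h1 := ih fun i j hi hj => h i j (by omega) hj
    have h2 : ∑ j ∈ Finset.range J, ((W (I + 1) (j + 1) - W I (j + 1)) - (W (I + 1) j - W I j))
        = (W (I + 1) J - W I J) - (W (I + 1) 0 - W I 0) :=
      Finset.sum_range_sub (fun j => W (I + 1) j - W I j) J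
    have h3 : ∑ j ∈ Finset.range J, ((W (I + 1) (j + 1) - W I (j + 1)) - (W (I + 1) j - W I j))
        ≤ ∑ j ∈ Finset.range J, b I j :=
      Finset.sum_le_sum fun j hj => by
        have := h I j (by omega) (Finset.mem_range.1 hj)
        linarith
    rw [Finset.sum_range_succ]
    linarith

theorem o1_q {m0 s : ℝ} (hm0 : 0 < m0) (hs : 0 < s) (J : ℕ) :
    ∑ j ∈ Finset.range J, (s / 2) ^ 2 / (m0 + (j + 1) * s / 2) ^ 2 ≤ s / (2 * m0) := by
  have key : ∀ J : ℕ, ∑ j ∈ Finset.range J, (s / 2) ^ 2 / (m0 + (j + 1) * s / 2) ^ 2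
      ≤ s / (2 * m0) - s / (2 * (m0 + J * s / 2)) := by
    intro J
    induction J with
    | zero => simp
    | succ J ih =>
      rw [Finset.sum_range_succ]
      have hJ : (0 : ℝ) ≤ J := Nat.cast_nonneg J
      have ha : 0 < m0 + J * s / 2 := by positivity
      have hb : 0 < m0 + (J + 1) * s / 2 := by positivity
      have h1 : (s / 2) ^ 2 / (m0 + (J + 1) * s / 2) ^ 2
          ≤ (s / 2) ^ 2 / ((m0 + J * s / 2) * (m0 + (J + 1) * s / 2)) :=
        div_le_div_of_nonneg_left (by positivity) (by positivity) (by nlinarith)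
      have h2 : (s / 2) ^ 2 / ((m0 + J * s / 2) * (m0 + (J + 1) * s / 2))
          = s / (2 * (m0 + J * s / 2)) - s / (2 * (m0 + (J + 1) * s / 2)) := by
        field_simp
        ring
      push_cast
      linarith
  have h0 : 0 ≤ s / (2 * (m0 + J * s / 2)) := by positivity
  linarith [key J]

theorem o1_count {δ s : ℝ} (hδ : 0 ≤ δ) (hs : 0 < s) (I : ℕ) :
    ∑ i ∈ Finset.range I, (if (i : ℝ) * s < δ then s else 0) ≤ δ + s := by
  have key : ∀ I : ℕ, ∑ i ∈ Finset.range I, (if (i : ℝ) * s < δ then s else 0) ≤ I * s ∧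
      ∑ i ∈ Finset.range I, (if (i : ℝ) * s < δ then s else 0) ≤ δ + s := by
    intro I
    induction I with
    | zero => simp; linarith
    | succ I ih =>
      rw [Finset.sum_range_succ]
      push_cast
      split_ifs with h
      · constructor <;> linarith [ih.1]
      · constructor <;> linarith [ih.1, ih.2]
  exact (key I).2

theorem o1_ceil {A s : ℝ} (hA : 0 ≤ A) (hs : 0 < s) (hs1 : s ≤ 1) :
    ∃ I : ℕ, A ≤ I * s ∧ I * s ≤ A + 1 := by
  refine ⟨⌈A / s⌉₊, (div_le_iff₀ hs).1 (Nat.le_ceil _), ?_⟩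
  have h1 := (Nat.ceil_lt_add_one (div_nonneg hA hs.le)).le
  have h2 := mul_le_mul_of_nonneg_right h1 hs.le
  rw [add_mul, div_mul_cancel₀ _ hs.ne'] at h2
  linarith

theorem strip (W : ℝ → ℝ → ℝ) {c X m0 : ℝ} (hc : 0 ≤ c) (hm0 : 0 < m0)
    (h1 : ∀ x y, X ≤ x → 0 ≤ x → 0 ≤ y → W x y = 0)
    (h2 : ∀ η : ℝ, 0 < η → ∃ H : ℝ, ∀ x y, 0 ≤ x → 0 ≤ y → H ≤ y → W x y ≤ η)
    (h3 : ∀ H : ℝ, ∃ C s0 : ℝ, 0 < s0 ∧ ∀ x y s, 0 ≤ x → x ≤ H → 0 ≤ y → y ≤ H → 0 < s → s ≤ s0 →
      W (x + s) (y + s) + W x y - W (x + s) y - W x (y + s)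
        ≤ c * (s / 2) ^ 2 / (m0 + (x + y + s) / 2) ^ 2 * W (x + s / 2) (y + s / 2) + C * s ^ 3)
    {x1 δ B : ℝ} (hδ : 0 ≤ δ) (hB0 : 0 ≤ B)
    (hB : ∀ x y, 0 ≤ x → x1 - δ ≤ x → 0 ≤ y → W x y ≤ B)
    (h0 : ∀ x y, 0 ≤ x → x1 ≤ x → 0 ≤ y → W x y ≤ 0) :
    ∀ x y, 0 ≤ x → x1 - δ ≤ x → 0 ≤ y → W x y ≤ c * δ / (2 * m0) * B := by
  intro x y hx hx1 hy
  refine le_of_forall_pos_le_add fun η hη => ?_
  obtain ⟨H, hH⟩ := h2 (η / 2) (by linarith)
  obtain ⟨C, s0, hs0, hC⟩ := h3 (x + y + |X| + |H| + 2)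
  have hX := abs_nonneg X
  have hH0 := abs_nonneg H
  have hC0 := abs_nonneg C
  set A : ℝ := c * B / (2 * m0) + |C| * ((|X| + 1) * (|H| + 1)) with hA
  have hA0 : 0 ≤ A := by positivity
  obtain ⟨s, hs, hs1, hs2, hs3⟩ : ∃ s : ℝ, 0 < s ∧ s ≤ s0 ∧ s ≤ 1 ∧ s * A ≤ η / 2 := by
    refine ⟨min (min s0 1) (η / 2 / (A + 1)), by positivity,
      (min_le_left _ _).trans (min_le_left _ _), (min_le_left _ _).trans (min_le_right _ _), ?_⟩
    have h4 : min (min s0 1) (η / 2 / (A + 1)) ≤ η / 2 / (A + 1) := min_le_right _ _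
    have h5 : η / 2 / (A + 1) * (A + 1) = η / 2 := div_mul_cancel₀ _ (by positivity)
    have h6 : 0 < η / 2 / (A + 1) := by positivity
    nlinarith [mul_le_mul_of_nonneg_right h4 hA0]
  obtain ⟨I, hI1, hI2⟩ := o1_ceil hX hs hs2
  obtain ⟨J, hJ1, hJ2⟩ := o1_ceil hH0 hs hs2
  have hG := grid_sum (fun i j => W (x + i * s) (y + j * s))
    (fun i j => (if (i : ℝ) * s < δ then s else 0) *
      (c * B / s * ((s / 2) ^ 2 / (m0 + (j + 1) * s / 2) ^ 2)) + |C| * s ^ 3) I J (by
      intro i j hi hj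
      have hi0 : (0 : ℝ) ≤ i * s := by positivity
      have hj0 : (0 : ℝ) ≤ j * s := by positivity
      have hi1 : (i : ℝ) * s ≤ I * s :=
        mul_le_mul_of_nonneg_right (by exact_mod_cast hi.le) hs.le
      have hj1 : (j : ℝ) * s ≤ J * s :=
        mul_le_mul_of_nonneg_right (by exact_mod_cast hj.le) hs.le
      have h4 := hC (x + i * s) (y + j * s) s (by linarith) (by linarith) (by linarith)
        (by linarith) hs hs1
      have e1 : x + ((i + 1 : ℕ) : ℝ) * s = x + i * s + s := by push_cast; ring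
      have e2 : y + ((j + 1 : ℕ) : ℝ) * s = y + j * s + s := by push_cast; ring
      simp only [e1, e2]
      refine h4.trans (add_le_add ?_
        (mul_le_mul_of_nonneg_right (le_abs_self C) (by positivity)))
      have hp : 0 < m0 + (j + 1) * s / 2 := by positivity
      have hq : c * (s / 2) ^ 2 / (m0 + (x + i * s + (y + j * s) + s) / 2) ^ 2
          ≤ c * (s / 2) ^ 2 / (m0 + (j + 1) * s / 2) ^ 2 :=
        div_le_div_of_nonneg_left (by positivity) (by positivity)
          (pow_le_pow_left₀ hp.le (by linarith) 2)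
      have hq0 : 0 ≤ c * (s / 2) ^ 2 / (m0 + (x + i * s + (y + j * s) + s) / 2) ^ 2 := by
        positivity
      split_ifs with h5
      · have h6 := hB (x + i * s + s / 2) (y + j * s + s / 2) (by linarith) (by linarith)
          (by linarith)
        refine (mul_le_mul_of_nonneg_left h6 hq0).trans
          ((mul_le_mul_of_nonneg_right hq hB0).trans (le_of_eq ?_))
        field_simp
      · have h6 := h0 (x + i * s + s / 2) (y + j * s + s / 2) (by linarith)
          (by linarith [not_lt.1 h5]) (by linarith)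
        rw [zero_mul]
        exact mul_nonpos_of_nonneg_of_nonpos hq0 h6)
  have hIs : (0 : ℝ) ≤ I * s := by positivity
  have hJs : (0 : ℝ) ≤ J * s := by positivity
  simp only [Nat.cast_zero, zero_mul, add_zero] at hG
  rw [h1 (x + I * s) y (by linarith [le_abs_self X]) (by linarith) hy,
    h1 (x + I * s) (y + J * s) (by linarith [le_abs_self X]) (by linarith) (by linarith)] at hG
  have h7 := hH x (y + J * s) hx (by linarith) (by linarith [le_abs_self H])
  simp only [Finset.sum_add_distrib, ← Finset.mul_sum, ← Finset.sum_mul, Finset.sum_const,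
    Finset.card_range, nsmul_eq_mul] at hG
  have h8 := o1_q hm0 hs J
  have h9 := o1_count hδ hs I
  have h10 : 0 ≤ ∑ j ∈ Finset.range J, (s / 2) ^ 2 / (m0 + (j + 1) * s / 2) ^ 2 :=
    Finset.sum_nonneg fun j _ => by positivity
  have h11 : (∑ i ∈ Finset.range I, (if (i : ℝ) * s < δ then s else 0)) *
      (c * B / s * ∑ j ∈ Finset.range J, (s / 2) ^ 2 / (m0 + (j + 1) * s / 2) ^ 2)
      ≤ (δ + s) * (c * B / s * (s / (2 * m0))) :=
    mul_le_mul h9 (mul_le_mul_of_nonneg_left h8 (by positivity)) (by positivity) (by positivity)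
  have h12 : (δ + s) * (c * B / s * (s / (2 * m0)))
      = c * δ / (2 * m0) * B + s * (c * B / (2 * m0)) := by
    field_simp
  have h13 : (I : ℝ) * (J * (|C| * s ^ 3)) ≤ s * (|C| * ((|X| + 1) * (|H| + 1))) := by
    have := mul_le_mul hI2 hJ2 hJs (by positivity)
    have h14 := mul_le_mul_of_nonneg_left this (mul_nonneg hs.le hC0)
    nlinarith
  have h15 : s * A = s * (c * B / (2 * m0)) + s * (|C| * ((|X| + 1) * (|H| + 1))) := by
    rw [hA]; ring
  linarith

end Pool.Agent.P.MP_9f4f5e_mp.RL
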