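import Pool.Agent.P.MP_9f4f5e_mp.RL.A1
import Pool.Agent.P.MP_9f4f5e_mp.RL.A2
import Pool.Agent.P.MP_9f4f5e_mp.RL.G2

set_option linter.unusedSectionVars false
set_option linter.unusedVariables false

open MeasureTheory Matrix
open scoped ENNReal ComplexOrder ComplexConjugate FourierTransform RealInnerProductSpace
open Pool.Agent.P.MP_9f4f5e_mp.LT (tp pp dg qf ec fej Spec)

noncomputable section

namespace Pool.Agent.P.MP_9f4f5e_mp.RL

variable {d : ℕ} {ι κ : Type} [Fintype ι] [DecidableEq ι] [Fintype κ]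

theorem p1x_move {M : Matrix ι ι ℂ} (hM : M.IsHermitian) (g g' : ι → ℝ) {e : ℝ}
    (hg : ∀ i, |g i| ≤ e) (hg' : ∀ i, |g' i| ≤ e) :
    tp 3 (M - dg g) + tp 3 (M - dg g') - 2 * tp 3 M ≤ -(3 * ∑ i, p2 M i * (g i + g' i))
      + 3 * ∑ i, p1 M i * (g i ^ 2 + g' i ^ 2) + 4 * Fintype.card ι * e ^ 3 := by
  have h1 := tp3_up hM g hg
  have h2 := tp3_up hM g' hg'
  simp only [mul_add, Finset.sum_add_distrib]
  linarith

theorem p1x_bd {V : Matrix ι ι ℂ} (hV : V.IsHermitian) {K : ℝ} (hK : Bd V K) (a : ι → E d)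
    (t : E d) {m z Z : ℝ} (hm : 0 ≤ m) (hz : z ≤ Z) {k : ℕ} (hk : k ≠ 0) :
    tp k (MM V a t m z) ≤ Fintype.card ι * max (K + Z) 0 ^ k :=
  tp_le_of_bd (MM_herm hV a t m z)
    ((MM_bd hK a t m z).mono (le_trans (by linarith) (le_max_left _ _))) (le_max_right _ _) hk

theorem p1x_z {M : Matrix ι ι ℂ} (hM : M.IsHermitian) {ε : ℝ} (hε : 0 ≤ ε) :
    6 * ε ^ 2 * tp 1 M - 2 * Fintype.card ι * ε ^ 3
      ≤ tp 3 (M - dg fun _ => -ε) + tp 3 (M - dg fun _ => - -ε) - 2 * tp 3 M := by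
  have h1 := tp3_sc hM (-ε)
  have h2 := tp3_sc hM (- -ε)
  rw [abs_neg, abs_of_nonneg hε] at h1
  rw [abs_neg, abs_neg, abs_of_nonneg hε] at h2
  nlinarith

theorem est_up {V : Matrix ι ι ℂ} (hV : V.IsHermitian) {K : ℝ} (hK : Bd V K) {m1 : ℝ}
    (hm1 : 0 < m1) (Z : ℝ) :
    ∃ C : ℝ, 0 ≤ C ∧ ∀ (a : ι → E d) (t : E d) (m z ε : ℝ), m1 ≤ m → z ≤ Z → 0 ≤ ε → ε ≤ 1 →
      E1 V a t m z ε ≤ -(3 * d * ε ^ 2 * QQ V a t m z) + C * ε ^ 3 ∧
      -(6 * ε * m * QQ V a t m z) - C * ε ^ 2 ≤ TT V a t (m + ε) z - TT V a t (m - ε) z := by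
  obtain ⟨L, hL⟩ : ∃ L, L = max (K + Z) 0 := ⟨_, rfl⟩
  have hL0 : 0 ≤ L := hL ▸ le_max_right _ _
  obtain ⟨N, hN⟩ : ∃ N : ℝ, N = Fintype.card ι := ⟨_, rfl⟩
  have hN0 : 0 ≤ N := hN ▸ Nat.cast_nonneg _
  have hd : (0 : ℝ) ≤ d := Nat.cast_nonneg d
  refine ⟨3 * (N * L ^ 2) * ((d + 1) / m1 ^ 2 + 1 / m1) + 3 * (N * L) * (2 * (d + 1) / m1 + 1)
    + (4 * d + 6) * N, by positivity, fun a t m z ε hm hz hε hε1 => ?_⟩
  have hm0 : 0 < m := hm1.trans_le hm
  have hM := MM_herm hV a t m z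
  have b1 := p1x_bd hV hK a t hm0.le hz one_ne_zero
  have b2 := p1x_bd hV hK a t hm0.le hz two_ne_zero
  rw [← hL, ← hN] at b1 b2
  rw [pow_one] at b1
  have hab : |ε| ≤ ε := (abs_of_nonneg hε).le
  have hab' : |-ε| ≤ ε := by rwa [abs_neg]
  simp only [E1, S2, TT, QQ, sub_eq_add_neg m ε, sub_eq_add_neg z ε, MM_t, MM_m, MM_z]
  generalize MM V a t m z = M at hM b1 b2
  have s1 := sum_p1 hM
  have s2 := sum_p2 hM
  have n1 := LT.tp_nonneg hM 1
  have n2 := LT.tp_nonneg hM 2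
  have e3 : 0 ≤ ε ^ 3 := by positivity
  have e2 : 0 ≤ ε ^ 2 := by positivity
  have i1 : ε ^ 2 / m ≤ ε ^ 2 * (1 / m1) := by
    rw [mul_one_div]
    exact div_le_div_of_nonneg_left e2 hm1 hm
  have i2 : 2 * (d + 1) * ε ^ 3 / m ≤ ε ^ 3 * (2 * (d + 1) / m1) := by
    rw [← mul_div_assoc, mul_comm (ε ^ 3)]
    exact div_le_div_of_nonneg_left (by positivity) hm1 hm
  have i3 : (d + 1) * ε ^ 3 / m ^ 2 ≤ ε ^ 3 * ((d + 1) / m1 ^ 2) := by
    rw [← mul_div_assoc, mul_comm (ε ^ 3)]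
    exact div_le_div_of_nonneg_left (by positivity) (by positivity)
      (pow_le_pow_left₀ hm1.le hm 2)
  have c1 : 0 ≤ ε ^ 3 * (3 * (N * L ^ 2) * (1 / m1)) := by positivity
  have c2 : 0 ≤ ε ^ 3 * (3 * (N * L)) := by positivity
  constructor
  · have h1 := Finset.sum_le_sum fun (k : Fin d) (_ : k ∈ Finset.univ) =>
      p1x_move hM (fun i => gt (a i - t) m ε k) (fun i => gt (a i - t) m (-ε) k)
        (fun i => (gt_abs _ _ _ _).trans hab) (fun i => (gt_abs _ _ _ _).trans hab')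
    have h2 := p1x_move hM (fun i => gm (a i - t) m ε) (fun i => gm (a i - t) m (-ε))
      (fun i => (gm_abs _ _ _).trans hab) (fun i => (gm_abs _ _ _).trans hab')
    have h3 := p1x_z hM hε
    have h4 : ∑ i, (d * ε ^ 2 * (p2 M i / om (a i - t) m)
        - p2 M i * (ε ^ 3 * ((d + 1) / m1 ^ 2))) ≤
        ∑ i, (∑ k, p2 M i * (gt (a i - t) m ε k + gt (a i - t) m (-ε) k)
          + p2 M i * (gm (a i - t) m ε + gm (a i - t) m (-ε))) :=
      Finset.sum_le_sum fun i _ => by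
        have := mul_le_mul_of_nonneg_left
          (neg_le_of_abs_le ((incr_sum (a i - t) hm0 hε).trans i3)) (p2_nonneg hM i)
        rw [← Finset.mul_sum]
        have e : d * ε ^ 2 * (p2 M i / om (a i - t) m) = p2 M i * (d * ε ^ 2 / om (a i - t) m) := by
          ring
        rw [e]
        linarith
    have h5 : ∑ i, (∑ k, p1 M i * (gt (a i - t) m ε k ^ 2 + gt (a i - t) m (-ε) k ^ 2)
          + p1 M i * (gm (a i - t) m ε ^ 2 + gm (a i - t) m (-ε) ^ 2)) ≤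
        ∑ i, p1 M i * (2 * ε ^ 2 + ε ^ 3 * (2 * (d + 1) / m1)) :=
      Finset.sum_le_sum fun i _ => by
        have := mul_le_mul_of_nonneg_left
          (le_of_abs_le ((incr_sq (a i - t) hm0 hε).trans i2)) (p1_nonneg hM i)
        rw [← Finset.mul_sum]
        linarith
    rw [Finset.sum_sub_distrib, ← Finset.mul_sum, ← Finset.sum_mul, s2, Finset.sum_add_distrib,
      Finset.sum_comm] at h4
    rw [← Finset.sum_mul, s1, Finset.sum_add_distrib, Finset.sum_comm] at h5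
    rw [Finset.sum_add_distrib (g := fun _ => 4 * (Fintype.card ι : ℝ) * ε ^ 3),
      Finset.sum_add_distrib (f := fun k => -(3 * ∑ i, p2 M i *
        (gt (a i - t) m ε k + gt (a i - t) m (-ε) k))), Finset.sum_neg_distrib, ← Finset.mul_sum,
      ← Finset.mul_sum, Finset.sum_const, Finset.card_univ, Fintype.card_fin, nsmul_eq_mul] at h1
    rw [← hN] at h1 h2 h3
    have h6 := mul_le_mul_of_nonneg_right b2 (show 0 ≤ ε ^ 3 * ((d + 1) / m1 ^ 2) by positivity)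
    have h7 := mul_le_mul_of_nonneg_right b1 (show 0 ≤ ε ^ 3 * (2 * (d + 1) / m1) by positivity)
    linarith
  · have h1 := tp3_low hM fun i => gm (a i - t) m ε
    have h2 := tp3_up hM (fun i => gm (a i - t) m (-ε)) fun i => (gm_abs _ _ _).trans hab'
    have h4 : ∑ i, (p2 M i * gm (a i - t) m ε - p2 M i * gm (a i - t) m (-ε)) ≤
        ∑ i, (2 * ε * m * (p2 M i / om (a i - t) m) + p2 M i * (ε ^ 2 * (1 / m1))) :=
      Finset.sum_le_sum fun i _ => by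
        have := mul_le_mul_of_nonneg_left
          (le_of_abs_le ((incr_m (a i - t) hm0 hε).trans i1)) (p2_nonneg hM i)
        have e : 2 * ε * m * (p2 M i / om (a i - t) m) = p2 M i * (2 * ε * m / om (a i - t) m) := by
          ring
        rw [e]
        linarith
    have h5 : ∑ i, p1 M i * gm (a i - t) m (-ε) ^ 2 ≤ ∑ i, p1 M i * ε ^ 2 :=
      Finset.sum_le_sum fun i _ => mul_le_mul_of_nonneg_left
        (sq_le_sq' (neg_le_of_abs_le ((gm_abs _ _ _).trans hab'))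
          (le_of_abs_le ((gm_abs _ _ _).trans hab'))) (p1_nonneg hM i)
    rw [Finset.sum_sub_distrib, Finset.sum_add_distrib, ← Finset.mul_sum, ← Finset.sum_mul,
      s2] at h4
    rw [← Finset.sum_mul, s1] at h5
    rw [← hN] at h2
    have h6 := mul_le_mul_of_nonneg_right b2 (show 0 ≤ ε ^ 2 * (1 / m1) by positivity)
    have h7 := mul_le_mul_of_nonneg_right b1 e2
    have h8 : N * ε ^ 3 ≤ N * ε ^ 2 :=
      mul_le_mul_of_nonneg_left (pow_le_pow_of_le_one hε hε1 (by norm_num)) hN0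
    have c3 : 0 ≤ ε ^ 2 * (3 * (N * L ^ 2) * ((d + 1) / m1 ^ 2)) := by positivity
    have c4 : 0 ≤ ε ^ 2 * (3 * (N * L) * (2 * (d + 1) / m1)) := by positivity
    have c5 : 0 ≤ ε ^ 2 * ((4 * d + 4) * N) := by positivity
    linarith

end Pool.Agent.P.MP_9f4f5e_mp.RL
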