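import Pool.Agent.P.MP_9f4f5e_mp.RL.A1
import Pool.Agent.P.MP_9f4f5e_mp.RL.A2
import Pool.Agent.P.MP_9f4f5e_mp.RL.G2

set_option linter.unusedSectionVars false
set_option linter.unusedVariables false

open MeasureTheory Matrix
open scoped ENNReal ComplexOrder ComplexConjugate FourierTransform RealInnerProductSpace
open Pool.Agent.P.MP_9f4f5e_mp.LT (tp pp dg qf ec fej Spec)

noncomputable section

namespace Pool.Agent.P.MP_9f4f5e_mp.RL

variable {d : ℕ} {ι κ : Type} [Fintype ι] [DecidableEq ι] [Fintype κ]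

theorem p2x_up {M : Matrix ι ι ℂ} (hM : M.IsHermitian) {s e : ℝ} (hs : |s| ≤ e) :
    tp 3 (M - dg fun _ => s) ≤ tp 3 M - 3 * s * tp 2 M + 3 * s ^ 2 * tp 1 M
      + 2 * Fintype.card ι * e ^ 3 := by
  have h := tp3_up hM (fun _ => s) (fun _ => hs)
  rw [← Finset.sum_mul, ← Finset.sum_mul, sum_p1 hM, sum_p2 hM] at h
  linarith

theorem p2x_low {M : Matrix ι ι ℂ} (hM : M.IsHermitian) {s e : ℝ} (hs : |s| ≤ e) :
    tp 3 M - 3 * s * tp 2 M + 3 * s ^ 2 * tp 1 M - Fintype.card ι * e ^ 3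
      ≤ tp 3 (M - dg fun _ => s) := by
  have h := tp3_sc hM s
  have h1 : |s| ^ 3 ≤ e ^ 3 := pow_le_pow_left₀ (abs_nonneg _) hs 3
  have h2 : (Fintype.card ι : ℝ) * |s| ^ 3 ≤ Fintype.card ι * e ^ 3 :=
    mul_le_mul_of_nonneg_left h1 (Nat.cast_nonneg _)
  linarith

theorem p2x_bd {V : Matrix ι ι ℂ} (hV : V.IsHermitian) {K : ℝ} (hK : Bd V K) {Z : ℝ}
    (a : ι → E d) (t : E d) {m z : ℝ} (hm : 0 ≤ m) (hz : z ≤ Z) {k : ℕ} (hk : k ≠ 0) :
    tp k (MM V a t m z) ≤ Fintype.card ι * max (K + Z) 0 ^ k := by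
  refine tp_le_of_bd (MM_herm hV a t m z) ((MM_bd hK a t m z).mono ?_) (le_max_right _ _) hk
  have := le_max_left (K + Z) 0
  linarith

theorem p2x_lip {M : Matrix ι ι ℂ} (hM : M.IsHermitian) (g : ι → ℝ) {e : ℝ} (he : 0 ≤ e)
    (he1 : e ≤ 1) (hg : ∀ i, |g i| ≤ e) :
    |tp 3 (M - dg g) - tp 3 M| ≤ (3 * tp 2 M + 3 * tp 1 M + 2 * Fintype.card ι) * e := by
  have h1 := tp3_up hM g hg
  have h2 := tp3_low hM g
  have a1 : ∑ i, p2 M i * g i ≤ tp 2 M * e := by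
    rw [← sum_p2 hM, Finset.sum_mul]
    exact Finset.sum_le_sum fun i _ =>
      mul_le_mul_of_nonneg_left (abs_le.mp (hg i)).2 (p2_nonneg hM i)
  have a2 : -(tp 2 M * e) ≤ ∑ i, p2 M i * g i := by
    rw [← sum_p2 hM, Finset.sum_mul, ← Finset.sum_neg_distrib]
    refine Finset.sum_le_sum fun i _ => ?_
    have := mul_le_mul_of_nonneg_left (abs_le.mp (hg i)).1 (p2_nonneg hM i)
    linarith
  have a3 : ∑ i, p1 M i * g i ^ 2 ≤ tp 1 M * e := by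
    rw [← sum_p1 hM, Finset.sum_mul]
    refine Finset.sum_le_sum fun i _ => mul_le_mul_of_nonneg_left ?_ (p1_nonneg hM i)
    have b1 : g i ^ 2 ≤ e ^ 2 := by
      rw [← sq_abs (g i)]
      exact pow_le_pow_left₀ (abs_nonneg _) (hg i) 2
    nlinarith
  have a4 : e ^ 3 ≤ e := by
    have : e ^ 2 ≤ 1 := pow_le_one₀ he he1
    nlinarith
  have a5 : (Fintype.card ι : ℝ) * e ^ 3 ≤ Fintype.card ι * e :=
    mul_le_mul_of_nonneg_left a4 (Nat.cast_nonneg _)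
  have a6 : 0 ≤ tp 1 M * e := mul_nonneg (LT.tp_nonneg hM 1) he
  have a7 : 0 ≤ (Fintype.card ι : ℝ) * e := mul_nonneg (Nat.cast_nonneg _) he
  rw [abs_le]
  constructor <;> nlinarith

theorem est_low {V : Matrix ι ι ℂ} (hV : V.IsHermitian) {K : ℝ} (hK : Bd V K) {m1 : ℝ}
    (hm1 : 0 < m1) (Z : ℝ) :
    ∃ C : ℝ, 0 ≤ C ∧ ∀ (t : E d) (m z ε : ℝ), m1 ≤ m → z ≤ Z → 0 ≤ ε → ε ≤ 1 →
      -(3 * d * ε ^ 2 * QQ V (fun _ => (0 : E d)) t m z) - C * ε ^ 3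
        ≤ E1 V (fun _ => (0 : E d)) t m z ε ∧
      TT V (fun _ => (0 : E d)) t (m + ε) z - TT V (fun _ => (0 : E d)) t (m - ε) z
        ≤ -(6 * ε * m * QQ V (fun _ => (0 : E d)) t m z) + C * ε ^ 2 := by
  set L : ℝ := max (K + Z) 0 with hL
  have L0 : 0 ≤ L := le_max_right _ _
  set N : ℝ := (Fintype.card ι : ℝ) with hN
  have N0 : 0 ≤ N := Nat.cast_nonneg _
  have d0 : (0 : ℝ) ≤ d := Nat.cast_nonneg _
  refine ⟨3 * (N * L ^ 2) * ((d + 1) / m1 ^ 2) + 3 * (N * L ^ 2) * (1 / m1)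
    + 3 * (N * L ^ 1) * (2 * (d + 1) / m1) + 3 * (N * L ^ 1) + (2 * d + 6) * N, by positivity, ?_⟩
  intro t m z ε hm hz hε hε1
  have m0 : 0 < m := lt_of_lt_of_le hm1 hm
  have hM := MM_herm hV (fun _ => (0 : E d)) t m z
  have hA := p2x_bd hV hK (fun _ => (0 : E d)) t m0.le hz (k := 1) one_ne_zero
  have hB := p2x_bd hV hK (fun _ => (0 : E d)) t m0.le hz (k := 2) two_ne_zero
  have A0 := LT.tp_nonneg hM 1
  have B0 := LT.tp_nonneg hM 2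
  have hQ : QQ V (fun _ => (0 : E d)) t m z =
      tp 2 (MM V (fun _ => (0 : E d)) t m z) / om (0 - t) m := by
    rw [QQ, ← Finset.sum_div, sum_p2 hM]
  have e1 : |ε| ≤ ε := (abs_of_nonneg hε).le
  have e2 : |-ε| ≤ ε := by rw [abs_neg]; exact e1
  have e3 : |- -ε| ≤ ε := by rw [neg_neg]; exact e1
  have tz1 := p2x_up hM e2
  have tz2 := p2x_up hM e3
  have tm1 := p2x_low hM ((gm_abs (0 - t) m ε).trans e1)
  have tm2 := p2x_low hM ((gm_abs (0 - t) m (-ε)).trans e2)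
  have tm3 := p2x_up hM ((gm_abs (0 - t) m ε).trans e1)
  have tm4 := tp3_low hM fun _ => gm (0 - t) m (-ε)
  rw [← Finset.sum_mul, sum_p2 hM] at tm4
  have tt : ∑ k : Fin d, (-3 * tp 2 (MM V (fun _ => (0 : E d)) t m z) *
        (gt (0 - t) m ε k + gt (0 - t) m (-ε) k) + 3 * tp 1 (MM V (fun _ => (0 : E d)) t m z) *
        (gt (0 - t) m ε k ^ 2 + gt (0 - t) m (-ε) k ^ 2) - 2 * N * ε ^ 3)
      ≤ S2 V (fun _ => (0 : E d)) t m z ε := by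
    refine Finset.sum_le_sum fun k _ => ?_
    have u1 := p2x_low hM ((gt_abs (0 - t) m ε k).trans e1)
    have u2 := p2x_low hM ((gt_abs (0 - t) m (-ε) k).trans e2)
    simp only [TT, MM_t]
    linarith
  rw [Finset.sum_sub_distrib, Finset.sum_add_distrib, ← Finset.mul_sum, ← Finset.mul_sum,
    Finset.sum_const, Finset.card_univ, Fintype.card_fin, nsmul_eq_mul] at tt
  have i1 := (abs_le.mp (incr_sq (0 - t) m0 hε)).1
  have i2 := (abs_le.mp (incr_sum (0 - t) m0 hε)).2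
  have i3 := (abs_le.mp (incr_m (0 - t) m0 hε)).1
  have ε3 : 0 ≤ ε ^ 3 := by positivity
  have ε2 : 0 ≤ ε ^ 2 := by positivity
  have j1 : 2 * ((d : ℝ) + 1) * ε ^ 3 / m ≤ 2 * (d + 1) / m1 * ε ^ 3 := by
    rw [div_mul_eq_mul_div]
    exact div_le_div_of_nonneg_left (by positivity) hm1 hm
  have j2 : ((d : ℝ) + 1) * ε ^ 3 / m ^ 2 ≤ (d + 1) / m1 ^ 2 * ε ^ 3 := by
    rw [div_mul_eq_mul_div]
    exact div_le_div_of_nonneg_left (by positivity) (by positivity)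
      (pow_le_pow_left₀ hm1.le hm 2)
  have j3 : ε ^ 2 / m ≤ 1 / m1 * ε ^ 2 := by
    rw [div_mul_eq_mul_div, one_mul]
    exact div_le_div_of_nonneg_left ε2 hm1 hm
  simp only [E1, TT, sub_eq_add_neg m ε, sub_eq_add_neg z ε, MM_m, MM_z, hQ]
  set A := tp 1 (MM V (fun _ => (0 : E d)) t m z)
  set B := tp 2 (MM V (fun _ => (0 : E d)) t m z)
  set T := tp 3 (MM V (fun _ => (0 : E d)) t m z)
  set O := om (0 - t) m
  set s1 := ∑ k : Fin d, (gt (0 - t) m ε k + gt (0 - t) m (-ε) k)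
  set s2 := ∑ k : Fin d, (gt (0 - t) m ε k ^ 2 + gt (0 - t) m (-ε) k ^ 2)
  set g1 := gm (0 - t) m ε with hg1
  set g2 := gm (0 - t) m (-ε)
  rw [← hL, ← hN] at hA hB
  rw [← hN] at tz1 tz2 tm1 tm2 tm3
  have w1 : 0 ≤ 2 * ((d : ℝ) + 1) / m1 * ε ^ 3 := by positivity
  have w2 : 0 ≤ ((d : ℝ) + 1) / m1 ^ 2 * ε ^ 3 := by positivity
  have w3 : 0 ≤ 1 / m1 * ε ^ 2 := by positivity
  have k1 : A * (2 * ε ^ 2) - N * L ^ 1 * (2 * (d + 1) / m1 * ε ^ 3)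
      ≤ A * (s2 + (g1 ^ 2 + g2 ^ 2)) := by
    have x1 : A * (2 * ε ^ 2 - 2 * (d + 1) / m1 * ε ^ 3) ≤ A * (s2 + (g1 ^ 2 + g2 ^ 2)) :=
      mul_le_mul_of_nonneg_left (by linarith) A0
    have x2 := mul_le_mul_of_nonneg_right hA w1
    linarith
  have k2 : B * (s1 + (g1 + g2)) ≤ d * ε ^ 2 * (B / O) + N * L ^ 2 * ((d + 1) / m1 ^ 2 * ε ^ 3) := by
    have x1 : B * (s1 + (g1 + g2)) ≤ B * (d * ε ^ 2 / O + (d + 1) / m1 ^ 2 * ε ^ 3) :=
      mul_le_mul_of_nonneg_left (by linarith) B0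
    have x2 := mul_le_mul_of_nonneg_right hB w2
    have x3 : B * (d * ε ^ 2 / O) = d * ε ^ 2 * (B / O) := by ring
    linarith
  have k3 : 2 * ε * m * (B / O) - N * L ^ 2 * (1 / m1 * ε ^ 2) ≤ B * (g1 - g2) := by
    have x1 : B * (2 * ε * m / O - 1 / m1 * ε ^ 2) ≤ B * (g1 - g2) :=
      mul_le_mul_of_nonneg_left (by linarith) B0
    have x2 := mul_le_mul_of_nonneg_right hB w3
    have x3 : B * (2 * ε * m / O) = 2 * ε * m * (B / O) := by ring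
    linarith
  have k4 : g1 ^ 2 * A ≤ N * L ^ 1 * ε ^ 2 := by
    have x1 : g1 ^ 2 ≤ ε ^ 2 := by
      rw [← sq_abs g1]
      exact pow_le_pow_left₀ (abs_nonneg _) ((gm_abs (0 - t) m ε).trans e1) 2
    have x2 := mul_le_mul x1 hA A0 ε2
    linarith
  have k5 : N * ε ^ 3 ≤ N * ε ^ 2 := by
    refine mul_le_mul_of_nonneg_left ?_ N0
    nlinarith
  constructor
  · have y1 : 0 ≤ N * L ^ 2 * (1 / m1) * ε ^ 3 := by positivity
    have y2 : 0 ≤ N * L ^ 1 * ε ^ 3 := by positivity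
    linarith
  · have y1 : 0 ≤ N * L ^ 2 * ((d + 1) / m1 ^ 2) * ε ^ 2 := by positivity
    have y2 : 0 ≤ N * L ^ 1 * (2 * (d + 1) / m1) * ε ^ 2 := by positivity
    have y3 : 0 ≤ d * N * ε ^ 2 := by positivity
    have y4 : 0 ≤ N * ε ^ 2 := by positivity
    linarith

theorem est_lip {V : Matrix ι ι ℂ} (hV : V.IsHermitian) {K : ℝ} (hK : Bd V K) (Z : ℝ) :
    ∃ C : ℝ, 0 ≤ C ∧ ∀ (a : ι → E d) (t : E d) (m z ε : ℝ), 0 ≤ m → z ≤ Z → 0 ≤ ε → ε ≤ 1 →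
      |TT V a t (m + ε) z - TT V a t m z| ≤ C * ε ∧ |TT V a t (m - ε) z - TT V a t m z| ≤ C * ε ∧
      |TT V a t m (z + ε) - TT V a t m z| ≤ C * ε ∧ |TT V a t m z| ≤ C := by
  set L : ℝ := max (K + Z) 0 with hL
  have L0 : 0 ≤ L := le_max_right _ _
  set N : ℝ := (Fintype.card ι : ℝ) with hN
  have N0 : 0 ≤ N := Nat.cast_nonneg _
  refine ⟨3 * (N * L ^ 2) + 3 * (N * L ^ 1) + 2 * N + N * L ^ 3, by positivity, ?_⟩
  intro a t m z ε hm hz hε hε1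
  have hM := MM_herm hV a t m z
  have hA := p2x_bd hV hK a t hm hz (k := 1) one_ne_zero
  have hB := p2x_bd hV hK a t hm hz (k := 2) two_ne_zero
  have hT := p2x_bd hV hK a t hm hz (k := 3) three_ne_zero
  rw [← hL, ← hN] at hA hB hT
  have e1 : |ε| ≤ ε := (abs_of_nonneg hε).le
  have e2 : |-ε| ≤ ε := by rw [abs_neg]; exact e1
  have y3 : 0 ≤ N * L ^ 3 := by positivity
  have key : ∀ g : ι → ℝ, (∀ i, |g i| ≤ ε) →
      |tp 3 (MM V a t m z - dg g) - tp 3 (MM V a t m z)|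
        ≤ (3 * (N * L ^ 2) + 3 * (N * L ^ 1) + 2 * N + N * L ^ 3) * ε := by
    intro g hg
    refine (p2x_lip hM g hε hε1 hg).trans (mul_le_mul_of_nonneg_right ?_ hε)
    rw [← hN]
    linarith
  simp only [TT, sub_eq_add_neg m ε, MM_m, MM_z]
  refine ⟨key _ fun i => (gm_abs _ m ε).trans e1, key _ fun i => (gm_abs _ m (-ε)).trans e2,
    key _ fun _ => e2, ?_⟩
  rw [abs_of_nonneg (LT.tp_nonneg hM 3)]
  have y1 : 0 ≤ N * L ^ 1 := by positivity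
  have y2 : 0 ≤ N * L ^ 2 := by positivity
  linarith

end Pool.Agent.P.MP_9f4f5e_mp.RL
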