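import Pool.Agent.P.MP_9f4f5e_mp.RL.Defs

set_option linter.unusedSectionVars false
set_option linter.unusedVariables false

open MeasureTheory Matrix
open scoped ENNReal ComplexOrder ComplexConjugate FourierTransform RealInnerProductSpace
open Pool.Agent.P.MP_9f4f5e_mp.LT (tp pp dg qf ec fej Spec)

noncomputable section

namespace Pool.Agent.P.MP_9f4f5e_mp.RL

variable {d : ℕ} {ι κ : Type} [Fintype ι] [DecidableEq ι] [Fintype κ]

theorem wt_pos (d : ℕ) {m : ℝ} (hm : 0 < m) : 0 < wt d m := Real.rpow_pos_of_pos hm _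

theorem wt_le (d : ℕ) {m1 m : ℝ} (hm1 : 0 < m1) (h : m1 ≤ m) : wt d m ≤ wt d m1 :=
  Real.rpow_le_rpow_of_nonpos hm1 h (neg_nonpos.2 (by positivity))

theorem wt_mul (d : ℕ) {m : ℝ} (hm : 0 < m) : wt d m * √m ^ d = 1 := by
  rw [wt, Real.sqrt_eq_rpow, ← Real.rpow_natCast, ← Real.rpow_mul hm.le, ← Real.rpow_add hm,
    show -((d : ℝ) / 2) + 1 / 2 * (d : ℝ) = 0 by ring, Real.rpow_zero]

theorem cc_nonneg (d : ℕ) : 0 ≤ cc d := by
  unfold cc
  positivity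

theorem p3_step {P Q : ℝ → ℝ} {b K : ℝ} {n : ℕ} (hb : 0 ≤ b) (hK : 0 ≤ K) (h0 : P 0 = 1)
    (hP : ∀ y, HasDerivAt P (-b * Q y) y)
    (h : ∀ y, |y| ≤ 1 / 2 → |(1 + y) ^ (-(b + 1)) - Q y| ≤ K * |y| ^ n) :
    ∀ x, |x| ≤ 1 / 2 → |(1 + x) ^ (-b) - P x| ≤ b * K * |x| ^ (n + 1) := by
  intro x hx
  have hd : ∀ y ∈ Metric.closedBall (0 : ℝ) |x|,
      HasDerivWithinAt (fun y : ℝ => (1 + y) ^ (-b) - P y)
        (-b * ((1 + y) ^ (-(b + 1)) - Q y)) (Metric.closedBall (0 : ℝ) |x|) y := by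
    intro y hy
    have h1 : |y| ≤ 1 / 2 := by
      rw [mem_closedBall_zero_iff, Real.norm_eq_abs] at hy
      exact hy.trans hx
    have h2 : 1 + y ≠ 0 := by
      have := (abs_le.1 h1).1
      linarith
    have h3 := (((hasDerivAt_id' y).const_add 1).rpow_const (p := -b) (Or.inl h2)).sub (hP y)
    refine (h3.congr_deriv ?_).hasDerivWithinAt
    rw [show -b - 1 = -(b + 1) by ring]
    ring
  have hb' : ∀ y ∈ Metric.closedBall (0 : ℝ) |x|,
      ‖-b * ((1 + y) ^ (-(b + 1)) - Q y)‖ ≤ b * K * |x| ^ n := by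
    intro y hy
    rw [mem_closedBall_zero_iff, Real.norm_eq_abs] at hy
    rw [Real.norm_eq_abs, abs_mul, abs_neg, abs_of_nonneg hb, mul_assoc]
    exact mul_le_mul_of_nonneg_left ((h y (hy.trans hx)).trans
      (mul_le_mul_of_nonneg_left (pow_le_pow_left₀ (abs_nonneg y) hy n) hK)) hb
  have h4 := (convex_closedBall (0 : ℝ) |x|).norm_image_sub_le_of_norm_hasDerivWithin_le hd hb'
    (Metric.mem_closedBall_self (abs_nonneg x)) (y := x) (by simp)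
  simp only [add_zero, Real.one_rpow, h0, sub_self, sub_zero, Real.norm_eq_abs] at h4
  rw [pow_succ, ← mul_assoc]
  exact h4

theorem p3_main {a : ℝ} (ha : 0 ≤ a) : ∃ K : ℝ, 0 ≤ K ∧ ∀ x, |x| ≤ 1 / 2 →
    |(1 + x) ^ (-a) - (1 - a * x + a * (a + 1) / 2 * x ^ 2)| ≤ K * |x| ^ 3 := by
  have k0 : 0 ≤ (1 / 2 : ℝ) ^ (-(a + 1 + 1 + 1)) := Real.rpow_nonneg (by norm_num) _
  have h0 : ∀ y : ℝ, |y| ≤ 1 / 2 → |(1 + y) ^ (-(a + 1 + 1 + 1)) - (fun _ : ℝ => (0 : ℝ)) y| ≤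
      (1 / 2 : ℝ) ^ (-(a + 1 + 1 + 1)) * |y| ^ 0 := by
    intro y hy
    have h1 := (abs_le.1 hy).1
    rw [pow_zero, mul_one, sub_zero, abs_of_nonneg (Real.rpow_nonneg (by linarith) _)]
    exact Real.rpow_le_rpow_of_nonpos (by norm_num) (by linarith) (by linarith)
  have h1 := p3_step (P := fun _ => 1) (b := a + 1 + 1) (by linarith) k0 rfl
    (fun y => by simpa using hasDerivAt_const y (1 : ℝ)) h0
  have h2 := p3_step (P := fun y => 1 - (a + 1) * y) (b := a + 1) (by linarith)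
    (by positivity) (by simp)
    (fun y => (((hasDerivAt_id' y).const_mul (a + 1)).const_sub 1).congr_deriv (by ring)) h1
  have h3 := p3_step (P := fun y => 1 - a * y + a * (a + 1) / 2 * y ^ 2) (b := a) ha
    (by positivity) (by simp)
    (fun y => ((((hasDerivAt_id' y).const_mul a).const_sub 1).add
      ((hasDerivAt_pow 2 y).const_mul (a * (a + 1) / 2))).congr_deriv (by
        simp only [Nat.cast_ofNat, Nat.add_one_sub_one, pow_one]
        ring)) h2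
  exact ⟨_, by positivity, h3⟩

theorem wt_taylor (d : ℕ) {m1 : ℝ} (hm1 : 0 < m1) :
    ∃ C : ℝ, 0 ≤ C ∧ ∀ m ε : ℝ, m1 ≤ m → |ε| ≤ m1 / 2 →
      |wt d (m + ε) - wt d m * (1 - (d : ℝ) / 2 * ε / m + cc d / 2 * ε ^ 2 / m ^ 2)|
        ≤ C * |ε| ^ 3 := by
  obtain ⟨K, hK, h⟩ := p3_main (a := (d : ℝ) / 2) (by positivity)
  have w1 := wt_pos d hm1
  refine ⟨wt d m1 * (K / m1 ^ 3), by positivity, fun m ε hm hε => ?_⟩
  have m0 : 0 < m := hm1.trans_le hm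
  have h1 : |ε / m| ≤ |ε| / m1 := by
    rw [abs_div, abs_of_pos m0]
    exact div_le_div_of_nonneg_left (abs_nonneg ε) hm1 hm
  have h2 : |ε / m| ≤ 1 / 2 := by
    refine h1.trans ?_
    rw [div_le_iff₀ hm1]
    linarith
  have h3 : wt d (m + ε) = wt d m * (1 + ε / m) ^ (-((d : ℝ) / 2)) := by
    have h4 := (abs_le.1 h2).1
    rw [wt, wt, ← Real.mul_rpow m0.le (by linarith), mul_add, mul_one, mul_div_cancel₀ _ m0.ne']
  have h4 : 1 - (d : ℝ) / 2 * ε / m + cc d / 2 * ε ^ 2 / m ^ 2 =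
      1 - (d : ℝ) / 2 * (ε / m) + (d : ℝ) / 2 * ((d : ℝ) / 2 + 1) / 2 * (ε / m) ^ 2 := by
    unfold cc
    ring
  rw [h3, h4, ← mul_sub, abs_mul, abs_of_pos (wt_pos d m0), mul_assoc]
  refine mul_le_mul (wt_le d hm1 hm) ((h _ h2).trans ?_) (abs_nonneg _) w1.le
  calc K * |ε / m| ^ 3 ≤ K * (|ε| / m1) ^ 3 :=
        mul_le_mul_of_nonneg_left (pow_le_pow_left₀ (abs_nonneg _) h1 3) hK
    _ = K / m1 ^ 3 * |ε| ^ 3 := by ring

end Pool.Agent.P.MP_9f4f5e_mp.RL
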