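import Pool.Agent.P.MP_9f4f5e_mp.RL.P1
import Pool.Agent.P.MP_9f4f5e_mp.RL.P2
import Pool.Agent.P.MP_9f4f5e_mp.RL.P3

set_option linter.unusedSectionVars false
set_option linter.unusedVariables false

open MeasureTheory Matrix
open scoped ENNReal ComplexOrder ComplexConjugate FourierTransform RealInnerProductSpace
open Pool.Agent.P.MP_9f4f5e_mp.LT (tp pp dg qf ec fej Spec)

noncomputable section

namespace Pool.Agent.P.MP_9f4f5e_mp.RL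

variable {d : ℕ} {ι κ : Type} [Fintype ι] [DecidableEq ι] [Fintype κ]

theorem p4_core {w w1 wp wm T Tp Tm A a c e m m1 Q C1 C2 C3 : ℝ} (hw0 : 0 ≤ w) (hw1 : w ≤ w1)
    (ha : 0 ≤ a) (hc : 0 ≤ c) (he : 0 ≤ e) (he1 : e ≤ 1) (hm1 : 0 < m1) (hm : m1 ≤ m)
    (h1 : 0 ≤ C1) (h2 : 0 ≤ C2) (h3 : 0 ≤ C3)
    (hE : A ≤ -(6 * a * e ^ 2 * Q) + C1 * e ^ 3) (hD : -(6 * e * m * Q) - C1 * e ^ 2 ≤ Tp - Tm)
    (hp : |Tp - T| ≤ C2 * e) (hn : |Tm - T| ≤ C2 * e) (hT : |T| ≤ C2)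
    (tp' : |wp - w * (1 - a * e / m + c / 2 * e ^ 2 / m ^ 2)| ≤ C3 * e ^ 3)
    (tm' : |wm - w * (1 + a * e / m + c / 2 * e ^ 2 / m ^ 2)| ≤ C3 * e ^ 3) :
    wp * Tp + wm * Tm + w * (A - Tp - Tm) - c * e ^ 2 / m ^ 2 * (w * T) ≤
      (w1 * (C1 + a * C1 / m1 + c * C2 / m1 ^ 2) + 4 * C2 * C3) * e ^ 3 := by
  have hm0 : 0 < m := hm1.trans_le hm
  have hCe : C2 * e ≤ C2 := mul_le_of_le_one_right h2 he1
  have hTp : |Tp| ≤ 2 * C2 := by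
    have := abs_add_le (Tp - T) T
    rw [sub_add_cancel] at this
    linarith
  have hTm : |Tm| ≤ 2 * C2 := by
    have := abs_add_le (Tm - T) T
    rw [sub_add_cancel] at this
    linarith
  obtain ⟨u, hu⟩ : ∃ u, u = wp - w * (1 - a * e / m + c / 2 * e ^ 2 / m ^ 2) := ⟨_, rfl⟩
  obtain ⟨v, hv⟩ : ∃ v, v = wm - w * (1 + a * e / m + c / 2 * e ^ 2 / m ^ 2) := ⟨_, rfl⟩
  rw [← hu] at tp'
  rw [← hv] at tm'
  have e3 : 0 ≤ e ^ 3 := by positivity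
  have hid : wp * Tp + wm * Tm + w * (A - Tp - Tm) - c * e ^ 2 / m ^ 2 * (w * T) =
      w * (A + a * e / m * (-(Tp - Tm)) + c / 2 * e ^ 2 / m ^ 2 * ((Tp - T) + (Tm - T)))
        + u * Tp + v * Tm := by
    rw [hu, hv]; ring
  have b1 : u * Tp ≤ C3 * e ^ 3 * (2 * C2) := by
    refine (le_abs_self _).trans ?_
    rw [abs_mul]
    exact mul_le_mul tp' hTp (abs_nonneg _) (by positivity)
  have b2 : v * Tm ≤ C3 * e ^ 3 * (2 * C2) := by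
    refine (le_abs_self _).trans ?_
    rw [abs_mul]
    exact mul_le_mul tm' hTm (abs_nonneg _) (by positivity)
  have b3 : a * e / m * (-(Tp - Tm)) ≤ 6 * a * e ^ 2 * Q + a * C1 / m1 * e ^ 3 := by
    have c1 : a * e / m * (-(Tp - Tm)) ≤ a * e / m * (6 * e * m * Q + C1 * e ^ 2) :=
      mul_le_mul_of_nonneg_left (by linarith) (by positivity)
    have c2 : a * e / m * (6 * e * m * Q + C1 * e ^ 2) =
        6 * a * e ^ 2 * Q + a * C1 / m * e ^ 3 := by field_simp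
    have c3 : a * C1 / m ≤ a * C1 / m1 := div_le_div_of_nonneg_left (by positivity) hm1 hm
    have c4 := mul_le_mul_of_nonneg_right c3 e3
    linarith
  have b4 : c / 2 * e ^ 2 / m ^ 2 * ((Tp - T) + (Tm - T)) ≤ c * C2 / m1 ^ 2 * e ^ 3 := by
    have c1 : (Tp - T) + (Tm - T) ≤ 2 * (C2 * e) := by
      linarith [le_abs_self (Tp - T), le_abs_self (Tm - T)]
    have c2 := mul_le_mul_of_nonneg_left c1 (show 0 ≤ c / 2 * e ^ 2 / m ^ 2 by positivity)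
    have c3 : c / 2 * e ^ 2 / m ^ 2 * (2 * (C2 * e)) = c * C2 / m ^ 2 * e ^ 3 := by ring
    have c4 : c * C2 / m ^ 2 ≤ c * C2 / m1 ^ 2 :=
      div_le_div_of_nonneg_left (by positivity) (by positivity) (pow_le_pow_left₀ hm1.le hm 2)
    have c5 := mul_le_mul_of_nonneg_right c4 e3
    linarith
  have b5 : A + a * e / m * (-(Tp - Tm)) + c / 2 * e ^ 2 / m ^ 2 * ((Tp - T) + (Tm - T)) ≤
      (C1 + a * C1 / m1 + c * C2 / m1 ^ 2) * e ^ 3 := by linarith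
  have b6 := mul_le_mul_of_nonneg_left b5 hw0
  have b7 : w * ((C1 + a * C1 / m1 + c * C2 / m1 ^ 2) * e ^ 3) ≤
      w1 * ((C1 + a * C1 / m1 + c * C2 / m1 ^ 2) * e ^ 3) :=
    mul_le_mul_of_nonneg_right hw1 (by positivity)
  rw [hid]
  linarith

theorem p4_taylor {m1 : ℝ} (hm1 : 0 < m1) : ∃ C : ℝ, 0 ≤ C ∧ ∀ m ε : ℝ, m1 ≤ m → 0 ≤ ε →
    ε ≤ m1 / 2 →
    |wt d (m + ε) - wt d m * (1 - (d : ℝ) / 2 * ε / m + cc d / 2 * ε ^ 2 / m ^ 2)| ≤ C * ε ^ 3 ∧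
    |wt d (m - ε) - wt d m * (1 + (d : ℝ) / 2 * ε / m + cc d / 2 * ε ^ 2 / m ^ 2)| ≤ C * ε ^ 3 := by
  obtain ⟨C, hC, h⟩ := wt_taylor d hm1
  refine ⟨C, hC, fun m ε hm h0 h1 => ⟨?_, ?_⟩⟩
  · have := h m ε hm (by rwa [abs_of_nonneg h0])
    rwa [abs_of_nonneg h0] at this
  · have := h m (-ε) hm (by rwa [abs_neg, abs_of_nonneg h0])
    rw [abs_neg, abs_of_nonneg h0, ← sub_eq_add_neg] at this
    have h2 : 1 - (d : ℝ) / 2 * -ε / m + cc d / 2 * (-ε) ^ 2 / m ^ 2 =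
        1 + (d : ℝ) / 2 * ε / m + cc d / 2 * ε ^ 2 / m ^ 2 := by ring
    rwa [h2] at this

theorem p4_DD (V : Matrix ι ι ℂ) (a : ι → E d) (t : E d) (m z ε : ℝ) :
    DD V a t m z ε = wt d (m + ε) * TT V a t (m + ε) z + wt d (m - ε) * TT V a t (m - ε) z
      + wt d m * (E1 V a t m z ε - TT V a t (m + ε) z - TT V a t (m - ε) z)
      - cc d * ε ^ 2 / m ^ 2 * (wt d m * TT V a t m z) := by
  unfold DD E1
  ring

theorem DD_up {V : Matrix ι ι ℂ} (hV : V.IsHermitian) {K : ℝ} (hK : Bd V K) {m1 : ℝ}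
    (hm1 : 0 < m1) (Z : ℝ) :
    ∃ C : ℝ, 0 ≤ C ∧ ∀ (a : ι → E d) (t : E d) (m z ε : ℝ), m1 ≤ m → z ≤ Z → 0 ≤ ε → ε ≤ 1 →
      ε ≤ m1 / 2 → DD V a t m z ε ≤ C * ε ^ 3 := by
  obtain ⟨C1, h1, hup⟩ := est_up (d := d) hV hK hm1 Z
  obtain ⟨C2, h2, hlip⟩ := est_lip (d := d) hV hK Z
  obtain ⟨C3, h3, hta⟩ := p4_taylor (d := d) hm1
  have hw := (wt_pos d hm1).le
  have hc := cc_nonneg d
  refine ⟨wt d m1 * (C1 + (d : ℝ) / 2 * C1 / m1 + cc d * C2 / m1 ^ 2) + 4 * C2 * C3,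
    by positivity, fun a t m z ε hm hz h0 he he' => ?_⟩
  have hm0 : 0 < m := hm1.trans_le hm
  obtain ⟨u1, u2⟩ := hup a t m z ε hm hz h0 he
  obtain ⟨l1, l2, -, l4⟩ := hlip a t m z ε hm0.le hz h0 he
  obtain ⟨t1, t2⟩ := hta m ε hm h0 he'
  rw [p4_DD]
  exact p4_core (Q := QQ V a t m z) (wt_pos d hm0).le (wt_le d hm1 hm) (by positivity) hc h0 he
    hm1 hm h1 h2 h3 (by linarith) u2 l1 l2 l4 t1 t2

theorem DD_low {V : Matrix ι ι ℂ} (hV : V.IsHermitian) {K : ℝ} (hK : Bd V K) {m1 : ℝ}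
    (hm1 : 0 < m1) (Z : ℝ) :
    ∃ C : ℝ, 0 ≤ C ∧ ∀ (t : E d) (m z ε : ℝ), m1 ≤ m → z ≤ Z → 0 ≤ ε → ε ≤ 1 →
      ε ≤ m1 / 2 → -(C * ε ^ 3) ≤ DD V (fun _ => (0 : E d)) t m z ε := by
  obtain ⟨C1, h1, hlow⟩ := est_low (d := d) hV hK hm1 Z
  obtain ⟨C2, h2, hlip⟩ := est_lip (d := d) hV hK Z
  obtain ⟨C3, h3, hta⟩ := p4_taylor (d := d) hm1
  have hw := (wt_pos d hm1).le
  have hc := cc_nonneg d
  refine ⟨wt d m1 * (C1 + (d : ℝ) / 2 * C1 / m1 + cc d * C2 / m1 ^ 2) + 4 * C2 * C3,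
    by positivity, fun t m z ε hm hz h0 he he' => ?_⟩
  have hm0 : 0 < m := hm1.trans_le hm
  obtain ⟨u1, u2⟩ := hlow t m z ε hm hz h0 he
  obtain ⟨l1, l2, -, l4⟩ := hlip (fun _ => (0 : E d)) t m z ε hm0.le hz h0 he
  obtain ⟨t1, t2⟩ := hta m ε hm h0 he'
  rw [p4_DD]
  have h := p4_core (Q := -QQ V (fun _ => (0 : E d)) t m z)
    (A := -E1 V (fun _ => (0 : E d)) t m z ε)
    (T := -TT V (fun _ => (0 : E d)) t m z) (Tp := -TT V (fun _ => (0 : E d)) t (m + ε) z)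
    (Tm := -TT V (fun _ => (0 : E d)) t (m - ε) z)
    (wt_pos d hm0).le (wt_le d hm1 hm) (by positivity) hc h0 he
    hm1 hm h1 h2 h3 (by linarith) (by linarith)
    (by rwa [← neg_sub', abs_neg]) (by rwa [← neg_sub', abs_neg]) (by rwa [abs_neg]) t1 t2
  linarith

end Pool.Agent.P.MP_9f4f5e_mp.RL
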