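import Pool.Agent.P.MP_9f4f5e_mp.RL.G1

set_option linter.unusedSectionVars false
set_option linter.unusedVariables false

open MeasureTheory Matrix
open scoped ENNReal ComplexOrder ComplexConjugate FourierTransform RealInnerProductSpace
open Pool.Agent.P.MP_9f4f5e_mp.LT (tp pp dg qf ec fej Spec)

noncomputable section

namespace Pool.Agent.P.MP_9f4f5e_mp.RL

variable {d : ℕ} {ι κ : Type} [Fintype ι] [DecidableEq ι] [Fintype κ]

theorem fn_meas (f : L2 d) : Measurable (fn f) := by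
  exact (Lp.stronglyMeasurable f).measurable

theorem fn_sq (f : L2 d) :
    Integrable (fun x => ‖fn f x‖ ^ 2) ∧ ∫ x, ‖fn f x‖ ^ 2 = ‖f‖ ^ 2 := by
  refine ⟨(memLp_two_iff_integrable_sq_norm (Lp.memLp f).1).1 (Lp.memLp f), ?_⟩
  rw [← inner_self_eq_norm_sq (𝕜 := ℂ) f, L2.inner_def,
    ← integral_re (L2.integrable_inner (𝕜 := ℂ) f f)]
  exact integral_congr_ae (Filter.Eventually.of_forall fun x =>
    (inner_self_eq_norm_sq (𝕜 := ℂ) (fn f x)).symm)

theorem fn_mass {u : L2 d} (hu : ‖u‖ = 1) : ∫⁻ x, ‖fn u x‖ₑ ^ 2 = 1 := by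
  obtain ⟨h1, h2⟩ := fn_sq u
  have h3 := ofReal_integral_eq_lintegral_ofReal h1
    (Filter.Eventually.of_forall fun x => by positivity)
  rw [h2, hu] at h3
  have h4 : ∀ x, ‖fn u x‖ₑ ^ 2 = ENNReal.ofReal (‖fn u x‖ ^ 2) := fun x => by
    rw [ENNReal.ofReal_pow (norm_nonneg _), ofReal_norm]
  simp only [h4]
  rw [← h3]
  simp

theorem measurable_uu (Q : Set (E d)) {f : E d → ℂ} (hf : Measurable f) : Measurable (uu Q f) := by
  have m : Measurable fun q : E d × E d => f (q.1 + q.2) := by fun_prop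
  exact (m.stronglyMeasurable.integral_prod_right' (ν := volume.restrict Q)).measurable

theorem r1_cs (Q : Set (E d)) {f : E d → ℂ} (hf : Measurable f) (p : E d) :
    ‖uu Q f p‖ₑ ^ 2 ≤ volume Q * ∫⁻ s in Q, ‖f (p + s)‖ₑ ^ 2 := by
  have m : Measurable fun s : E d => ‖f (p + s)‖ₑ := by fun_prop
  have h1 := ENNReal.lintegral_mul_le_Lp_mul_Lq (volume.restrict Q)
    Real.HolderConjugate.two_two (f := fun _ => 1) aemeasurable_const m.aemeasurable
  simp only [Pi.mul_apply, one_mul, one_pow, lintegral_const, Measure.restrict_apply_univ,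
    ENNReal.rpow_two] at h1
  refine (pow_le_pow_left' ((enorm_integral_le_lintegral_enorm _).trans h1) 2).trans_eq ?_
  rw [← ENNReal.mul_rpow_of_nonneg _ _ (by norm_num), ← ENNReal.rpow_two, ← ENNReal.rpow_mul]
  simp

theorem r1_ofReal (c : ℝ) (hc : 0 ≤ c) (z : ℂ) :
    ENNReal.ofReal (c * ‖z‖ ^ 2) = ENNReal.ofReal c * ‖z‖ₑ ^ 2 := by
  rw [ENNReal.ofReal_mul hc, ENNReal.ofReal_pow (norm_nonneg _), ofReal_norm]

theorem r1_main {Q : Set (E d)} (hQm : MeasurableSet Q) (hQ : volume Q ≠ ∞) (f : L2 d)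
    {w w' : E d → ℝ} (hw : Continuous w)
    (hw' : Continuous w') (h0 : ∀ p, 0 ≤ w p) (h0' : ∀ p, 0 ≤ w' p)
    (hle : ∀ p, ∀ s ∈ Q, w p ≤ w' (p + s))
    (hI : Integrable fun ξ => w' ξ * ‖fn f ξ‖ ^ 2) :
    Integrable (fun p => w p * ‖uu Q (fn f) p‖ ^ 2) ∧
      ∫ p, w p * ‖uu Q (fn f) p‖ ^ 2 ≤ volume.real Q ^ 2 * ∫ ξ, w' ξ * ‖fn f ξ‖ ^ 2 := by
  have hm := fn_meas f
  set F : E d → ℝ≥0∞ := fun ξ => ENNReal.ofReal (w' ξ * ‖fn f ξ‖ ^ 2) with hFdef
  have hF : Measurable F := (hw'.measurable.mul (hm.norm.pow_const 2)).ennreal_ofReal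
  have hpt : ∀ p, ENNReal.ofReal (w p * ‖uu Q (fn f) p‖ ^ 2) ≤
      volume Q * ∫⁻ s in Q, F (p + s) := by
    intro p
    rw [r1_ofReal _ (h0 p)]
    calc ENNReal.ofReal (w p) * ‖uu Q (fn f) p‖ₑ ^ 2
        ≤ ENNReal.ofReal (w p) * (volume Q * ∫⁻ s in Q, ‖fn f (p + s)‖ₑ ^ 2) :=
          mul_le_mul_right (r1_cs Q hm p) _
      _ = volume Q * ∫⁻ s in Q, ENNReal.ofReal (w p) * ‖fn f (p + s)‖ₑ ^ 2 := by
          rw [lintegral_const_mul' _ _ ENNReal.ofReal_ne_top, mul_left_comm]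
      _ ≤ volume Q * ∫⁻ s in Q, F (p + s) := by
          refine mul_le_mul_right (setLIntegral_mono' hQm fun s hs => ?_) _
          simp only [hFdef]
          rw [r1_ofReal _ (h0' _)]
          exact mul_le_mul_left (ENNReal.ofReal_le_ofReal (hle p s hs)) _
  have hm2 : Measurable (Function.uncurry fun (p s : E d) => F (p + s)) :=
    hF.comp (measurable_fst.add measurable_snd)
  have hpos : ∀ ξ, 0 ≤ w' ξ * ‖fn f ξ‖ ^ 2 := fun ξ => mul_nonneg (h0' ξ) (sq_nonneg _)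
  have hL : ∫⁻ p, ENNReal.ofReal (w p * ‖uu Q (fn f) p‖ ^ 2) ≤
      ENNReal.ofReal (volume.real Q ^ 2 * ∫ ξ, w' ξ * ‖fn f ξ‖ ^ 2) :=
    calc _ ≤ ∫⁻ p, volume Q * ∫⁻ s in Q, F (p + s) := lintegral_mono hpt
      _ = volume Q * ∫⁻ s in Q, ∫⁻ p, F (p + s) := by
        rw [lintegral_const_mul' _ _ hQ, lintegral_lintegral_swap hm2.aemeasurable]
      _ = volume Q * ∫⁻ _ in Q, ∫⁻ p, F p := by
        simp only [lintegral_add_right_eq_self F]
      _ = _ := by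
        rw [setLIntegral_const, ENNReal.ofReal_mul (sq_nonneg _),
          ofReal_integral_eq_lintegral_ofReal hI (Filter.Eventually.of_forall hpos),
          ENNReal.ofReal_pow measureReal_nonneg, ofReal_measureReal hQ]
        ring
  have hg0 : ∀ p, 0 ≤ w p * ‖uu Q (fn f) p‖ ^ 2 := fun p => mul_nonneg (h0 p) (sq_nonneg _)
  have hgm : AEStronglyMeasurable (fun p => w p * ‖uu Q (fn f) p‖ ^ 2) volume :=
    (hw.measurable.mul ((measurable_uu Q hm).norm.pow_const 2)).aestronglyMeasurable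
  refine ⟨⟨hgm, (hasFiniteIntegral_iff_ofReal (Filter.Eventually.of_forall hg0)).2
    (hL.trans_lt ENNReal.ofReal_lt_top)⟩, ?_⟩
  rw [integral_eq_lintegral_of_nonneg_ae (Filter.Eventually.of_forall hg0) hgm]
  exact ENNReal.toReal_le_of_le_ofReal (mul_nonneg (sq_nonneg _) (integral_nonneg hpos)) hL

theorem uu_sq {Q : Set (E d)} (hQm : MeasurableSet Q) (hQ : volume Q ≠ ∞) (f : L2 d) :
    Integrable (fun p => ‖uu Q (fn f) p‖ ^ 2) ∧
      ∫ p, ‖uu Q (fn f) p‖ ^ 2 ≤ volume.real Q ^ 2 * ‖f‖ ^ 2 := by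
  have := r1_main hQm hQ f (w := fun _ => 1) (w' := fun _ => 1) continuous_const continuous_const
    (fun _ => zero_le_one) (fun _ => zero_le_one) (fun _ _ _ => le_rfl)
    (by simpa only [one_mul] using (fn_sq f).1)
  simpa only [one_mul, (fn_sq f).2] using this

theorem uu_kin {Q : Set (E d)} (hQm : MeasurableSet Q) (hQ : volume Q ≠ ∞) {r : ℝ} (hr0 : 0 ≤ r)
    (hr : ∀ s ∈ Q, ‖s‖ ≤ r) (m : ℝ) (f : L2 d)
    (hf : Integrable fun ξ => sym m ξ * ‖fn f ξ‖ ^ 2) :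
    Integrable (fun p => sym m p * ‖uu Q (fn f) p‖ ^ 2) ∧
      ∫ p, sym m p * ‖uu Q (fn f) p‖ ^ 2 ≤ volume.real Q ^ 2 *
        ((∫ ξ, sym m ξ * ‖fn f ξ‖ ^ 2) + 2 * Real.pi * r * ‖f‖ ^ 2) := by
  have h2 := (fn_sq f).1.const_mul (2 * Real.pi * r)
  have hc : 0 ≤ 2 * Real.pi := by positivity
  have := r1_main hQm hQ f (w := fun p => sym m p) (w' := fun p => sym m p + 2 * Real.pi * r)
    (continuous_sym m) ((continuous_sym m).add continuous_const) (sym_nonneg m)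
    (fun p => add_nonneg (sym_nonneg m p) (mul_nonneg hc hr0))
    (fun p s hs => by
      have h1 := sym_lip m p s
      have h3 := mul_le_mul_of_nonneg_left (hr s hs) hc
      linarith)
    (by simp only [add_mul]; exact hf.add h2)
  simp only [add_mul] at this
  rwa [integral_add hf h2, integral_const_mul, (fn_sq f).2] at this

end Pool.Agent.P.MP_9f4f5e_mp.RL
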