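import Pool.Agent.P.MP_9f4f5e_mp.RL.R9

set_option linter.unusedSectionVars false
set_option linter.unusedVariables false

open MeasureTheory Matrix
open scoped ENNReal ComplexOrder ComplexConjugate FourierTransform RealInnerProductSpace
open Pool.Agent.P.MP_9f4f5e_mp.LT (tp pp dg qf ec fej Spec)

noncomputable section

namespace Pool.Agent.P.MP_9f4f5e_mp.RL

variable {d : ℕ} {ι κ : Type} [Fintype ι] [DecidableEq ι] [Fintype κ]

theorem r10_meas (u : L2 d) : Measurable (fn u) := (Lp.stronglyMeasurable u).measurable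

theorem r10_ofReal (a : ℝ) (z : ℂ) (ha : 0 ≤ a) :
    ENNReal.ofReal a * ‖z‖ₑ ^ 2 = ENNReal.ofReal (a * ‖z‖ ^ 2) := by
  rw [ENNReal.ofReal_mul ha, ENNReal.ofReal_pow (norm_nonneg _), ofReal_norm]

theorem r10_kin_eq (m : ℝ) (u : L2 d) :
    kin m u = ∫⁻ ξ, ENNReal.ofReal (sym m ξ * ‖fn (ft u) ξ‖ ^ 2) :=
  lintegral_congr fun ξ => r10_ofReal _ _ (sym_nonneg m ξ)

theorem r10_kin_int {m : ℝ} {u : L2 d} (h : kin m u ≠ ∞) :
    Integrable fun ξ => sym m ξ * ‖fn (ft u) ξ‖ ^ 2 := by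
  have hm : Measurable fun ξ : E d => sym m ξ * ‖fn (ft u) ξ‖ ^ 2 :=
    (continuous_sym m).measurable.mul ((r10_meas _).norm.pow_const 2)
  rw [r10_kin_eq] at h
  exact (lintegral_ofReal_ne_top_iff_integrable hm.aestronglyMeasurable
    (Filter.Eventually.of_forall fun ξ => mul_nonneg (sym_nonneg m ξ) (by positivity))).1 h

theorem r10_kin_val {m : ℝ} {u : L2 d} (h : kin m u ≠ ∞) : kin m u = ENNReal.ofReal (tk m u) := by
  rw [r10_kin_eq, tk]
  exact (ofReal_integral_eq_lintegral_ofReal (r10_kin_int h)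
    (Filter.Eventually.of_forall fun ξ => mul_nonneg (sym_nonneg m ξ) (by positivity))).symm

theorem r10_sq (u : L2 d) : Integrable fun z => ‖fn u z‖ ^ 2 :=
  (memLp_two_iff_integrable_sq_norm (Lp.aestronglyMeasurable u)).1 (Lp.memLp u)

theorem r10_pot_val (u : L2 d) {V : E d → ℝ} (hV : Measurable V) {M : ℝ} (h0 : ∀ x, 0 ≤ V x)
    (hM : ∀ x, V x ≤ M) : pot V u = ENNReal.ofReal (∫ z, ‖fn u z‖ ^ 2 * V z) := by
  have hi : Integrable fun z => ‖fn u z‖ ^ 2 * V z :=
    (r10_sq u).mul_bdd hV.aestronglyMeasurable (c := M) (Filter.Eventually.of_forall fun x => by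
      rw [Real.norm_eq_abs, abs_of_nonneg (h0 x)]; exact hM x)
  rw [ofReal_integral_eq_lintegral_ofReal hi
    (Filter.Eventually.of_forall fun x => mul_nonneg (by positivity) (h0 x))]
  unfold pot
  refine lintegral_congr fun x => ?_
  rw [r10_ofReal _ _ (h0 x), mul_comm]

theorem r10_bounded {u : κ → L2 d} (hu : Orthonormal ℂ u) {m : ℝ} (hm : 0 ≤ m)
    {V : E d → ℝ} (hV : Measurable V) {M r : ℝ} (h0 : ∀ x, 0 ≤ V x) (hM : ∀ x, V x ≤ M)
    (hs : ∀ x, r ≤ ‖x‖ → V x = 0) :
    ∑ k, (pot V (u k) - kin m (u k)) ^ 3 ≤ ph3 m V := by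
  classical
  by_cases ht : ph3 m V = ∞
  · rw [ht]
    exact le_top
  let κ' := {k // kin m (u k) ≠ ∞}
  let c : κ' → ℝ := fun k => max ((∫ z, ‖fn (u k.1) z‖ ^ 2 * V z) - tk m (u k.1)) 0
  have key := bounded_level (κ := κ') (u := fun k => u k.1) (hu.comp _ Subtype.val_injective) hm
    (fun k => r10_kin_int k.2) hV h0 hM hs c (fun k => le_max_right _ _)
    (B := (ph3 m V).toReal) ENNReal.toReal_nonneg (ENNReal.ofReal_toReal ht).ge
  have e1 : ∀ k : κ', 3 * c k ^ 2 * ((∫ z, ‖fn (u k.1) z‖ ^ 2 * V z) - tk m (u k.1))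
      - 2 * c k ^ 3 = c k ^ 3 := by
    intro k
    rcases le_total ((∫ z, ‖fn (u k.1) z‖ ^ 2 * V z) - tk m (u k.1)) 0 with h | h
    · have : c k = 0 := max_eq_right h
      rw [this]; ring
    · have : c k = _ := max_eq_left h
      rw [← this]; ring
  simp only [e1] at key
  have e2 : ∀ k : κ', (pot V (u k.1) - kin m (u k.1)) ^ 3 = ENNReal.ofReal (c k ^ 3) := by
    intro k
    have htk : 0 ≤ tk m (u k.1) :=
      integral_nonneg fun ξ => mul_nonneg (sym_nonneg m ξ) (by positivity)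
    rw [r10_pot_val _ hV h0 hM, r10_kin_val k.2, ← ENNReal.ofReal_sub _ htk,
      ENNReal.ofReal_pow (le_max_right _ _), ENNReal.ofReal_max, ENNReal.ofReal_zero,
      max_eq_left (zero_le)]
  have e5 : ∑ k, (pot V (u k) - kin m (u k)) ^ 3
      = ∑ k : κ', (pot V (u k.1) - kin m (u k.1)) ^ 3 := by
    rw [← Finset.sum_subtype (Finset.univ.filter fun k => kin m (u k) ≠ ∞) (by simp)
      (fun k => (pot V (u k) - kin m (u k)) ^ 3)]
    refine (Finset.sum_subset (Finset.filter_subset _ _) fun k _ hk => ?_).symm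
    have : kin m (u k) = ∞ := by simpa using hk
    rw [this]
    simp
  rw [e5, ← ENNReal.ofReal_toReal ht]
  simp only [e2]
  rw [← ENNReal.ofReal_sum_of_nonneg fun k _ => pow_nonneg (le_max_right _ _) 3]
  exact ENNReal.ofReal_le_ofReal key

/-- truncation -/
def r10_tr (V : E d → ℝ) (n : ℕ) (x : E d) : ℝ := if ‖x‖ < n then min (max (V x) 0) n else 0

theorem r10_tr_meas {V : E d → ℝ} (hV : Measurable V) (n : ℕ) : Measurable (r10_tr V n) :=
  Measurable.ite (measurableSet_lt measurable_norm measurable_const)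
    ((hV.max measurable_const).min measurable_const) measurable_const

theorem r10_tr_nonneg (V : E d → ℝ) (n : ℕ) (x : E d) : 0 ≤ r10_tr V n x := by
  unfold r10_tr
  split_ifs
  · exact le_min (le_max_right _ _) (Nat.cast_nonneg n)
  · exact le_rfl

theorem r10_tr_le (V : E d → ℝ) (n : ℕ) (x : E d) : r10_tr V n x ≤ n := by
  unfold r10_tr
  split_ifs
  · exact min_le_right _ _
  · exact Nat.cast_nonneg n

theorem r10_tr_le' (V : E d → ℝ) (n : ℕ) (x : E d) {k : ℝ} (hk : 0 ≤ k) :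
    ENNReal.ofReal (r10_tr V n x - k) ≤ ENNReal.ofReal (V x - k) := by
  have h : r10_tr V n x ≤ max (V x) 0 := by
    unfold r10_tr
    split_ifs
    · exact min_le_left _ _
    · exact le_max_right _ _
  rcases le_total (V x) 0 with h1 | h1
  · rw [max_eq_right h1] at h
    rw [ENNReal.ofReal_of_nonpos (by linarith)]
    exact zero_le
  · rw [max_eq_left h1] at h
    exact ENNReal.ofReal_le_ofReal (by linarith)

theorem r10_tr_mono (V : E d → ℝ) (x : E d) : Monotone fun n => r10_tr V n x := by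
  intro n m h
  have h' : (n : ℝ) ≤ m := Nat.cast_le.2 h
  by_cases hn : ‖x‖ < n
  · simp only [r10_tr, if_pos hn, if_pos (hn.trans_le h')]
    exact min_le_min le_rfl h'
  · have := r10_tr_nonneg V m x
    simpa only [r10_tr, if_neg hn] using this

theorem r10_tr_ev (V : E d → ℝ) (x : E d) :
    ∀ᶠ n : ℕ in Filter.atTop, ENNReal.ofReal (r10_tr V n x) = ENNReal.ofReal (V x) := by
  filter_upwards [tendsto_natCast_atTop_atTop (R := ℝ).eventually_gt_atTop ‖x‖,
    tendsto_natCast_atTop_atTop (R := ℝ).eventually_ge_atTop (max (V x) 0)] with n h1 h2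
  rw [r10_tr, if_pos h1, min_eq_left h2, ENNReal.ofReal_max, ENNReal.ofReal_zero,
    max_eq_left (zero_le)]

theorem r10_pot_lim {V : E d → ℝ} (hV : Measurable V) (u : L2 d) :
    Filter.Tendsto (fun n => pot (r10_tr V n) u) Filter.atTop (nhds (pot V u)) := by
  unfold pot
  refine lintegral_tendsto_of_tendsto_of_monotone
    (fun n => ((r10_tr_meas hV n).ennreal_ofReal.mul
      ((r10_meas u).enorm.pow_const 2)).aemeasurable)
    (Filter.Eventually.of_forall fun x n m h =>
      mul_le_mul_left (ENNReal.ofReal_le_ofReal (r10_tr_mono V x h)) _)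
    (Filter.Eventually.of_forall fun x => tendsto_const_nhds.congr' ?_)
  filter_upwards [r10_tr_ev V x] with n hn
  rw [hn]

theorem lt_three {u : κ → L2 d} (hu : Orthonormal ℂ u) {m : ℝ} (hm : 0 ≤ m) {V : E d → ℝ}
    (hV : Measurable V) :
    ∑ k, (pot V (u k) - kin m (u k)) ^ 3
      ≤ ∫⁻ x, ∫⁻ ξ : E d, ENNReal.ofReal (V x - sym m ξ) ^ 3 := by
  have h1 : Filter.Tendsto (fun n => ∑ k, (pot (r10_tr V n) (u k) - kin m (u k)) ^ 3) Filter.atTop
      (nhds (∑ k, (pot V (u k) - kin m (u k)) ^ 3)) := by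
    refine tendsto_finsetSum _ fun k _ => ?_
    exact ((ENNReal.continuous_pow 3).comp (ENNReal.continuous_sub_right _)).continuousAt.tendsto.comp
      (r10_pot_lim hV (u k))
  refine le_of_tendsto' h1 fun n => ?_
  refine (r10_bounded hu hm (r10_tr_meas hV n) (r10_tr_nonneg V n) (r10_tr_le V n) (r := n)
    fun x hx => if_neg (not_lt.2 hx)).trans ?_
  have hs : Measurable fun q : E d × E d => ENNReal.ofReal (V q.1 - sym m q.2) ^ 3 :=
    ((hV.comp measurable_fst).sub
      ((continuous_sym m).measurable.comp measurable_snd)).ennreal_ofReal.pow_const 3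
  rw [lintegral_lintegral_swap hs.aemeasurable]
  exact lintegral_mono fun ξ => lintegral_mono fun x =>
    pow_le_pow_left' (r10_tr_le' V n x (sym_nonneg m ξ)) 3

end Pool.Agent.P.MP_9f4f5e_mp.RL
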