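import Pool.Agent.P.MP_9f4f5e_mp.LT1.S10
import Pool.Agent.P.MP_9f4f5e_mp.RL.R10

set_option linter.unusedSectionVars false
set_option linter.unusedVariables false

open MeasureTheory Matrix
open scoped ENNReal ComplexOrder ComplexConjugate FourierTransform RealInnerProductSpace
open Pool.Agent.P.MP_9f4f5e_mp.LT (tp pp dg qf ec fej Spec)

noncomputable section

namespace Pool.Agent.P.MP_9f4f5e_mp.RL

variable {d : ℕ} {ι κ : Type} [Fintype ι] [DecidableEq ι] [Fintype κ]

theorem r11_mass {u : L2 d} (hu : ‖u‖ = 1) : ∫⁻ x, ‖fn u x‖ₑ ^ 2 = 1 := by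
  obtain ⟨h1, h2⟩ := fn_sq u
  have h3 := ofReal_integral_eq_lintegral_ofReal h1
    (Filter.Eventually.of_forall fun x => by positivity)
  rw [h2, hu] at h3
  have h4 : ∀ x, ‖fn u x‖ₑ ^ 2 = ENNReal.ofReal (‖fn u x‖ ^ 2) := fun x => by
    rw [ENNReal.ofReal_pow (norm_nonneg _), ofReal_norm]
  simp only [h4]
  rw [← h3]
  simp

theorem r11_meas (u : L2 d) : Measurable fun x => ‖fn u x‖ₑ ^ 2 :=
  ((Lp.stronglyMeasurable u).measurable.enorm).pow_const 2

theorem r11_pot {u : L2 d} (hu : ‖u‖ = 1) {V : E d → ℝ} {s : ℝ} (hs : 0 ≤ s) :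
    pot V u ≤ pot (fun x => V x - s) u + ENNReal.ofReal s := by
  unfold pot
  have h1 : ∀ x, ENNReal.ofReal (V x) * ‖fn u x‖ₑ ^ 2 ≤
      ENNReal.ofReal (V x - s) * ‖fn u x‖ₑ ^ 2 + ENNReal.ofReal s * ‖fn u x‖ₑ ^ 2 := fun x => by
    rw [← add_mul, ENNReal.ofReal_sub _ hs]
    exact mul_le_mul_left le_tsub_add _
  refine (lintegral_mono h1).trans ?_
  rw [lintegral_add_right _ ((r11_meas u).const_mul _), lintegral_const_mul _ (r11_meas u),
    r11_mass hu, mul_one]

theorem r11_shift {u : L2 d} (hu : ‖u‖ = 1) (m : ℝ) {V : E d → ℝ} {s : ℝ} (hs : 0 ≤ s) :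
    (pot V u - kin m u) - ENNReal.ofReal s ≤ pot (fun x => V x - s) u - kin m u := by
  rw [tsub_right_comm]
  exact tsub_le_tsub_right (tsub_le_iff_right.2 (r11_pot hu hs)) _

theorem r11_W (m : ℝ) {V : E d → ℝ} (hV : Measurable V) :
    Measurable fun z : E d × E d => ENNReal.ofReal (V z.1 - sym m z.2) := by
  have h : Continuous (sym m : E d → ℝ) := by
    unfold sym
    fun_prop
  exact ((hV.comp measurable_fst).sub (h.measurable.comp measurable_snd)).ennreal_ofReal

theorem r11_step {u : κ → L2 d} (hu : Orthonormal ℂ u) {m : ℝ} (hm : 0 ≤ m) {V : E d → ℝ}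
    (hV : Measurable V) {s : ℝ} (hs : 0 ≤ s) :
    ∑ k, ((pot V (u k) - kin m (u k)) - ENNReal.ofReal s) ^ 3
      ≤ ∫⁻ z : E d × E d, (ENNReal.ofReal (V z.1 - sym m z.2) - ENNReal.ofReal s) ^ 3
        ∂(volume.prod volume) := by
  have h1 := lt_three hu hm (V := fun x => V x - s) (hV.sub_const s)
  simp only [sub_right_comm _ s, ENNReal.ofReal_sub _ hs] at h1
  rw [lintegral_prod (fun z : E d × E d =>
    (ENNReal.ofReal (V z.1 - sym m z.2) - ENNReal.ofReal s) ^ 3)
    (((r11_W m hV).sub measurable_const).pow_const 3).aemeasurable]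
  refine le_trans (Finset.sum_le_sum fun k _ => ?_) h1
  exact pow_le_pow_left' (r11_shift (hu.1 k) m hs) 3

theorem r11_main {a : ℝ} (ha : 0 < a) {u : κ → L2 d} (hu : Orthonormal ℂ u) {m : ℝ} (hm : 0 ≤ m)
    {V : E d → ℝ} (hV : Measurable V) :
    ENNReal.ofReal (6 / (a * (a + 1) * (a + 2) * (a + 3))) *
        ∑ k, (pot V (u k) - kin m (u k)) ^ (a + 3)
      ≤ ENNReal.ofReal (6 / (a * (a + 1) * (a + 2) * (a + 3))) * phase m (a + 3) V := by
  have hw : Measurable fun s : ℝ => ENNReal.ofReal (s ^ (a - 1)) :=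
    (measurable_id.pow_const (a - 1)).ennreal_ofReal
  have hW := r11_W m hV
  have hL : ENNReal.ofReal (6 / (a * (a + 1) * (a + 2) * (a + 3))) *
      ∑ k, (pot V (u k) - kin m (u k)) ^ (a + 3) =
      ∫⁻ s in Set.Ioi (0 : ℝ), ENNReal.ofReal (s ^ (a - 1)) *
        ∑ k, ((pot V (u k) - kin m (u k)) - ENNReal.ofReal s) ^ 3 := by
    simp only [Finset.mul_sum]
    rw [lintegral_finsetSum]
    · exact Finset.sum_congr rfl fun k _ => (LT1.al_three ha _).symm
    · intro k _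
      exact hw.mul ((measurable_const.sub measurable_id.ennreal_ofReal).pow_const 3)
  have hq : Measurable fun p : ℝ × (E d × E d) => ENNReal.ofReal (p.1 ^ (a - 1)) *
      (ENNReal.ofReal (V p.2.1 - sym m p.2.2) - ENNReal.ofReal p.1) ^ 3 :=
    (hw.comp measurable_fst).mul
      (((hW.comp measurable_snd).sub measurable_fst.ennreal_ofReal).pow_const 3)
  have hR : ENNReal.ofReal (6 / (a * (a + 1) * (a + 2) * (a + 3))) * phase m (a + 3) V =
      ∫⁻ s in Set.Ioi (0 : ℝ), ENNReal.ofReal (s ^ (a - 1)) *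
        ∫⁻ z : E d × E d, (ENNReal.ofReal (V z.1 - sym m z.2) - ENNReal.ofReal s) ^ 3
          ∂(volume.prod volume) := by
    rw [phase, ← lintegral_prod (fun z : E d × E d => ENNReal.ofReal (V z.1 - sym m z.2) ^ (a + 3))
      (hW.pow_const (a + 3)).aemeasurable, ← lintegral_const_mul _ (hW.pow_const (a + 3))]
    have h1 : ∀ s : ℝ, ENNReal.ofReal (s ^ (a - 1)) *
        ∫⁻ z : E d × E d, (ENNReal.ofReal (V z.1 - sym m z.2) - ENNReal.ofReal s) ^ 3
          ∂(volume.prod volume) =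
        ∫⁻ z : E d × E d, ENNReal.ofReal (s ^ (a - 1)) *
          (ENNReal.ofReal (V z.1 - sym m z.2) - ENNReal.ofReal s) ^ 3 ∂(volume.prod volume) :=
      fun s => (lintegral_const_mul _ ((hW.sub measurable_const).pow_const 3)).symm
    simp only [h1]
    rw [lintegral_lintegral_swap (μ := volume.restrict (Set.Ioi (0 : ℝ)))
      (ν := (volume : Measure (E d)).prod (volume : Measure (E d)))
      (f := fun s z => ENNReal.ofReal (s ^ (a - 1)) *
        (ENNReal.ofReal (V z.1 - sym m z.2) - ENNReal.ofReal s) ^ 3) hq.aemeasurable]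
    exact lintegral_congr fun x => (LT1.al_three ha _).symm
  rw [hL, hR]
  exact setLIntegral_mono' measurableSet_Ioi fun s hs =>
    mul_le_mul_right (r11_step hu hm hV (le_of_lt hs)) _

theorem lt_upper {m γ : ℝ} (hm : 0 ≤ m) (hγ : 3 ≤ γ) : LiebThirring d m γ 1 := by
  intro N u hu V hV
  rw [ENNReal.ofReal_one, one_mul]
  rcases eq_or_lt_of_le hγ with rfl | hlt
  · have h2 : (3 : ℝ) = ((3 : ℕ) : ℝ) := by norm_num
    simp only [phase, h2, ENNReal.rpow_natCast]
    exact lt_three hu hm hV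
  · have ha : 0 < γ - 3 := sub_pos.2 hlt
    have h1 := r11_main ha hu hm hV
    have hp : 0 < 6 / ((γ - 3) * (γ - 3 + 1) * (γ - 3 + 2) * (γ - 3 + 3)) := by positivity
    have h2 := (ENNReal.mul_le_mul_iff_right (ENNReal.ofReal_pos.2 hp).ne'
      ENNReal.ofReal_ne_top).1 h1
    rwa [sub_add_cancel] at h2

end Pool.Agent.P.MP_9f4f5e_mp.RL
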