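import Pool.Agent.P.MP_9f4f5e_mp.RL.R1

set_option linter.unusedSectionVars false
set_option linter.unusedVariables false

open MeasureTheory Matrix
open scoped ENNReal ComplexOrder ComplexConjugate FourierTransform RealInnerProductSpace
open Pool.Agent.P.MP_9f4f5e_mp.LT (tp pp dg qf ec fej Spec)

noncomputable section

namespace Pool.Agent.P.MP_9f4f5e_mp.RL

variable {d : ℕ} {ι κ : Type} [Fintype ι] [DecidableEq ι] [Fintype κ]

theorem orthonormal_ft {κ : Type} {u : κ → L2 d} (hu : Orthonormal ℂ u) :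
    Orthonormal ℂ fun k => ft (u k) := by
  classical
  rw [orthonormal_iff_ite] at hu ⊢
  intro i j
  rw [← hu i j]
  exact Lp.inner_fourier_eq _ _

theorem r3_meas {Q : Set (E d)} (hQm : MeasurableSet Q) (p : E d) :
    MeasurableSet {ξ : E d | ξ - p ∈ Q} :=
  (measurable_sub_const p) hQm

theorem r3_vol (Q : Set (E d)) (p : E d) : volume {ξ : E d | ξ - p ∈ Q} = volume Q := by
  have : {ξ : E d | ξ - p ∈ Q} = (fun ξ => ξ + (-p)) ⁻¹' Q := by
    ext ξ
    simp [sub_eq_add_neg]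
  rw [this, measure_preimage_add_right]

/-- the indicator of a translated cell -/
def r3_e {Q : Set (E d)} (hQm : MeasurableSet Q) (hQ : volume Q ≠ ∞) (p : E d) : L2 d :=
  indicatorConstLp 2 (r3_meas hQm p) ((r3_vol Q p).trans_ne hQ) (1 : ℂ)

theorem r3_inner {Q : Set (E d)} (hQm : MeasurableSet Q) (hQ : volume Q ≠ ∞) (p : E d)
    (f : L2 d) : inner ℂ (r3_e hQm hQ p) f = uu Q (fn f) p := by
  rw [r3_e, L2.inner_indicatorConstLp_one, uu, ← integral_indicator (r3_meas hQm p),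
    ← integral_indicator hQm, ← integral_add_left_eq_self _ p]
  refine integral_congr_ae (Filter.Eventually.of_forall fun s => ?_)
  by_cases hs : s ∈ Q
  · have h2 : p + s ∈ {ξ : E d | ξ - p ∈ Q} := by simpa using hs
    simp only [Set.indicator_of_mem hs, Set.indicator_of_mem h2, fn]
  · have h2 : p + s ∉ {ξ : E d | ξ - p ∈ Q} := by simpa using hs
    simp only [Set.indicator_of_notMem hs, Set.indicator_of_notMem h2]

theorem r3_inner_e {Q : Set (E d)} (hQm : MeasurableSet Q) (hQ : volume Q ≠ ∞) (p q : E d) :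
    inner ℂ (r3_e hQm hQ p) (r3_e hQm hQ q) =
      ((volume.real ({ξ : E d | ξ - p ∈ Q} ∩ {ξ : E d | ξ - q ∈ Q}) : ℝ) : ℂ) :=
  L2.inner_indicatorConstLp_one_indicatorConstLp_one (r3_meas hQm p) (r3_meas hQm q)
    ((r3_vol Q p).trans_ne hQ) ((r3_vol Q q).trans_ne hQ)

theorem r3_orth {Q : Set (E d)} (hQm : MeasurableSet Q) (hQ : volume Q ≠ ∞) {a : ι → E d}
    (hdis : ∀ i j, i ≠ j → ∀ s ∈ Q, ∀ s' ∈ Q, a i + s ≠ a j + s') (t : E d) (i j : ι) :
    inner ℂ (r3_e hQm hQ (a i - t)) (r3_e hQm hQ (a j - t)) =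
      if i = j then ((volume.real Q : ℝ) : ℂ) else 0 := by
  rw [r3_inner_e]
  split_ifs with hij
  · subst hij
    rw [Set.inter_self, Measure.real, r3_vol, Measure.real]
  · have key : {ξ : E d | ξ - (a i - t) ∈ Q} ∩ {ξ : E d | ξ - (a j - t) ∈ Q} = ∅ :=
      Set.eq_empty_of_forall_notMem fun x hx => hdis i j hij _ hx.1 _ hx.2 (by abel)
    rw [key]
    simp

theorem uu_bessel {f : κ → L2 d} (hf : Orthonormal ℂ f) {Q : Set (E d)} (hQm : MeasurableSet Q)
    (hQ : volume Q ≠ ∞) (a : ι → E d)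
    (hdis : ∀ i j, i ≠ j → ∀ s ∈ Q, ∀ s' ∈ Q, a i + s ≠ a j + s') (t : E d) (c : ι → ℂ) :
    ∑ k, ‖∑ i, conj (c i) * uu Q (fn (f k)) (a i - t)‖ ^ 2
      ≤ volume.real Q * ∑ i, ‖c i‖ ^ 2 := by
  set g : L2 d := ∑ i, c i • r3_e hQm hQ (a i - t) with hg
  have h1 : ∀ k, ∑ i, conj (c i) * uu Q (fn (f k)) (a i - t) = inner ℂ g (f k) := by
    intro k
    rw [hg, sum_inner]
    refine Finset.sum_congr rfl fun i _ => ?_
    rw [inner_smul_left, r3_inner]
  have h2 : inner ℂ g g = ((volume.real Q * ∑ i, ‖c i‖ ^ 2 : ℝ) : ℂ) := by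
    rw [hg, sum_inner]
    push_cast
    rw [Finset.mul_sum]
    refine Finset.sum_congr rfl fun i _ => ?_
    rw [inner_sum]
    simp only [inner_smul_left, inner_smul_right, r3_orth hQm hQ hdis]
    rw [Finset.sum_eq_single i]
    · rw [if_pos rfl, ← Complex.mul_conj']
      ring
    · intro j _ hj
      rw [if_neg hj.symm]
      simp
    · simp
  have h3 : ‖g‖ ^ 2 = volume.real Q * ∑ i, ‖c i‖ ^ 2 := by
    rw [inner_self_eq_norm_sq_to_K] at h2
    have h4 : ((‖g‖ ^ 2 : ℝ) : ℂ) = ((volume.real Q * ∑ i, ‖c i‖ ^ 2 : ℝ) : ℂ) := by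
      rw [← h2]
      push_cast
      rfl
    exact_mod_cast h4
  rw [← h3]
  refine le_trans (le_of_eq ?_) (hf.sum_inner_products_le g (s := Finset.univ))
  refine Finset.sum_congr rfl fun k _ => ?_
  rw [h1, norm_inner_symm]

end Pool.Agent.P.MP_9f4f5e_mp.RL
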