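import Pool.Agent.P.MP_9f4f5e_mp.RL.A2
import Pool.Agent.P.MP_9f4f5e_mp.RL.MI
import Pool.Agent.P.MP_9f4f5e_mp.RL.R2
import Pool.Agent.P.MP_9f4f5e_mp.RL.R3

set_option linter.unusedSectionVars false
set_option linter.unusedVariables false

open MeasureTheory Matrix
open scoped ENNReal ComplexOrder ComplexConjugate FourierTransform RealInnerProductSpace
open Pool.Agent.P.MP_9f4f5e_mp.LT (tp pp dg qf ec fej Spec)

noncomputable section

namespace Pool.Agent.P.MP_9f4f5e_mp.RL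

variable {d : ℕ} {ι κ : Type} [Fintype ι] [DecidableEq ι] [Fintype κ]

theorem r4_qf (W : Matrix ι ι ℂ) (v : ι → ℂ) :
    qf W v = (∑ i, ∑ j, v i * conj (v j) * W j i).re := by
  unfold qf
  congr 1
  simp only [dotProduct, Matrix.mulVec, Pi.star_apply, Finset.mul_sum, RCLike.star_def]
  rw [Finset.sum_comm]
  exact Finset.sum_congr rfl fun i _ => Finset.sum_congr rfl fun j _ => by ring

theorem finite_level {u : κ → L2 d} (hu : Orthonormal ℂ u) {m : ℝ} (hm : 0 ≤ m)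
    (hT : ∀ k, Integrable fun ξ => sym m ξ * ‖fn (ft (u k)) ξ‖ ^ 2) {Q : Set (E d)}
    (hQm : MeasurableSet Q) (hQ : volume Q ≠ ∞) {r : ℝ} (hr0 : 0 ≤ r) (hr : ∀ s ∈ Q, ‖s‖ ≤ r)
    (a : ι → E d) (hdis : ∀ i j, i ≠ j → ∀ s ∈ Q, ∀ s' ∈ Q, a i + s ≠ a j + s')
    {W : Matrix ι ι ℂ} (hW : W.IsHermitian) (c : κ → ℝ) (hc : ∀ k, 0 ≤ c k) :
    ∑ k, (3 * c k ^ 2 * ((∑ i, ∑ j,
        (∫ z, ((‖fn (u k) z‖ ^ 2 * ‖ww Q z‖ ^ 2 : ℝ) : ℂ) * ec (-⟪a i - a j, z⟫)) * W j i).re
        - Fintype.card ι * volume.real Q ^ 2 * (tk m (u k) + 2 * Real.pi * r))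
        - 2 * c k ^ 3 * (Fintype.card ι * volume.real Q ^ 2))
      ≤ volume.real Q * ∫ t : E d, tp 3 (W - dg fun _ => sym m t) := by
  set h : ℝ := volume.real Q with hh
  have hh0 : 0 ≤ h := measureReal_nonneg
  have hn : ∀ k, ‖ft (u k)‖ = 1 := fun k => (orthonormal_ft hu).1 k
  set v : E d → κ → ι → ℂ := fun t k i => uu Q (fn (ft (u k))) (a i - t) with hv
  have hC := fun k i j => uu_corr hQm hQ (u k) (a i) (a j)
  have hK : ∀ k i, Integrable (fun t => sym m (a i - t) * ‖v t k i‖ ^ 2) ∧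
      ∫ t, sym m (a i - t) * ‖v t k i‖ ^ 2 ≤ h ^ 2 * (tk m (u k) + 2 * Real.pi * r) :=
    fun k i => by
      obtain ⟨h1, h2⟩ := uu_kin hQm hQ hr0 hr m (ft (u k)) (hT k)
      rw [hn k, one_pow, mul_one] at h2
      exact ⟨h1.comp_sub_left (a i), (integral_sub_left_eq_self
        (fun p => sym m p * ‖uu Q (fn (ft (u k))) p‖ ^ 2) volume (a i)).trans_le h2⟩
  have hS : ∀ k i, Integrable (fun t => ‖v t k i‖ ^ 2) ∧ ∫ t, ‖v t k i‖ ^ 2 ≤ h ^ 2 :=
    fun k i => by
      obtain ⟨h1, h2⟩ := uu_sq hQm hQ (ft (u k))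
      rw [hn k, one_pow, mul_one] at h2
      exact ⟨h1.comp_sub_left (a i), (integral_sub_left_eq_self
        (fun p => ‖uu Q (fn (ft (u k))) p‖ ^ 2) volume (a i)).trans_le h2⟩
  have hA : ∀ k, Integrable fun t => ∑ i, ∑ j, v t k i * conj (v t k j) * W j i := fun k =>
    integrable_finsetSum _ fun i _ => integrable_finsetSum _ fun j _ => (hC k i j).1.mul_const _
  have hA' : ∀ k, Integrable fun t => (∑ i, ∑ j, v t k i * conj (v t k j) * W j i).re :=
    fun k => (hA k).re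
  have hB : ∀ k, Integrable fun t => ∑ i, sym m (a i - t) * ‖v t k i‖ ^ 2 := fun k =>
    integrable_finsetSum _ fun i _ => (hK k i).1
  have hD : ∀ k, Integrable fun t => ∑ i, ‖v t k i‖ ^ 2 := fun k =>
    integrable_finsetSum _ fun i _ => (hS k i).1
  have hI : ∀ k, Integrable fun t =>
      3 * c k ^ 2 * ((∑ i, ∑ j, v t k i * conj (v t k j) * W j i).re
      - ∑ i, sym m (a i - t) * ‖v t k i‖ ^ 2) - 2 * c k ^ 3 * ∑ i, ‖v t k i‖ ^ 2 := fun k =>
    (((hA' k).sub (hB k)).const_mul _).sub ((hD k).const_mul _)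
  have hpt : ∀ t, ∑ k, (3 * c k ^ 2 * ((∑ i, ∑ j, v t k i * conj (v t k j) * W j i).re
      - ∑ i, sym m (a i - t) * ‖v t k i‖ ^ 2) - 2 * c k ^ 3 * ∑ i, ‖v t k i‖ ^ 2)
      ≤ h * tp 3 (W - dg fun i => sym m (a i - t)) := fun t => by
    have := peierls3 (hW.sub (LT.dg_isHermitian fun i => sym m (a i - t))) (v t)
      (uu_bessel (orthonormal_ft hu) hQm hQ a hdis t) c hc
    simpa only [LT.qf_sub, LT.qf_dg, r4_qf W] using this
  have key := integral_mono (integrable_finsetSum _ fun k _ => hI k)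
    ((integrable_sym hW a m).const_mul h) hpt
  rw [integral_const_mul, integral_finsetSum _ fun k _ => hI k] at key
  refine le_trans (Finset.sum_le_sum fun k _ => ?_)
    (key.trans (mul_le_mul_of_nonneg_left (matrix_sym hW a hm) hh0))
  have eA : ∫ t, (∑ i, ∑ j, v t k i * conj (v t k j) * W j i).re
      = (∑ i, ∑ j, (∫ z, ((‖fn (u k) z‖ ^ 2 * ‖ww Q z‖ ^ 2 : ℝ) : ℂ)
          * ec (-⟪a i - a j, z⟫)) * W j i).re := by
    refine (integral_re (hA k)).trans (congrArg Complex.re ?_)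
    rw [integral_finsetSum _ fun i _ =>
      integrable_finsetSum _ fun j _ => (hC k i j).1.mul_const _]
    refine Finset.sum_congr rfl fun i _ => ?_
    rw [integral_finsetSum _ fun j _ => (hC k i j).1.mul_const _]
    refine Finset.sum_congr rfl fun j _ => ?_
    rw [integral_mul_const, (hC k i j).2]
  have eB : ∫ t, ∑ i, sym m (a i - t) * ‖v t k i‖ ^ 2 ≤
      Fintype.card ι * h ^ 2 * (tk m (u k) + 2 * Real.pi * r) := by
    rw [integral_finsetSum _ fun i _ => (hK k i).1]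
    refine (Finset.sum_le_sum fun i _ => (hK k i).2).trans_eq ?_
    rw [Finset.sum_const, Finset.card_univ, nsmul_eq_mul, mul_assoc (Fintype.card ι : ℝ)]
  have eD : ∫ t, ∑ i, ‖v t k i‖ ^ 2 ≤ Fintype.card ι * h ^ 2 := by
    rw [integral_finsetSum _ fun i _ => (hS k i).1]
    refine (Finset.sum_le_sum fun i _ => (hS k i).2).trans_eq ?_
    rw [Finset.sum_const, Finset.card_univ, nsmul_eq_mul]
  have i1 : Integrable fun t => (∑ i, ∑ j, v t k i * conj (v t k j) * W j i).re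
      - ∑ i, sym m (a i - t) * ‖v t k i‖ ^ 2 := (hA' k).sub (hB k)
  rw [integral_sub (i1.const_mul _) ((hD k).const_mul _), integral_const_mul, integral_const_mul,
    integral_sub (hA' k) (hB k), eA]
  have f1 := mul_le_mul_of_nonneg_left eB (mul_nonneg zero_le_three (sq_nonneg (c k)))
  have f2 := mul_le_mul_of_nonneg_left eD (mul_nonneg zero_le_two (pow_nonneg (hc k) 3))
  linarith

end Pool.Agent.P.MP_9f4f5e_mp.RL
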