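import Pool.Agent.P.MP_9f4f5e_mp.LT.G4
import Pool.Agent.P.MP_9f4f5e_mp.RL.R5

set_option linter.unusedSectionVars false
set_option linter.unusedVariables false

open MeasureTheory Matrix
open scoped ENNReal ComplexOrder ComplexConjugate FourierTransform RealInnerProductSpace
open Pool.Agent.P.MP_9f4f5e_mp.LT (tp pp dg qf ec fej Spec)

noncomputable section

namespace Pool.Agent.P.MP_9f4f5e_mp.RL

variable {d : ℕ} {ι κ : Type} [Fintype ι] [DecidableEq ι] [Fintype κ]

theorem ker_nonneg (n : ℕ) {h : ℝ} (hh : 0 < h) (y : E d) : 0 ≤ ker n h y := by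
  unfold ker
  exact mul_nonneg (by positivity) (Finset.prod_nonneg fun k _ => LT.fej_nonneg _ _)

theorem ker_le (n : ℕ) {h : ℝ} (hh : 0 < h) (y : E d) : ker n h y ≤ h ^ d * n ^ d := by
  unfold ker
  refine mul_le_mul_of_nonneg_left ?_ (by positivity)
  calc ∏ k, fej n (h * y k) ≤ ∏ _k : Fin d, (n : ℝ) :=
        Finset.prod_le_prod (fun k _ => LT.fej_nonneg _ _) (fun k _ => LT.fej_le _ _)
    _ = (n : ℝ) ^ d := by simp

theorem continuous_ker (n : ℕ) (h : ℝ) : Continuous (ker n h : E d → ℝ) := by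
  unfold ker
  fun_prop

theorem integral_ker_box (n : ℕ) {h δ : ℝ} (hh : 0 < h) (hδ : 0 < δ) :
    ∫ y in {y : E d | ∀ k, y k ∈ Set.Ioo (-δ) δ}, ker n h y
      = (∫ s in Set.Ioo (-(h * δ)) (h * δ), fej n s) ^ d := by
  have h1 : ∀ y : E d, ker n h y = ∏ k : Fin d, (h * fej n (h * y k)) := by
    intro y
    unfold ker
    rw [Finset.prod_mul_distrib]
    simp
  simp_rw [h1]
  rw [integral_box (𝕜 := ℝ) (fun _ => Set.Ioo (-δ) δ) (fun _ => measurableSet_Ioo)
    (fun _ s => h * fej n (h * s))]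
  have hδ2 : 0 < h * δ := mul_pos hh hδ
  have h2 : ∫ s in Set.Ioo (-δ) δ, h * fej n (h * s)
      = ∫ s in Set.Ioo (-(h * δ)) (h * δ), fej n s := by
    rw [← integral_Ioc_eq_integral_Ioo, ← integral_Ioc_eq_integral_Ioo,
      ← intervalIntegral.integral_of_le (by linarith),
      ← intervalIntegral.integral_of_le (by linarith), intervalIntegral.integral_const_mul,
      intervalIntegral.mul_integral_comp_mul_left, mul_neg]
  simp only [h2, Finset.prod_const, Finset.card_univ, Fintype.card_fin]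

theorem dirichlet_eq (h : ℝ) {n : ℕ} (hn : 0 < n) (y : E d) :
    (h : ℂ) ^ d * ∑ i : Fin d → Fin n, ∑ j : Fin d → Fin n, ec ⟪lat h i - lat h j, y⟫
      = ((n ^ d * ker n h y : ℝ) : ℂ) := by
  have e1 : ∀ i : Fin d → Fin n, ec ⟪lat h i, y⟫ = ∏ k, ec (((i k : ℕ) : ℝ) * (h * y k)) := by
    intro i
    rw [← ec_sum, PiLp.inner_apply]
    congr 1
    refine Finset.sum_congr rfl fun k _ => ?_
    simp only [lat, RCLike.inner_apply, conj_trivial]
    ring
  have e2 : ∑ i : Fin d → Fin n, ec ⟪lat h i, y⟫ =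
      ∏ k, ∑ j : Fin n, ec (((j : ℕ) : ℝ) * (h * y k)) := by
    rw [Finset.prod_univ_sum, Fintype.piFinset_univ]
    exact Finset.sum_congr rfl fun i _ => e1 i
  have e3 : ∑ i : Fin d → Fin n, ∑ j : Fin d → Fin n, ec ⟪lat h i - lat h j, y⟫ =
      (∑ i : Fin d → Fin n, ec ⟪lat h i, y⟫) * conj (∑ i : Fin d → Fin n, ec ⟪lat h i, y⟫) := by
    rw [map_sum, Finset.sum_mul_sum]
    refine Finset.sum_congr rfl fun i _ => Finset.sum_congr rfl fun j _ => ?_
    rw [inner_sub_left, sub_eq_add_neg, LT.ec_add, LT.ec_neg]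
  have hn' : (n : ℝ) ≠ 0 := by positivity
  have e4 : ∀ s : ℝ, ‖∑ j : Fin n, ec (((j : ℕ) : ℝ) * s)‖ ^ 2 = n * fej n s := by
    intro s
    unfold fej
    rw [mul_div_cancel₀ _ hn']
  have e5 : (∏ k, ‖∑ j : Fin n, ec (((j : ℕ) : ℝ) * (h * y k))‖) ^ 2
      = n ^ d * ∏ k, fej n (h * y k) := by
    rw [← Finset.prod_pow, Finset.prod_congr rfl fun k _ => e4 (h * y k), Finset.prod_mul_distrib,
      Finset.prod_const, Finset.card_univ, Fintype.card_fin]
  rw [e3, Complex.mul_conj', e2, norm_prod, ker, ← Complex.ofReal_pow, ← Complex.ofReal_pow, e5,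
    ← Complex.ofReal_mul, mul_left_comm]

theorem r6_measurable_ec (a : E d) : Measurable fun x : E d => ec ⟪a, x⟫ :=
  (LT.continuous_ec.comp (continuous_const.inner continuous_id)).measurable

theorem r6_measurable_ec_neg (a : E d) : Measurable fun x : E d => ec (-⟪a, x⟫) :=
  (LT.continuous_ec.comp (continuous_const.inner continuous_id).neg).measurable

theorem r6_integrable_mul {A : E d → ℝ} (hA : Integrable A) {e : E d → ℂ} (he : Measurable e)
    (he1 : ∀ x, ‖e x‖ = 1) : Integrable fun x => (A x : ℂ) * e x :=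
  hA.ofReal.mul_bdd (c := 1) he.aestronglyMeasurable
    (Filter.Eventually.of_forall fun x => (he1 x).le)

theorem r6_inner {h : ℝ} {n : ℕ} (hn : 0 < n) {V : E d → ℝ} (hi : Integrable V) (z : E d) :
    ∑ i : Fin d → Fin n, ∑ j : Fin d → Fin n, ec (-⟪lat h i - lat h j, z⟫)
        * ((h : ℂ) ^ d * ∫ x, (V x : ℂ) * ec ⟪lat h i - lat h j, x⟫)
      = ((n ^ d * ∫ x, V x * ker n h (x - z) : ℝ) : ℂ) := by
  have h1 : ∀ i j : Fin d → Fin n, ec (-⟪lat h i - lat h j, z⟫)
        * ((h : ℂ) ^ d * ∫ x, (V x : ℂ) * ec ⟪lat h i - lat h j, x⟫)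
      = ∫ x, (h : ℂ) ^ d * ((V x : ℂ) * ec ⟪lat h i - lat h j, x - z⟫) := by
    intro i j
    rw [← integral_const_mul, ← integral_const_mul]
    refine integral_congr_ae (Filter.Eventually.of_forall fun x => ?_)
    simp only
    rw [inner_sub_right (lat h i - lat h j) x z, sub_eq_add_neg (⟪lat h i - lat h j, x⟫),
      LT.ec_add]
    ring
  have h2 : ∀ i j : Fin d → Fin n, Integrable
      fun x => (h : ℂ) ^ d * ((V x : ℂ) * ec ⟪lat h i - lat h j, x - z⟫) := by
    intro i j
    refine Integrable.const_mul ?_ _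
    exact r6_integrable_mul hi
      ((r6_measurable_ec _).comp (measurable_id.sub_const z)) fun x => LT.norm_ec _
  simp only [h1]
  rw [← integral_const_mul, ← integral_complex_ofReal]
  rw [Finset.sum_congr rfl fun i _ => (integral_finsetSum Finset.univ fun j _ => h2 i j).symm,
    ← integral_finsetSum Finset.univ
      fun i _ => integrable_finsetSum Finset.univ fun j _ => h2 i j]
  refine integral_congr_ae (Filter.Eventually.of_forall fun x => ?_)
  have h3 := dirichlet_eq h hn (x - z)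
  simp only [← Finset.mul_sum]
  rw [mul_left_comm, h3]
  push_cast
  ring

theorem double_sum {h : ℝ} {n : ℕ} (hn : 0 < n) {V : E d → ℝ} (hi : Integrable V) {A : E d → ℝ}
    (hA : Integrable A) :
    ∑ i : Fin d → Fin n, ∑ j : Fin d → Fin n, (∫ z, (A z : ℂ) * ec (-⟪lat h i - lat h j, z⟫))
        * ((h : ℂ) ^ d * ∫ x, (V x : ℂ) * ec ⟪lat h i - lat h j, x⟫)
      = ((n ^ d * ∫ z, A z * ∫ x, V x * ker n h (x - z) : ℝ) : ℂ) := by
  have h2 : ∀ i j : Fin d → Fin n, Integrable
      fun z => (A z : ℂ) * ec (-⟪lat h i - lat h j, z⟫)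
        * ((h : ℂ) ^ d * ∫ x, (V x : ℂ) * ec ⟪lat h i - lat h j, x⟫) := by
    intro i j
    exact (r6_integrable_mul hA (r6_measurable_ec_neg _) fun x => LT.norm_ec _).mul_const _
  simp only [← integral_mul_const]
  rw [← integral_const_mul, ← integral_complex_ofReal]
  rw [Finset.sum_congr rfl fun i _ => (integral_finsetSum Finset.univ fun j _ => h2 i j).symm,
    ← integral_finsetSum Finset.univ
      fun i _ => integrable_finsetSum Finset.univ fun j _ => h2 i j]
  refine integral_congr_ae (Filter.Eventually.of_forall fun z => ?_)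
  have h3 := r6_inner (h := h) hn hi z
  simp only [mul_assoc (A z : ℂ), ← Finset.mul_sum]
  rw [h3]
  push_cast
  ring

theorem cell_entry {h : ℝ} (hh : 0 < h) {V : E d → ℝ} (hs : ∀ x, x ∉ cell d h → V x = 0)
    (a b : E d) :
    ∫ x, (V x : ℂ) * (ec (-⟪b, x⟫) * conj (ec (-⟪a, x⟫)))
        ∂(ENNReal.ofReal (h ^ d) • (volume : Measure (E d)).restrict (cell d h))
      = (h : ℂ) ^ d * ∫ x, (V x : ℂ) * ec ⟪a - b, x⟫ := by
  rw [integral_smul_measure, ENNReal.toReal_ofReal (by positivity),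
    setIntegral_eq_integral_of_forall_compl_eq_zero (fun x hx => by simp [hs x hx]),
    Complex.real_smul, Complex.ofReal_pow]
  congr 1
  refine integral_congr_ae (Filter.Eventually.of_forall fun x => ?_)
  simp only
  rw [← LT.ec_neg, neg_neg, ← LT.ec_add, inner_sub_left]
  congr 2
  ring

end Pool.Agent.P.MP_9f4f5e_mp.RL
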