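import Pool.Agent.P.MP_9f4f5e_mp.RL.A3
import Pool.Agent.P.MP_9f4f5e_mp.RL.R4
import Pool.Agent.P.MP_9f4f5e_mp.RL.R6

set_option linter.unusedSectionVars false
set_option linter.unusedVariables false

open MeasureTheory Matrix
open scoped ENNReal ComplexOrder ComplexConjugate FourierTransform RealInnerProductSpace
open Pool.Agent.P.MP_9f4f5e_mp.LT (tp pp dg qf ec fej Spec)

noncomputable section

namespace Pool.Agent.P.MP_9f4f5e_mp.RL

variable {d : ℕ} {ι κ : Type} [Fintype ι] [DecidableEq ι] [Fintype κ]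

theorem r7_ofReal {X : Type} [MeasurableSpace X] (μ : Measure X) {f : X → ℝ}
    (h0 : ∀ x, 0 ≤ f x) : ENNReal.ofReal (∫ x, f x ∂μ) ≤ ∫⁻ x, ENNReal.ofReal (f x) ∂μ := by
  by_cases hf : Integrable f μ
  · exact (ofReal_integral_eq_lintegral_ofReal hf (Filter.Eventually.of_forall h0)).le
  · rw [integral_undef hf, ENNReal.ofReal_zero]
    exact zero_le

theorem r7_max (y : ℝ) : ENNReal.ofReal (max y 0 ^ 3) = ENNReal.ofReal y ^ 3 := by
  rw [ENNReal.ofReal_pow (le_max_right _ _)]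
  rcases le_total y 0 with h | h
  · rw [max_eq_right h, ENNReal.ofReal_of_nonpos h, ENNReal.ofReal_zero]
  · rw [max_eq_left h]

theorem r7_pt (h : ℝ) (V : E d → ℝ) (k : ℝ) :
    ENNReal.ofReal (∫ x, max (V x - k) 0 ^ 3
        ∂(ENNReal.ofReal (h ^ d) • (volume : Measure (E d)).restrict (cell d h)))
      ≤ ENNReal.ofReal (h ^ d) * ∫⁻ x, ENNReal.ofReal (V x - k) ^ 3 := by
  refine (r7_ofReal _ fun x => pow_nonneg (le_max_right _ _) 3).trans ?_
  simp only [r7_max]
  rw [lintegral_smul_measure, smul_eq_mul]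
  exact mul_le_mul_right (lintegral_mono' Measure.restrict_le_self le_rfl) _

theorem fixed_level {u : κ → L2 d} (hu : Orthonormal ℂ u) {m : ℝ} (hm : 0 ≤ m)
    (hT : ∀ k, Integrable fun ξ => sym m ξ * ‖fn (ft (u k)) ξ‖ ^ 2) {h : ℝ} (hh : 0 < h) {n : ℕ}
    (hn : 0 < n) {V : E d → ℝ} (hV : Measurable V) {M : ℝ} (h0 : ∀ x, 0 ≤ V x)
    (hM : ∀ x, V x ≤ M) (hs : ∀ x, x ∉ cell d h → V x = 0) (c : κ → ℝ) (hc : ∀ k, 0 ≤ c k)
    {B : ℝ} (hB0 : 0 ≤ B) (hB : ph3 m V ≤ ENNReal.ofReal B) :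
    ∑ k, (3 * c k ^ 2 * ((∫ z, ‖fn (u k) z‖ ^ 2 * ‖ww (cube d h) z‖ ^ 2 / (h ^ d) ^ 2
        * ∫ x, V x * ker n h (x - z)) - tk m (u k) - 2 * Real.pi * (d * h)) - 2 * c k ^ 3)
      ≤ B := by
  have hi : Integrable V := by
    have h1 : IntegrableOn V (cell d h) volume :=
      Measure.integrableOn_of_bounded (volume_cell_ne_top h) hV.aestronglyMeasurable
        (M := M) (Filter.Eventually.of_forall fun x => by
          rw [Real.norm_eq_abs, abs_of_nonneg (h0 x)]
          exact hM x)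
    exact h1.integrable_of_forall_notMem_eq_zero hs
  have hn' : (0 : ℝ) < n := by positivity
  have hp : 0 < h ^ d := by positivity
  have : IsFiniteMeasure ((volume : Measure (E d)).restrict (cell d h)) :=
    isFiniteMeasure_restrict.2 (volume_cell_ne_top h)
  have : IsFiniteMeasure (ENNReal.ofReal (h ^ d) • (volume : Measure (E d)).restrict (cell d h)) :=
    Measure.smul_finite _ ENNReal.ofReal_ne_top
  obtain ⟨hW, hBL⟩ := berezin3 (ι := Fin d → Fin n)
    (ENNReal.ofReal (h ^ d) • (volume : Measure (E d)).restrict (cell d h))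
    (e := fun x i => ec (-⟪lat h i, x⟫))
    (fun i => Continuous.measurable (by fun_prop))
    (fun x i => (LT.norm_ec _).le)
    (fun c => by
      rw [integral_smul_measure, ENNReal.toReal_ofReal hp.le, smul_eq_mul]
      exact cell_frame hh c) hV h0 hM
  have hQ : volume (cube d h) ≠ ∞ := by
    rw [volume_cube hh]
    exact ENNReal.ofReal_ne_top
  have hF := finite_level hu hm hT (measurableSet_cube h) hQ (r := d * h) (by positivity)
    (fun s hs => norm_le_of_mem_cube hs) (lat h) (lat_disjoint hh) hW c hc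
  have hcard : (Fintype.card (Fin d → Fin n) : ℝ) = n ^ d := by simp
  have hR := r7_ofReal volume fun t : E d =>
    LT.tp_nonneg (hW.sub (LT.dg_isHermitian fun _ => sym m t)) 3
  have hR2 := hR.trans (lintegral_mono fun t =>
    (ENNReal.ofReal_le_ofReal (hBL _ (sym_nonneg m t))).trans
      ((ENNReal.ofReal_mul (Nat.cast_nonneg _)).trans_le (mul_le_mul_right (r7_pt h V _) _)))
  rw [lintegral_const_mul' _ _ ENNReal.ofReal_ne_top,
    lintegral_const_mul' _ _ ENNReal.ofReal_ne_top] at hR2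
  have hR3 := hR2.trans (mul_le_mul_right (mul_le_mul_right hB _) _)
  rw [← ENNReal.ofReal_mul hp.le, ← ENNReal.ofReal_mul (Nat.cast_nonneg _),
    ENNReal.ofReal_le_ofReal_iff (by positivity), hcard] at hR3
  have hF2 := hF.trans (mul_le_mul_of_nonneg_left hR3 measureReal_nonneg)
  have hA : ∀ k, Integrable fun z => ‖fn (u k) z‖ ^ 2 * ‖ww (cube d h) z‖ ^ 2 := fun k =>
    (fn_sq (u k)).1.mul_bdd (c := volume.real (cube d h) ^ 2)
      ((measurable_ww _).norm.pow_const 2).aestronglyMeasurable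
      (Filter.Eventually.of_forall fun z => by
        rw [Real.norm_eq_abs, abs_of_nonneg (by positivity)]
        exact pow_le_pow_left₀ (norm_nonneg _) (norm_ww_le hQ z) 2)
  simp only [Matrix.of_apply, cell_entry hh hs] at hF2
  simp only [double_sum hn hi (hA _), Complex.ofReal_re, hcard, real_cube hh] at hF2
  have heq : ∀ k, (∫ z, ‖fn (u k) z‖ ^ 2 * ‖ww (cube d h) z‖ ^ 2 / (h ^ d) ^ 2
        * ∫ x, V x * ker n h (x - z)) = ((h ^ d) ^ 2)⁻¹ *
      ∫ z, ‖fn (u k) z‖ ^ 2 * ‖ww (cube d h) z‖ ^ 2 * ∫ x, V x * ker n h (x - z) := by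
    intro k
    rw [← integral_const_mul]
    refine integral_congr_ae (Filter.Eventually.of_forall fun z => ?_)
    simp only
    ring
  simp only [heq]
  refine le_of_mul_le_mul_left ?_ (mul_pos (pow_pos hn' d) (pow_pos hp 2))
  rw [Finset.mul_sum]
  refine le_trans (le_of_eq (Finset.sum_congr rfl fun k _ => ?_)) (hF2.trans (le_of_eq ?_))
  · field_simp
    ring
  · ring

end Pool.Agent.P.MP_9f4f5e_mp.RL
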