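import Pool.Agent.P.MP_9f4f5e_mp.RL.R6

set_option linter.unusedSectionVars false
set_option linter.unusedVariables false

open MeasureTheory Matrix
open scoped ENNReal ComplexOrder ComplexConjugate FourierTransform RealInnerProductSpace
open Pool.Agent.P.MP_9f4f5e_mp.LT (tp pp dg qf ec fej Spec)

noncomputable section

namespace Pool.Agent.P.MP_9f4f5e_mp.RL

variable {d : ℕ} {ι κ : Type} [Fintype ι] [DecidableEq ι] [Fintype κ]

theorem r8_cont {V : E d → ℝ} (hV : Measurable V) {M : ℝ} (hM : ∀ x, |V x| ≤ M) :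
    Continuous fun f : Lp ℝ 1 (volume : Measure (E d)) => ∫ z, f z * V z := by
  have hM0 : 0 ≤ M := (abs_nonneg _).trans (hM 0)
  have hI : ∀ f : Lp ℝ 1 (volume : Measure (E d)), Integrable fun z => f z * V z := fun f =>
    (L1.integrable_coeFn f).mul_bdd hV.aestronglyMeasurable (Filter.Eventually.of_forall hM)
  refine (LipschitzWith.of_dist_le_mul (K := NNReal.mk M hM0) fun f g => ?_).continuous
  have hd : Integrable fun z => dist (f z) (g z) := by
    simp only [dist_eq_norm]
    exact ((L1.integrable_coeFn f).sub (L1.integrable_coeFn g)).norm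
  rw [L1.dist_eq_integral_dist, dist_eq_norm, ← integral_sub (hI f) (hI g), NNReal.coe_mk,
    ← integral_const_mul]
  refine norm_integral_le_of_norm_le (hd.const_mul M) (Filter.Eventually.of_forall fun z => ?_)
  rw [← sub_mul, norm_mul, dist_eq_norm, mul_comm]
  exact mul_le_mul_of_nonneg_right (hM z) (norm_nonneg _)

theorem continuous_pair {A V : E d → ℝ} (hA : Integrable A) (hV : Measurable V) {M : ℝ}
    (hM : ∀ x, |V x| ≤ M) : Continuous fun y => ∫ z, A z * V (z + y) := by
  let g : E d → C(E d, E d) := fun y => ⟨fun z => z - y, by fun_prop⟩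
  have hg : Continuous g := ContinuousMap.continuous_of_continuous_uncurry _ (by
    show Continuous fun p : E d × E d => p.2 - p.1
    fun_prop)
  have hgm : ∀ y, MeasurePreserving (g y) volume volume := fun y =>
    measurePreserving_sub_right volume y
  have hc := (r8_cont hV hM).comp (Continuous.compMeasurePreservingLp
    (f := fun _ : E d => hA.toL1 A) continuous_const hg hgm ENNReal.one_ne_top)
  refine hc.congr fun y => ?_
  have h1 := Lp.coeFn_compMeasurePreserving (hA.toL1 A) (hgm y)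
  have h2 := (hgm y).quasiMeasurePreserving.ae_eq_comp hA.coeFn_toL1
  calc _ = ∫ z, A (z - y) * V z := by
        refine integral_congr_ae ?_
        filter_upwards [h1, h2] with z e1 e2
        rw [e1, e2]
        rfl
    _ = ∫ z, A z * V (z + y) := by
        rw [← integral_add_right_eq_self (fun z => A (z - y) * V z) y]
        simp only [add_sub_cancel_right]

theorem r8_lower {A V : E d → ℝ} (hA : Integrable A) (hA0 : ∀ z, 0 ≤ A z)
    (hi : Integrable V) (h0 : ∀ x, 0 ≤ V x) {h : ℝ} (hh : 0 < h) (n : ℕ) {δ c : ℝ} (hδ : 0 < δ)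
    (hc : ∀ y : E d, (∀ k, y k ∈ Set.Ioo (-δ) δ) → c ≤ ∫ z, A z * V (z + y)) :
    c * (∫ s in Set.Ioo (-(h * δ)) (h * δ), fej n s) ^ d
      ≤ ∫ z, A z * ∫ x, V x * ker n h (x - z) := by
  have hK0 : ∀ y : E d, 0 ≤ ker n h y := ker_nonneg n hh
  have hKc := continuous_ker (d := d) n h
  have hKb : ∀ y : E d, ‖ker n h y‖ ≤ h ^ d * n ^ d := fun y => by
    rw [Real.norm_of_nonneg (hK0 y)]
    exact ker_le n hh y
  have hB := measurableSet_box (fun _ : Fin d => Set.Ioo (-δ) δ) fun _ => measurableSet_Ioo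
  have hfin : volume {y : E d | ∀ k, y k ∈ Set.Ioo (-δ) δ} ≠ ∞ := by
    rw [volume_box (fun _ : Fin d => Set.Ioo (-δ) δ) fun _ => measurableSet_Ioo]
    exact ENNReal.prod_ne_top fun _ _ => measure_Ioo_lt_top.ne
  have hK : IntegrableOn (ker n h) {y : E d | ∀ k, y k ∈ Set.Ioo (-δ) δ} :=
    Measure.integrableOn_of_bounded hfin hKc.aestronglyMeasurable
      (Filter.Eventually.of_forall hKb)
  have hG0 : Integrable (fun p : E d × E d => A p.1 * V (p.1 + p.2)) (volume.prod volume) :=
    (measurePreserving_prod_add volume volume).integrable_comp_of_integrable (hA.mul_prod hi)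
  have hG : Integrable (fun p : E d × E d => A p.1 * V (p.1 + p.2) * ker n h p.2)
      (volume.prod volume) :=
    hG0.mul_bdd (hKc.comp continuous_snd).aestronglyMeasurable
      (Filter.Eventually.of_forall fun p => hKb p.2)
  have e1 : ∀ z, A z * ∫ x, V x * ker n h (x - z)
      = ∫ y, A z * V (z + y) * ker n h y := fun z => by
    rw [← integral_add_left_eq_self (fun x => V x * ker n h (x - z)) z, ← integral_const_mul]
    simp only [add_sub_cancel_left, mul_assoc]
  have e2 : ∫ z, ∫ y, A z * V (z + y) * ker n h y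
      = ∫ y, ∫ z, A z * V (z + y) * ker n h y := integral_integral_swap hG
  have hI : Integrable fun y => ∫ z, A z * V (z + y) * ker n h y := hG.integral_prod_right
  simp_rw [e1]
  rw [e2, ← integral_ker_box n hh hδ, ← integral_const_mul]
  refine le_trans (setIntegral_mono_on (hK.const_mul c) hI.integrableOn hB fun y hy => ?_)
    (setIntegral_le_integral hI (Filter.Eventually.of_forall fun y => ?_))
  · rw [integral_mul_const]
    exact mul_le_mul_of_nonneg_right (hc y hy) (hK0 y)
  · exact integral_nonneg fun z => mul_nonneg (mul_nonneg (hA0 z) (h0 _)) (hK0 y)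

theorem fej_limit {A V : E d → ℝ} (hA : Integrable A) (hA0 : ∀ z, 0 ≤ A z) (hV : Measurable V)
    (hi : Integrable V) {M : ℝ} (h0 : ∀ x, 0 ≤ V x) (hM : ∀ x, V x ≤ M) {h : ℝ} (hh : 0 < h)
    {η : ℝ} (hη : 0 < η) :
    ∀ᶠ n : ℕ in Filter.atTop,
      (∫ z, A z * V z) - η ≤ ∫ z, A z * ∫ x, V x * ker n h (x - z) := by
  have hF := continuous_pair hA hV (M := M) fun x => by rw [abs_of_nonneg (h0 x)]; exact hM x
  obtain ⟨c, hc⟩ : ∃ c, c = (∫ z, A z * V z) - η / 2 := ⟨_, rfl⟩
  rcases lt_or_ge c 0 with hc0 | hc0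
  · refine Filter.Eventually.of_forall fun m => ?_
    have : 0 ≤ ∫ z, A z * ∫ x, V x * ker m h (x - z) :=
      integral_nonneg fun z => mul_nonneg (hA0 z) (integral_nonneg fun x =>
        mul_nonneg (h0 x) (ker_nonneg _ hh _))
    linarith
  have hlt : c < (fun y => ∫ z, A z * V (z + y)) 0 := by
    simp only [add_zero]
    linarith
  obtain ⟨ε, hε, hball⟩ := Metric.eventually_nhds_iff.1
    (hF.continuousAt.eventually (lt_mem_nhds hlt))
  obtain ⟨δ, hδ⟩ : ∃ δ, δ = min (ε / (d + 1)) (1 / (2 * h)) := ⟨_, rfl⟩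
  have hδ0 : 0 < δ := hδ ▸ lt_min (by positivity) (by positivity)
  have hδ1 : δ * (d + 1) ≤ ε := (le_div_iff₀ (by positivity)).1 (hδ ▸ min_le_left _ _)
  have hδ2 : h * δ ≤ 1 / 2 := by
    have h1 : δ ≤ 1 / (2 * h) := hδ ▸ min_le_right _ _
    calc h * δ ≤ h * (1 / (2 * h)) := mul_le_mul_of_nonneg_left h1 hh.le
      _ = 1 / 2 := by field_simp
  have hhδ : 0 < h * δ := mul_pos hh hδ0
  have hy : ∀ y : E d, (∀ k, y k ∈ Set.Ioo (-δ) δ) → c ≤ ∫ z, A z * V (z + y) := fun y hy => by
    refine (hball ?_).le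
    rw [dist_zero_right]
    have h1 := norm_le_of_coord (s := y) fun k => (abs_lt.2 (hy k)).le
    linarith
  have hs : Filter.Tendsto (fun m : ℕ => 1 - 1 / (4 * (m : ℝ) * (h * δ) ^ 2))
      Filter.atTop (nhds 1) := by
    have h1 : Filter.Tendsto (fun m : ℕ => 1 - (1 / (4 * (h * δ) ^ 2)) * (m : ℝ)⁻¹)
        Filter.atTop (nhds (1 - (1 / (4 * (h * δ) ^ 2)) * 0)) :=
      (tendsto_inv_atTop_nhds_zero_nat.const_mul _).const_sub _
    rw [mul_zero, sub_zero] at h1
    refine h1.congr fun m => ?_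
    rw [one_div, one_div, ← mul_inv, mul_right_comm]
  have ht := (hs.pow d).const_mul c
  rw [one_pow, mul_one] at ht
  have hlt2 : (∫ z, A z * V z) - η < c := by linarith
  filter_upwards [ht.eventually (lt_mem_nhds hlt2), hs.eventually (lt_mem_nhds one_pos),
    Filter.eventually_gt_atTop 0] with m hm1 hm3 hm2
  refine hm1.le.trans (le_trans ?_ (r8_lower hA hA0 hi h0 hh m hδ0 hy))
  exact mul_le_mul_of_nonneg_left (pow_le_pow_left₀ hm3.le (LT.fej_mass hm2 hhδ hδ2) d) hc0

end Pool.Agent.P.MP_9f4f5e_mp.RL
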