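import Pool.Agent.P.MP_9f4f5e_mp.RL.R7
import Pool.Agent.P.MP_9f4f5e_mp.RL.R8

set_option linter.unusedSectionVars false
set_option linter.unusedVariables false

open MeasureTheory Matrix
open scoped ENNReal ComplexOrder ComplexConjugate FourierTransform RealInnerProductSpace
open Pool.Agent.P.MP_9f4f5e_mp.LT (tp pp dg qf ec fej Spec)

noncomputable section

namespace Pool.Agent.P.MP_9f4f5e_mp.RL

variable {d : ℕ} {ι κ : Type} [Fintype ι] [DecidableEq ι] [Fintype κ]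

theorem r9_ww_le {h : ℝ} (hh : 0 < h) (z : E d) : ‖ww (cube d h) z‖ ≤ h ^ d := by
  have := norm_ww_le (Q := cube d h) (by rw [volume_cube hh]; exact ENNReal.ofReal_ne_top) z
  rwa [real_cube hh] at this

theorem r9_ratio {v : ℕ → ℝ} (hv : ∀ j, 0 < v j)
    (hv0 : Filter.Tendsto v Filter.atTop (nhds 0)) (z : E d) :
    Filter.Tendsto (fun j => ‖ww (cube d (v j)) z‖ ^ 2 / (v j ^ d) ^ 2) Filter.atTop (nhds 1) := by
  have h1 : Filter.Tendsto (fun j => ‖ww (cube d (v j)) z‖ / v j ^ d) Filter.atTop (nhds 1) := by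
    have hlow : Filter.Tendsto (fun j => 1 - 2 * Real.pi * (d * v j) * ‖z‖) Filter.atTop
        (nhds 1) := by
      have := (((hv0.const_mul (d : ℝ)).const_mul (2 * Real.pi)).mul_const ‖z‖).const_sub 1
      simpa using this
    refine tendsto_of_tendsto_of_tendsto_of_le_of_le hlow tendsto_const_nhds (fun j => ?_)
      (fun j => ?_)
    · have := le_norm_ww (hv j) z
      show 1 - 2 * Real.pi * (d * v j) * ‖z‖ ≤ ‖ww (cube d (v j)) z‖ / v j ^ d
      rw [le_div_iff₀ (pow_pos (hv j) d)]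
      linarith
    · show ‖ww (cube d (v j)) z‖ / v j ^ d ≤ 1
      rw [div_le_one (pow_pos (hv j) d)]
      exact r9_ww_le (hv j) z
  have h2 := h1.pow 2
  rw [one_pow] at h2
  refine h2.congr fun j => ?_
  rw [div_pow]

theorem r9_ratio_le {h : ℝ} (hh : 0 < h) (z : E d) :
    ‖ww (cube d h) z‖ ^ 2 / (h ^ d) ^ 2 ≤ 1 := by
  rw [div_le_one (by positivity)]
  exact pow_le_pow_left₀ (norm_nonneg _) (r9_ww_le hh z) 2

theorem r9_int (u : L2 d) {h : ℝ} (hh : 0 < h) :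
    Integrable fun z => ‖fn u z‖ ^ 2 * ‖ww (cube d h) z‖ ^ 2 / (h ^ d) ^ 2 := by
  have h1 := (fn_sq u).1.mul_bdd (c := 1) (g := fun z => ‖ww (cube d h) z‖ ^ 2 / (h ^ d) ^ 2)
    (((measurable_ww (cube d h)).norm.pow_const 2).div_const _).aestronglyMeasurable
    (Filter.Eventually.of_forall fun z => by
      rw [Real.norm_of_nonneg (by positivity)]; exact r9_ratio_le hh z)
  simpa only [mul_div_assoc] using h1

theorem r9_integrable {V : E d → ℝ} (hV : Measurable V) {M r : ℝ}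
    (h0 : ∀ x, 0 ≤ V x) (hM : ∀ x, V x ≤ M) (hs : ∀ x, r ≤ ‖x‖ → V x = 0) : Integrable V := by
  have h1 : IntegrableOn V (Metric.ball (0 : E d) r) := by
    refine Measure.integrableOn_of_bounded (M := M) measure_ball_lt_top.ne
      hV.aestronglyMeasurable ?_
    refine Filter.Eventually.of_forall fun x => ?_
    rw [Real.norm_eq_abs, abs_of_nonneg (h0 x)]
    exact hM x
  refine h1.integrable_of_forall_notMem_eq_zero fun x hx => hs x ?_
  simpa using hx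

theorem r9_off {V : E d → ℝ} {r h : ℝ} (hhr : r ≤ 1 / (2 * h))
    (hs : ∀ x, r ≤ ‖x‖ → V x = 0) : ∀ x, x ∉ cell d h → V x = 0 := by
  intro x hx
  apply hs
  by_contra hlt
  push Not at hlt
  apply hx
  intro k
  have h1 : |x k| ≤ ‖x‖ := by
    have := PiLp.norm_apply_le x k
    simpa [Real.norm_eq_abs] using this
  linarith

theorem r9_level {u : κ → L2 d} (hu : Orthonormal ℂ u) {m : ℝ} (hm : 0 ≤ m)
    (hT : ∀ k, Integrable fun ξ => sym m ξ * ‖fn (ft (u k)) ξ‖ ^ 2) {h : ℝ} (hh : 0 < h)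
    {V : E d → ℝ} (hV : Measurable V) (hi : Integrable V) {M : ℝ} (h0 : ∀ x, 0 ≤ V x)
    (hM : ∀ x, V x ≤ M) (hs : ∀ x, x ∉ cell d h → V x = 0) (c : κ → ℝ) (hc : ∀ k, 0 ≤ c k)
    {B : ℝ} (hB0 : 0 ≤ B) (hB : ph3 m V ≤ ENNReal.ofReal B) :
    ∑ k, (3 * c k ^ 2 * ((∫ z, ‖fn (u k) z‖ ^ 2 * ‖ww (cube d h) z‖ ^ 2 / (h ^ d) ^ 2 * V z)
      - tk m (u k) - 2 * Real.pi * (d * h)) - 2 * c k ^ 3) ≤ B := by
  have key : ∀ η : ℝ, 0 < η →
      ∑ k, (3 * c k ^ 2 * ((∫ z, ‖fn (u k) z‖ ^ 2 * ‖ww (cube d h) z‖ ^ 2 / (h ^ d) ^ 2 * V z)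
        - η - tk m (u k) - 2 * Real.pi * (d * h)) - 2 * c k ^ 3) ≤ B := by
    intro η hη
    have h1 := Filter.eventually_all.2 fun k =>
      fej_limit (r9_int (u k) hh) (fun z => by positivity) hV hi h0 hM hh hη
    obtain ⟨n, hn1, hn⟩ := (h1.and (Filter.eventually_gt_atTop 0)).exists
    refine le_trans (Finset.sum_le_sum fun k _ => ?_)
      (fixed_level hu hm hT hh hn hV h0 hM hs c hc hB0 hB)
    have := mul_le_mul_of_nonneg_left (hn1 k) (sq_nonneg (c k))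
    linarith
  have hl : Filter.Tendsto (fun η : ℝ =>
      ∑ k, (3 * c k ^ 2 * ((∫ z, ‖fn (u k) z‖ ^ 2 * ‖ww (cube d h) z‖ ^ 2 / (h ^ d) ^ 2 * V z)
        - η - tk m (u k) - 2 * Real.pi * (d * h)) - 2 * c k ^ 3)) (nhdsWithin 0 (Set.Ioi 0))
      (nhds (∑ k, (3 * c k ^ 2 *
        ((∫ z, ‖fn (u k) z‖ ^ 2 * ‖ww (cube d h) z‖ ^ 2 / (h ^ d) ^ 2 * V z)
        - 0 - tk m (u k) - 2 * Real.pi * (d * h)) - 2 * c k ^ 3))) :=
    Filter.Tendsto.mono_left (Continuous.tendsto (by fun_prop) 0) nhdsWithin_le_nhds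
  have := le_of_tendsto hl (eventually_mem_nhdsWithin.mono key)
  simpa only [sub_zero] using this

theorem bounded_level {u : κ → L2 d} (hu : Orthonormal ℂ u) {m : ℝ} (hm : 0 ≤ m)
    (hT : ∀ k, Integrable fun ξ => sym m ξ * ‖fn (ft (u k)) ξ‖ ^ 2)
    {V : E d → ℝ} (hV : Measurable V) {M r : ℝ} (h0 : ∀ x, 0 ≤ V x) (hM : ∀ x, V x ≤ M)
    (hs : ∀ x, r ≤ ‖x‖ → V x = 0) (c : κ → ℝ) (hc : ∀ k, 0 ≤ c k)
    {B : ℝ} (hB0 : 0 ≤ B) (hB : ph3 m V ≤ ENNReal.ofReal B) :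
    ∑ k, (3 * c k ^ 2 * ((∫ z, ‖fn (u k) z‖ ^ 2 * V z) - tk m (u k)) - 2 * c k ^ 3) ≤ B := by
  have hi := r9_integrable hV h0 hM hs
  have hr : 0 < |r| + 1 := by positivity
  set v : ℕ → ℝ := fun j => (2 * (|r| + 1))⁻¹ * (1 / ((j : ℝ) + 1)) with hv
  have hpos : ∀ j, 0 < v j := fun j => by
    simp only [hv]
    positivity
  have hv0 : Filter.Tendsto v Filter.atTop (nhds 0) := by
    have := (tendsto_one_div_add_atTop_nhds_zero_nat (𝕜 := ℝ)).const_mul (2 * (|r| + 1))⁻¹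
    simpa [hv] using this
  have hvr : ∀ j, r ≤ 1 / (2 * v j) := fun j => by
    have h1 : 1 / (2 * v j) = (|r| + 1) * ((j : ℝ) + 1) := by
      simp only [hv]
      field_simp
    have h2 : (0 : ℝ) ≤ j := Nat.cast_nonneg j
    have h3 := le_abs_self r
    rw [h1]
    nlinarith
  have hlim : ∀ k, Filter.Tendsto
      (fun j => ∫ z, ‖fn (u k) z‖ ^ 2 * ‖ww (cube d (v j)) z‖ ^ 2 / (v j ^ d) ^ 2 * V z)
      Filter.atTop (nhds (∫ z, ‖fn (u k) z‖ ^ 2 * V z)) := by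
    intro k
    refine tendsto_integral_of_dominated_convergence (fun z => ‖fn (u k) z‖ ^ 2 * M)
      (fun j => (r9_int (u k) (hpos j)).1.mul hV.aestronglyMeasurable)
      ((fn_sq (u k)).1.mul_const M) (fun j => Filter.Eventually.of_forall fun z => ?_)
      (Filter.Eventually.of_forall fun z => ?_)
    · have h1 := r9_ratio_le (hpos j) z
      have h2 := h0 z
      have h3 := hpos j
      rw [Real.norm_of_nonneg (by positivity), mul_div_assoc, mul_assoc]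
      refine mul_le_mul_of_nonneg_left ?_ (by positivity)
      exact (mul_le_of_le_one_left h2 h1).trans (hM z)
    · have h1 := ((r9_ratio hpos hv0 z).const_mul (‖fn (u k) z‖ ^ 2)).mul_const (V z)
      rw [mul_one] at h1
      simpa only [mul_div_assoc] using h1
  have hl := tendsto_finsetSum Finset.univ fun k _ =>
    ((((hlim k).sub_const (tk m (u k))).sub ((hv0.const_mul (d : ℝ)).const_mul
      (2 * Real.pi))).const_mul (3 * c k ^ 2)).sub_const (2 * c k ^ 3)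
  have := le_of_tendsto' hl fun j =>
    r9_level hu hm hT (hpos j) hV hi h0 hM (r9_off (hvr j) hs) c hc hB0 hB
  simpa only [mul_zero, sub_zero] using this

end Pool.Agent.P.MP_9f4f5e_mp.RL
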