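import Pool.Agent.P.MP_9f4f5e_mp.LT.E2
import Pool.Agent.P.MP_9f4f5e_mp.LT1.S12
import Pool.Agent.P.MP_9f4f5e_mp.RL.R1
import Pool.Agent.P.MP_9f4f5e_mp.RL.R5

set_option linter.unusedSectionVars false
set_option linter.unusedVariables false

open MeasureTheory Matrix
open scoped ENNReal ComplexOrder ComplexConjugate FourierTransform RealInnerProductSpace
open Pool.Agent.P.MP_9f4f5e_mp.LT (tp pp dg qf ec fej Spec)

noncomputable section

namespace Pool.Agent.P.MP_9f4f5e_mp.RL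

variable {d : ℕ} {ι κ : Type} [Fintype ι] [DecidableEq ι] [Fintype κ]

theorem w1_fwd (k : E d) (f : E d → ℂ) (x : E d) :
    𝓕 (fun v => f (v + k)) x = ec (-⟪-k, x⟫) * 𝓕 f x := by
  rw [Real.fourier_eq, Real.fourier_eq, ← integral_const_mul,
    ← integral_add_right_eq_self
      (fun v => ec (-⟪-k, x⟫) * (Real.fourierChar (-⟪v, x⟫) • f v)) k]
  refine integral_congr_ae (Filter.Eventually.of_forall fun v => ?_)
  show ec (-⟪v, x⟫) * f (v + k) = ec (-⟪-k, x⟫) * (ec (-⟪v + k, x⟫) * f (v + k))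
  rw [← mul_assoc, ← LT.ec_add, inner_add_left, inner_neg_left]
  congr 2
  ring

theorem w1_comm (k : E d) (χ : L2 d) : (𝓕 (LT.e2T k χ) : L2 d) = LT.e2M (-k) (𝓕 χ) := by
  refine DenseRange.induction_on
    (p := fun χ : L2 d => (𝓕 (LT.e2T k χ) : L2 d) = LT.e2M (-k) (𝓕 χ))
    (SchwartzMap.denseRange_toLpCLM (p := 2) ENNReal.ofNat_ne_top) χ ?_ fun f => ?_
  · exact isClosed_eq ((Lp.fourierTransformₗᵢ (E d) ℂ).continuous.comp (LT.e2T k).continuous)
      ((LT.e2M (-k)).continuous.comp (Lp.fourierTransformₗᵢ (E d) ℂ).continuous)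
  · have h1 : LT.e2T k (f.toLp 2) = (f.compSubConstCLM ℂ (-k)).toLp 2 := by
      refine Lp.ext ?_
      filter_upwards [LT.e2T_coe k (f.toLp 2), (f.compSubConstCLM ℂ (-k)).coeFn_toLp 2 volume,
        (measurePreserving_add_right volume k).quasiMeasurePreserving.ae (f.coeFn_toLp 2 volume)]
        with x a1 a2 a3
      rw [a1, a2, a3, SchwartzMap.compSubConstCLM_apply, sub_neg_eq_add]
    show 𝓕 (LT.e2T k (f.toLp 2)) = LT.e2M (-k) (𝓕 (f.toLp 2))
    rw [h1, SchwartzMap.toLp_fourier_eq, SchwartzMap.toLp_fourier_eq]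
    refine Lp.ext ?_
    filter_upwards [LT.e2M_coe (-k) ((𝓕 f).toLp 2), (𝓕 f).coeFn_toLp 2 volume,
      (𝓕 (f.compSubConstCLM ℂ (-k))).coeFn_toLp 2 volume] with x a1 a2 a3
    rw [a1, a2, a3, SchwartzMap.fourier_coe, SchwartzMap.fourier_coe, ← w1_fwd]
    refine congrArg (fun g : E d → ℂ => 𝓕 g x) (funext fun v => ?_)
    rw [SchwartzMap.compSubConstCLM_apply, sub_neg_eq_add]

/-- the momentum cell with index k -/
def w1c (h : ℝ) (k : Fin d → ℤ) : Set (E d) :=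
  {ξ | ∀ i, ξ i ∈ Set.Ico (k i * h) ((k i + 1) * h)}

theorem w1_meas (h : ℝ) (k : Fin d → ℤ) : MeasurableSet (w1c h k) :=
  measurableSet_box (fun i => Set.Ico (k i * h) ((k i + 1) * h)) fun _ => measurableSet_Ico

theorem w1_vol {h : ℝ} (hh : 0 < h) (k : Fin d → ℤ) :
    volume (w1c h k) = ENNReal.ofReal (h ^ d) := by
  rw [w1c, volume_box (fun i => Set.Ico (k i * h) ((k i + 1) * h)) fun _ => measurableSet_Ico]
  have e : ∀ i, volume (Set.Ico ((k i : ℝ) * h) ((k i + 1) * h)) = ENNReal.ofReal h := by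
    intro i
    rw [Real.volume_Ico]
    congr 1
    ring
  simp only [e, Finset.prod_const, Finset.card_univ, Fintype.card_fin]
  rw [ENNReal.ofReal_pow hh.le]

theorem w1_inner (c : ℝ) (j : Fin d → ℤ) (ξ : E d) : ⟪zl c j, ξ⟫ = ∑ i, c * j i * ξ i := by
  simp [zl, PiLp.inner_apply, mul_comm]

theorem w1_int {h : ℝ} (hh : 0 < h) (k j : Fin d → ℤ) :
    ∫ ξ in w1c h k, ec ⟪zl h⁻¹ j, ξ⟫ = if j = 0 then ((h ^ d : ℝ) : ℂ) else 0 := by
  have e : ∀ ξ : E d, ec ⟪zl h⁻¹ j, ξ⟫ = ∏ i, ec (j i / h * ξ i) := by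
    intro ξ
    rw [w1_inner, ec_sum]
    refine Finset.prod_congr rfl fun i _ => ?_
    congr 1
    ring
  simp only [e]
  rw [w1c, integral_box (fun i => Set.Ico (k i * h) ((k i + 1) * h)) (fun _ => measurableSet_Ico)
    fun i s => ec (j i / h * s)]
  simp only [LT1.s12_int hh]
  split_ifs with hj
  · simp [hj]
  · obtain ⟨i, hi⟩ := Function.ne_iff.1 hj
    exact Finset.prod_eq_zero (Finset.mem_univ i) (if_neg hi)

theorem w1_disj {h : ℝ} (hh : 0 < h) {k k' : Fin d → ℤ} {ξ : E d} (h1 : ξ ∈ w1c h k)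
    (h2 : ξ ∈ w1c h k') : k = k' :=
  funext fun i => LT1.s12_disj hh (h1 i) (h2 i)

theorem w1_sym {h : ℝ} (m : ℝ) {k : Fin d → ℤ} {ξ : E d} (h1 : ξ ∈ w1c h k) :
    sym m ξ ≤ sym m (zl h k) + 2 * Real.pi * (d * h) := by
  have a1 := sym_lip m ξ (zl h k - ξ)
  have a2 : ‖zl h k - ξ‖ ≤ d * h := by
    refine norm_le_of_coord fun i => ?_
    have := h1 i
    have e : (zl h k - ξ) i = h * k i - ξ i := by simp [zl]
    rw [e, abs_le]
    constructor <;> nlinarith [this.1, this.2]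
  rw [add_sub_cancel] at a1
  nlinarith [Real.pi_pos]

theorem ft_translate (w : L2 d) (b : E d) : ∃ u : L2 d, (∀ᵐ x, fn u x = fn w (x + b)) ∧
    ∀ᵐ ξ, fn (ft u) ξ = ec ⟪b, ξ⟫ * fn (ft w) ξ := by
  refine ⟨LT.e2T b w, LT.e2T_coe b w, ?_⟩
  unfold fn ft
  rw [w1_comm]
  filter_upwards [LT.e2M_coe (-b) (𝓕 w)] with ξ a1
  rw [a1, inner_neg_left, neg_neg]

theorem shannon {h : ℝ} (hh : 0 < h) (m : ℝ) :
    ∃ (w : (Fin d → ℤ) → L2 d) (u : (Fin d → ℤ) × (Fin d → ℤ) → L2 d), Orthonormal ℂ u ∧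
      (∀ k, ‖w k‖ = 1) ∧ (∀ k j, ∀ᵐ x, fn (u (k, j)) x = fn (w k) (x - zl h⁻¹ j)) ∧
      ∀ k j, kin m (u (k, j)) ≤ ENNReal.ofReal (sym m (zl h k) + 2 * Real.pi * (d * h)) := by
  have hd : 0 < h ^ d := pow_pos hh d
  have hv : ∀ k : Fin d → ℤ, volume (w1c h k) ≠ ∞ := fun k => by
    rw [w1_vol hh]
    exact ENNReal.ofReal_ne_top
  obtain ⟨χ, hχ⟩ : ∃ χ : (Fin d → ℤ) → L2 d, ∀ k, χ k = indicatorConstLp 2
      (w1_meas h k) (hv k) (((√(h ^ d))⁻¹ : ℝ) : ℂ) := ⟨_, fun _ => rfl⟩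
  have hs : 0 < √(h ^ d) := Real.sqrt_pos.2 hd
  have hc : ∀ k, ∀ᵐ ξ, fn (ft (𝓕⁻ (χ k))) ξ =
      (w1c h k).indicator (fun _ => (((√(h ^ d))⁻¹ : ℝ) : ℂ)) ξ := by
    intro k
    unfold fn ft
    rw [FourierTransform.fourier_fourierInv_eq, hχ]
    exact indicatorConstLp_coeFn
  choose u hu1 hu2 using fun a : (Fin d → ℤ) × (Fin d → ℤ) =>
    ft_translate (𝓕⁻ (χ a.1)) (-zl h⁻¹ a.2)
  have hu3 : ∀ a : (Fin d → ℤ) × (Fin d → ℤ), ∀ᵐ ξ, fn (ft (u a)) ξ = (w1c h a.1).indicator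
      (fun ξ => ec ⟪-zl h⁻¹ a.2, ξ⟫ * (((√(h ^ d))⁻¹ : ℝ) : ℂ)) ξ := by
    intro a
    filter_upwards [hu2 a, hc a.1] with ξ a1 a2
    rw [a1, a2, Set.indicator_mul_right]
  have hon : Orthonormal ℂ u := by
    refine orthonormal_iff_ite.2 fun a b => ?_
    rw [← Lp.inner_fourier_eq, L2.inner_def]
    by_cases hk : a.1 = b.1
    · have e : ∫ ξ, inner ℂ ((𝓕 (u a) : L2 d) ξ) ((𝓕 (u b) : L2 d) ξ) =
          ∫ ξ, (w1c h a.1).indicator
            (fun ξ => ((h ^ d : ℝ) : ℂ)⁻¹ * ec ⟪zl h⁻¹ (a.2 - b.2), ξ⟫) ξ := by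
        refine integral_congr_ae ?_
        filter_upwards [hu3 a, hu3 b] with ξ a1 a2
        unfold fn ft at a1 a2
        rw [a1, a2, ← hk]
        by_cases hξ : ξ ∈ w1c h a.1
        · simp only [Set.indicator_of_mem hξ]
          rw [RCLike.inner_apply, map_mul, ← LT.ec_neg, Complex.conj_ofReal, mul_mul_mul_comm,
            ← LT.ec_add, ← Complex.ofReal_mul, ← mul_inv, Real.mul_self_sqrt hd.le, mul_comm,
            Complex.ofReal_inv]
          congr 2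
          rw [inner_neg_left, inner_neg_left, neg_neg, w1_inner, w1_inner, w1_inner,
            ← Finset.sum_neg_distrib, ← Finset.sum_add_distrib]
          refine Finset.sum_congr rfl fun i _ => ?_
          simp only [Pi.sub_apply]
          push_cast
          ring
        · simp only [Set.indicator_of_notMem hξ, inner_zero_left]
      rw [e, integral_indicator (w1_meas h _), integral_const_mul, w1_int hh]
      by_cases hj : a.2 = b.2
      · rw [if_pos (sub_eq_zero.2 hj), if_pos (Prod.ext hk hj),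
          inv_mul_cancel₀ (Complex.ofReal_ne_zero.2 hd.ne')]
      · rw [if_neg (sub_ne_zero.2 hj), if_neg fun q => hj (congrArg Prod.snd q), mul_zero]
    · rw [if_neg fun q => hk (congrArg Prod.fst q)]
      refine integral_eq_zero_of_ae ?_
      filter_upwards [hu3 a, hu3 b] with ξ a1 a2
      unfold fn ft at a1 a2
      rw [a1, a2]
      by_cases hξ : ξ ∈ w1c h a.1
      · rw [Set.indicator_of_notMem fun q => hk (w1_disj hh hξ q), inner_zero_right]
        rfl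
      · rw [Set.indicator_of_notMem hξ, inner_zero_left]
        rfl
  refine ⟨fun k => 𝓕⁻ (χ k), u, hon, fun k => ?_, fun k j => ?_, fun k j => ?_⟩
  · rw [← Lp.norm_fourier_eq, FourierTransform.fourier_fourierInv_eq, hχ,
      norm_indicatorConstLp two_ne_zero ENNReal.ofNat_ne_top, Measure.real, w1_vol hh,
      ENNReal.toReal_ofReal hd.le, Complex.norm_real,
      Real.norm_of_nonneg (by positivity), ENNReal.toReal_ofNat, ← Real.sqrt_eq_rpow,
      inv_mul_cancel₀ hs.ne']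
  · simpa only [sub_eq_add_neg] using hu1 (k, j)
  · have h1 := fn_mass (u := ft (u (k, j))) ((Lp.norm_fourier_eq _).trans (hon.1 _))
    rw [← mul_one (ENNReal.ofReal _), ← h1, ← lintegral_const_mul' _ _ ENNReal.ofReal_ne_top]
    refine lintegral_mono_ae ?_
    filter_upwards [hu3 (k, j)] with ξ a1
    by_cases hξ : ξ ∈ w1c h k
    · exact mul_le_mul_left (ENNReal.ofReal_le_ofReal (w1_sym m hξ)) _
    · rw [a1, Set.indicator_of_notMem hξ]
      simp

end Pool.Agent.P.MP_9f4f5e_mp.RL
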