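import Pool.Agent.P.MP_9f4f5e_mp.RL.W1

set_option linter.unusedSectionVars false
set_option linter.unusedVariables false

open MeasureTheory Matrix
open scoped ENNReal ComplexOrder ComplexConjugate FourierTransform RealInnerProductSpace
open Pool.Agent.P.MP_9f4f5e_mp.LT (tp pp dg qf ec fej Spec)

noncomputable section

namespace Pool.Agent.P.MP_9f4f5e_mp.RL

variable {d : ℕ} {ι κ : Type} [Fintype ι] [DecidableEq ι] [Fintype κ]

/-- a closed coordinate box -/
def w2_box (d : ℕ) (a b : ℝ) : Set (E d) := {x | ∀ k, x k ∈ Set.Icc a b}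

theorem w2_meas (a b : ℝ) : MeasurableSet (w2_box d a b) :=
  measurableSet_box (fun _ => Set.Icc a b) fun _ => measurableSet_Icc

theorem w2_vol {a b : ℝ} (hab : a ≤ b) : volume (w2_box d a b) = ENNReal.ofReal ((b - a) ^ d) := by
  have h1 := volume_box (d := d) (fun _ => Set.Icc a b) fun _ => measurableSet_Icc
  refine h1.trans ?_
  rw [Finset.prod_const, Finset.card_univ, Fintype.card_fin, Real.volume_Icc,
    ENNReal.ofReal_pow (sub_nonneg.2 hab)]

theorem w2_radius (w : L2 d) (hw : ‖w‖ = 1) {η : ℝ} (hη : 0 < η) :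
    ∀ᶠ n : ℕ in Filter.atTop, 1 - η ≤ ∫ x in w2_box d (-(n : ℝ)) n, ‖fn w x‖ ^ 2 := by
  have hU : (⋃ n : ℕ, w2_box d (-(n : ℝ)) n) = Set.univ := by
    refine Set.eq_univ_of_forall fun x => ?_
    obtain ⟨n, hn⟩ := exists_nat_ge ‖x‖
    refine Set.mem_iUnion.2 ⟨n, fun k => abs_le.1 ?_⟩
    have h2 := PiLp.norm_apply_le x k
    rw [Real.norm_eq_abs] at h2
    exact h2.trans hn
  have h1 := tendsto_setIntegral_of_monotone (μ := volume) (f := fun x => ‖fn w x‖ ^ 2)
    (s := fun n : ℕ => w2_box d (-(n : ℝ)) n) (fun _ => w2_meas _ _)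
    (fun a b hab x hx k =>
      Set.Icc_subset_Icc (neg_le_neg (Nat.cast_le.2 hab)) (Nat.cast_le.2 hab) (hx k))
    (fn_sq w).1.integrableOn
  rw [hU, Measure.restrict_univ, (fn_sq w).2, hw, one_pow] at h1
  exact h1.eventually (eventually_ge_nhds (by linarith))

theorem w2_pot (w u : L2 d) {a : E d} {r L c : ℝ} (hu : ∀ᵐ x, fn u x = fn w (x - a))
    (h0 : ∀ k, 0 ≤ a k) (h1 : ∀ k, a k ≤ L) (hc : c ≤ ∫ x in w2_box d (-r) r, ‖fn w x‖ ^ 2) :
    ENNReal.ofReal c ≤ pot (Set.indicator (w2_box d (-r) (L + r)) 1) u := by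
  have e1 : pot (Set.indicator (w2_box d (-r) (L + r)) 1) u =
      ∫⁻ x, ENNReal.ofReal (Set.indicator (w2_box d (-r) (L + r)) (1 : E d → ℝ) (x + a)) *
        ‖fn w x‖ₑ ^ 2 := by
    rw [← lintegral_sub_right_eq_self _ a]
    refine lintegral_congr_ae ?_
    filter_upwards [hu] with x hx
    rw [hx, sub_add_cancel]
  rw [e1]
  refine (ENNReal.ofReal_le_ofReal hc).trans ?_
  rw [ofReal_integral_eq_lintegral_ofReal (fn_sq w).1.integrableOn
    (Filter.Eventually.of_forall fun x => sq_nonneg _), ← lintegral_indicator (w2_meas _ _)]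
  refine lintegral_mono fun x => ?_
  by_cases hx : x ∈ w2_box d (-r) r
  · have hx' : x + a ∈ w2_box d (-r) (L + r) := fun k => by
      rw [PiLp.add_apply]
      exact ⟨by linarith [(hx k).1, h0 k], by linarith [(hx k).2, h1 k]⟩
    rw [Set.indicator_of_mem hx, Set.indicator_of_mem hx', ENNReal.ofReal_pow (norm_nonneg _),
      ofReal_norm]
    simp
  · rw [Set.indicator_of_notMem hx]
    exact zero_le

theorem w2_phase (m : ℝ) {γ : ℝ} (hγ : 0 < γ) {B : Set (E d)} (hB : MeasurableSet B) :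
    phase m γ (Set.indicator B 1) =
      volume B * ∫⁻ ξ : E d, ENNReal.ofReal (1 - sym m ξ) ^ γ := by
  have h1 : ∀ x : E d, ∫⁻ ξ : E d, ENNReal.ofReal (Set.indicator B (1 : E d → ℝ) x - sym m ξ) ^ γ =
      Set.indicator B (fun _ => ∫⁻ ξ : E d, ENNReal.ofReal (1 - sym m ξ) ^ γ) x := by
    intro x
    by_cases hx : x ∈ B
    · simp only [Set.indicator_of_mem hx, Pi.one_apply]
    · have h2 : ∀ ξ : E d, ENNReal.ofReal (0 - sym m ξ) ^ γ = 0 := fun ξ => by
        rw [ENNReal.ofReal_of_nonpos (by linarith [sym_nonneg m ξ]), ENNReal.zero_rpow_of_pos hγ]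
      simp only [Set.indicator_of_notMem hx, h2, lintegral_zero]
  unfold phase
  simp only [h1]
  rw [lintegral_indicator_const hB, mul_comm]

theorem phi_fin (m : ℝ) {γ : ℝ} (hγ : 0 < γ) :
    ∫⁻ ξ : E d, ENNReal.ofReal (1 - sym m ξ) ^ γ ≠ ∞ := by
  have hpi := Real.pi_pos
  have h1 : ∀ ξ : E d, ENNReal.ofReal (1 - sym m ξ) ^ γ ≤
      Set.indicator (Metric.closedBall (0 : E d) ((1 + |m|) / (2 * Real.pi))) 1 ξ := by
    intro ξ
    by_cases hx : ξ ∈ Metric.closedBall (0 : E d) ((1 + |m|) / (2 * Real.pi))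
    · rw [Set.indicator_of_mem hx, Pi.one_apply]
      exact ENNReal.rpow_le_one (ENNReal.ofReal_le_one.2 (by linarith [sym_nonneg m ξ])) hγ.le
    · rw [Set.indicator_of_notMem hx]
      rw [mem_closedBall_zero_iff, not_le, div_lt_iff₀ (by positivity)] at hx
      rw [ENNReal.ofReal_of_nonpos (by linarith [sym_ge m ξ, le_abs_self m]),
        ENNReal.zero_rpow_of_pos hγ]
  refine ne_top_of_le_ne_top ?_ (lintegral_mono h1)
  rw [lintegral_indicator_one measurableSet_closedBall]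
  exact measure_closedBall_lt_top.ne

theorem lower_sum {m γ C : ℝ} (hγ : 0 < γ) (H : LiebThirring d m γ C) {h η : ℝ} (hh : 0 < h)
    (hη : 0 < η) (F : Finset (Fin d → ℤ)) :
    ENNReal.ofReal (h ^ d *
        ∑ k ∈ F, max (1 - η - sym m (zl h k) - 2 * Real.pi * (d * h)) 0 ^ γ)
      ≤ ENNReal.ofReal C * ∫⁻ ξ : E d, ENNReal.ofReal (1 - sym m ξ) ^ γ := by
  obtain ⟨w, u, hu, hw, huw, hkin⟩ := shannon (d := d) hh m
  obtain ⟨n, hn⟩ := (Filter.eventually_all.2 fun p : F => w2_radius (w p.1) (hw _) hη).exists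
  set S := ∑ k ∈ F, max (1 - η - sym m (zl h k) - 2 * Real.pi * (d * h)) 0 ^ γ with hS
  set Φ := (∫⁻ ξ : E d, ENNReal.ofReal (1 - sym m ξ) ^ γ).toReal with hΦ
  have hΦ' : ∫⁻ ξ : E d, ENNReal.ofReal (1 - sym m ξ) ^ γ = ENNReal.ofReal Φ :=
    (ENNReal.ofReal_toReal (phi_fin m hγ)).symm
  have hΦ0 : 0 ≤ Φ := ENNReal.toReal_nonneg
  have hn0 : (0 : ℝ) ≤ n := Nat.cast_nonneg _
  have hC : 0 ≤ max C 0 := le_max_right _ _
  have hpi := Real.pi_pos
  have h3 : ENNReal.ofReal C = ENNReal.ofReal (max C 0) := by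
    rcases le_total C 0 with h' | h'
    · rw [max_eq_right h', ENNReal.ofReal_of_nonpos h', ENNReal.ofReal_zero]
    · rw [max_eq_left h']
  have key : ∀ J : ℕ, (J : ℝ) ^ d * S ≤ max C 0 * ((J / h + 2 * n) ^ d * Φ) := fun J => by
    let e : F × (Fin d → Fin J) → (Fin d → ℤ) × (Fin d → ℤ) :=
      fun q => (q.1.1, fun k => ((q.2 k : ℕ) : ℤ))
    have he : Function.Injective e := fun q q' hq =>
      Prod.ext (Subtype.ext (congrArg Prod.fst hq))
        (funext fun k => Fin.ext (Int.ofNat_injective (congrFun (congrArg Prod.snd hq) k)))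
    let φ := (Fintype.equivFin (F × (Fin d → Fin J))).symm
    have h1 := H _ (u ∘ e ∘ φ) (hu.comp _ (he.comp φ.injective))
      (Set.indicator (w2_box d (-(n : ℝ)) (J / h + n)) 1) (measurable_one.indicator (w2_meas _ _))
    have hJ : (0 : ℝ) ≤ J / h := by positivity
    have hL : (0 : ℝ) ≤ (J / h + 2 * n) ^ d := by positivity
    have e2 : (J : ℝ) / h + n - -(n : ℝ) = J / h + 2 * n := by ring
    rw [w2_phase m hγ (w2_meas _ _), w2_vol (by linarith), e2, hΦ', h3,
      ← ENNReal.ofReal_mul hL, ← ENNReal.ofReal_mul hC] at h1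
    have h4 : ∀ q : F × (Fin d → Fin J),
        ENNReal.ofReal (max (1 - η - sym m (zl h q.1.1) - 2 * Real.pi * (d * h)) 0 ^ γ) ≤
          (pot (Set.indicator (w2_box d (-(n : ℝ)) (J / h + n)) 1) (u (e q))
            - kin m (u (e q))) ^ γ := by
      intro q
      have a1 := w2_pot (L := J / h) (w q.1.1) (u (e q)) (huw q.1.1 fun k => ((q.2 k : ℕ) : ℤ))
        (fun k => by
          show 0 ≤ h⁻¹ * ((((q.2 k : ℕ) : ℤ)) : ℝ)
          positivity)
        (fun k => by
          show h⁻¹ * ((((q.2 k : ℕ) : ℤ)) : ℝ) ≤ J / h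
          rw [div_eq_inv_mul]
          refine mul_le_mul_of_nonneg_left ?_ (by positivity)
          exact_mod_cast (q.2 k).2.le) (hn q.1)
      have a2 := hkin q.1.1 fun k => ((q.2 k : ℕ) : ℤ)
      rw [← ENNReal.ofReal_rpow_of_nonneg (le_max_right _ _) hγ.le]
      refine ENNReal.rpow_le_rpow ?_ hγ.le
      refine le_trans ?_ (tsub_le_tsub a1 a2)
      rw [← ENNReal.ofReal_sub _ (add_nonneg (sym_nonneg _ _) (by positivity)), ← sub_sub]
      rcases le_total (1 - η - sym m (zl h q.1.1) - 2 * Real.pi * (d * h)) 0 with h' | h'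
      · rw [max_eq_right h', ENNReal.ofReal_zero]
        exact zero_le
      · rw [max_eq_left h']
    have h5 := (Finset.sum_le_sum fun i (_ : i ∈ Finset.univ) => h4 (φ i)).trans h1
    rw [← ENNReal.ofReal_sum_of_nonneg fun _ _ => Real.rpow_nonneg (le_max_right _ _) _,
      ENNReal.ofReal_le_ofReal_iff (mul_nonneg hC (mul_nonneg hL hΦ0)),
      φ.sum_comp fun q => max (1 - η - sym m (zl h q.1.1) - 2 * Real.pi * (d * h)) 0 ^ γ] at h5
    refine le_trans (le_of_eq ?_) h5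
    rw [hS, ← Finset.sum_coe_sort F, Fintype.sum_prod_type, Finset.mul_sum]
    refine Finset.sum_congr rfl fun k _ => ?_
    simp only [Finset.sum_const, Finset.card_univ, Fintype.card_fun, Fintype.card_fin,
      nsmul_eq_mul, Nat.cast_pow]
  rw [hΦ', h3, ← ENNReal.ofReal_mul hC]
  refine ENNReal.ofReal_le_ofReal ?_
  have t1 : Filter.Tendsto (fun J : ℕ => max C 0 * ((1 + 2 * n * h / J) ^ d * Φ)) Filter.atTop
      (nhds (max C 0 * ((1 + 0) ^ d * Φ))) :=
    ((((tendsto_const_div_atTop_nhds_zero_nat (2 * n * h)).const_add 1).pow d).mul_const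
      Φ).const_mul _
  rw [add_zero, one_pow, one_mul] at t1
  refine ge_of_tendsto t1 ?_
  filter_upwards [Filter.eventually_gt_atTop 0] with J hJ
  have hJ0 : (0 : ℝ) < J := Nat.cast_pos.2 hJ
  have h6 := mul_le_mul_of_nonneg_left (key J) (show (0 : ℝ) ≤ (h / J) ^ d by positivity)
  have e3 : (h / J) ^ d * ((J : ℝ) ^ d * S) = h ^ d * S := by
    rw [← mul_assoc, ← mul_pow, div_mul_cancel₀ _ hJ0.ne']
  have e4 : (h / J) * (J / h + 2 * n) = 1 + 2 * n * h / J := by
    field_simp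
  have e5 : (h / J) ^ d * (max C 0 * ((J / h + 2 * n) ^ d * Φ)) =
      max C 0 * ((1 + 2 * n * h / J) ^ d * Φ) := by
    rw [← e4, mul_pow]
    ring
  rwa [e3, e5] at h6

end Pool.Agent.P.MP_9f4f5e_mp.RL
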